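import Mathlib

set_option autoImplicit false
open MeasureTheory Set Metric Filter Topology

namespace Pool.Agent.Lib.MP_c9e52c_gt

section
variable {E : Type*} [NormedAddCommGroup E] [InnerProductSpace ℝ E]

/-- The trace of a continuous endomorphism. -/
noncomputable def tr (A : E →L[ℝ] E) : ℝ := LinearMap.trace ℝ E (A : E →ₗ[ℝ] E)

theorem tr_eq_sum {ι : Type*} [Fintype ι] (b : OrthonormalBasis ι ℝ E) (A : E →L[ℝ] E) :
    tr A = ∑ i, inner ℝ (b i) (A (b i)) := by
  unfold tr
  rw [LinearMap.trace_eq_sum_inner _ b]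
  rfl

/-- the cutoff -/
noncomputable def bmp : ContDiffBump (1 : ℝ) := ⟨1/4, 1/2, by norm_num, by norm_num⟩

theorem continuous_mul_of_tsupport {X : Type*} [TopologicalSpace X] (f g : X → ℝ)
    (hf : Continuous f) (hg : ∀ x ∈ tsupport f, ContinuousAt g x) :
    Continuous (fun x => f x * g x) := by
  rw [continuous_iff_continuousAt]
  intro x
  by_cases hx : x ∈ tsupport f
  · exact hf.continuousAt.mul (hg x hx)
  · have h := notMem_tsupport_iff_eventuallyEq.1 hx
    have h2 : (fun x => f x * g x) =ᶠ[𝓝 x] fun _ => 0 := by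
      filter_upwards [h] with y hy
      rw [hy]; simp
    exact continuousAt_const.congr h2.symm

end

variable {E : Type*} [NormedAddCommGroup E] [InnerProductSpace ℝ E] [FiniteDimensional ℝ E]
  [MeasurableSpace E] [BorelSpace E] [Nontrivial E]
variable {F : Type*} [NormedAddCommGroup F] [NormedSpace ℝ F]

/-- Polar coordinates for a product of a radial function and a homogeneous function. -/
theorem integral_polar (φ h : ℝ → ℝ) (f : E → F)
    (hf : ∀ c : ℝ, 0 < c → ∀ x : E, ‖x‖ = 1 → f (c • x) = h c • f x) :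
    ∫ x, φ ‖x‖ • f x =
      (∫ r in Ioi (0 : ℝ), r ^ (Module.finrank ℝ E - 1) * (φ r * h r)) •
        ∫ x : sphere (0 : E) 1, f x ∂((volume : Measure E).toSphere) := by
  set μ : Measure E := volume
  calc
    ∫ x, φ ‖x‖ • f x ∂μ = ∫ x : ({(0)}ᶜ : Set E), φ ‖x.1‖ • f x ∂(μ.comap (↑)) := by
      rw [integral_subtype_comap (measurableSet_singleton _).compl fun x ↦ φ (‖x‖) • f x,
        restrict_compl_singleton]
    _ = ∫ p, (φ p.2 * h p.2) • f p.1 ∂μ.toSphere.prod (.volumeIoiPow (Module.finrank ℝ E - 1)) := by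
      rw [← μ.measurePreserving_homeomorphUnitSphereProd.integral_comp
        (Homeomorph.measurableEmbedding _)]
      refine integral_congr_ae (.of_forall fun x ↦ ?_)
      have hx : (x : E) ≠ 0 := x.2
      have hn : 0 < ‖(x : E)‖ := norm_pos_iff.2 hx
      have h1 : ‖(‖(x : E)‖⁻¹ • (x : E))‖ = 1 := by
        rw [norm_smul, norm_inv, norm_norm, inv_mul_cancel₀ hn.ne']
      have h2 := hf ‖(x : E)‖ hn (‖(x : E)‖⁻¹ • (x : E)) h1
      rw [smul_smul, mul_inv_cancel₀ hn.ne', one_smul] at h2
      simp only [homeomorphUnitSphereProd_apply_snd_coe, homeomorphUnitSphereProd_apply_fst_coe]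
      rw [mul_smul, ← h2]
    _ = (∫ r : Ioi (0 : ℝ), (φ r * h r) ∂.volumeIoiPow (Module.finrank ℝ E - 1)) •
          ∫ x : sphere (0 : E) 1, f x ∂μ.toSphere := by
      rw [← integral_prod_swap]
      exact integral_prod_smul (fun r : Ioi (0 : ℝ) => φ r * h r) (fun x : sphere (0 : E) 1 => f x)
    _ = _ := by
      congr 1
      simp only [Measure.volumeIoiPow, ENNReal.ofReal]
      rw [integral_withDensity_eq_integral_smul,
        integral_subtype_comap measurableSet_Ioi fun a ↦
          Real.toNNReal (a ^ (Module.finrank ℝ E - 1)) • (φ a * h a),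
        setIntegral_congr_fun measurableSet_Ioi fun x hx ↦ ?_]
      · rw [NNReal.smul_def, Real.coe_toNNReal _ (pow_nonneg hx.out.le _), smul_eq_mul]
      · exact (measurable_subtype_coe.pow_const _).real_toNNReal

omit [Nontrivial E] in
theorem integral_cutoff_trace (Y : E → E) (hY : ∀ x, x ≠ 0 → ContDiffAt ℝ 1 Y x)
    (htan : ∀ x, inner ℝ x (Y x) = 0) :
    ∫ x, bmp (‖x‖ ^ 2) * tr (fderiv ℝ Y x) = 0 := by
  classical
  set b := stdOrthonormalBasis ℝ E
  set f : E → ℝ := fun x => bmp (‖x‖ ^ 2) with hf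
  have hbc : ContDiff ℝ 1 (bmp : ℝ → ℝ) := bmp.contDiff
  have hfc : ContDiff ℝ 1 f := hbc.comp (contDiff_norm_sq ℝ)
  have hsupp : tsupport f ⊆ {x : E | 1 / 2 ≤ ‖x‖ ^ 2 ∧ ‖x‖ ^ 2 ≤ 3 / 2} := by
    apply closure_minimal
    · intro x hx
      have : ‖x‖ ^ 2 ∈ Function.support bmp := hx
      rw [bmp.support_eq, mem_ball, Real.dist_eq, abs_lt] at this
      have h2 : bmp.rOut = 1 / 2 := rfl
      rw [h2] at this
      constructor <;> linarith [this.1, this.2]
    · apply IsClosed.and <;>
      exact isClosed_le (by fun_prop) (by fun_prop)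
  have hcpt : HasCompactSupport f := by
    apply HasCompactSupport.of_support_subset_isCompact (isCompact_closedBall (0 : E) 2)
    intro x hx
    have := (hsupp (subset_closure hx)).2
    simp only [mem_closedBall, dist_zero_right]
    nlinarith [norm_nonneg x]
  have hne : ∀ x ∈ tsupport f, x ≠ 0 := by
    intro x hx h0
    have := (hsupp hx).1
    rw [h0] at this
    norm_num at this
  have hdY : ∀ x, x ≠ 0 → ContinuousAt (fderiv ℝ Y) x := by
    intro x hx
    exact (hY x hx).continuousAt_fderiv (by norm_num)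
  have hint1 : ∀ i, Integrable (fun x => f x * inner ℝ (b i) (fderiv ℝ Y x (b i))) := by
    intro i
    have hc : Continuous (fun x => f x * inner ℝ (b i) (fderiv ℝ Y x (b i))) := by
      apply continuous_mul_of_tsupport f _ hfc.continuous
      intro x hx
      have := hdY x (hne x hx)
      exact ContinuousAt.inner continuousAt_const (this.clm_apply continuousAt_const)
    exact hc.integrable_of_hasCompactSupport hcpt.mul_right
  have hint2 : ∀ i, Integrable (fun x => fderiv ℝ f x (b i) * inner ℝ (b i) (Y x)) := by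
    intro i
    have hcp : HasCompactSupport (fun x => fderiv ℝ f x (b i)) := hcpt.fderiv_apply ℝ (b i)
    have hss : tsupport (fun x => fderiv ℝ f x (b i)) ⊆ tsupport f := by
      exact (closure_mono (by
        intro x hx h0
        apply hx
        simp [h0])).trans (tsupport_fderiv_subset ℝ (f := f))
    have hc : Continuous (fun x => fderiv ℝ f x (b i) * inner ℝ (b i) (Y x)) := by
      apply continuous_mul_of_tsupport _ _
        ((hfc.continuous_fderiv (by norm_num)).clm_apply continuous_const)
      intro x hx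
      exact ContinuousAt.inner continuousAt_const (hY x (hne x (hss hx))).continuousAt
    exact hc.integrable_of_hasCompactSupport hcp.mul_right
  have key : ∀ i, ∫ x, f x * inner ℝ (b i) (fderiv ℝ Y x (b i)) =
      - ∫ x, fderiv ℝ f x (b i) * inner ℝ (b i) (Y x) := by
    intro i
    have h := integral_bilinear_hasFDerivAt_right_eq_neg_left_of_integrable
      (μ := (volume : Measure E)) (f := f) (f' := fderiv ℝ f)
      (g := fun x => inner ℝ (b i) (Y x))
      (g' := fun x => (innerSL ℝ (b i)).comp (fderiv ℝ Y x)) (v := b i)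
      (B := ContinuousLinearMap.mul ℝ ℝ) ?_ ?_ ?_ ?_ ?_
    · simpa using h
    · simpa using hint2 i
    · simpa using hint1 i
    · have hc : Continuous (fun x => f x * inner ℝ (b i) (Y x)) := by
        apply continuous_mul_of_tsupport f _ hfc.continuous
        intro x hx
        exact ContinuousAt.inner continuousAt_const (hY x (hne x hx)).continuousAt
      simpa using hc.integrable_of_hasCompactSupport (hcpt.mul_right (f' := fun x => inner ℝ (b i) (Y x)))
    · intro x _
      exact (hfc.differentiable (by norm_num) x).hasFDerivAt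
    · intro x hx
      have := ((hY x (hne x hx)).differentiableAt (by norm_num)).hasFDerivAt
      exact (innerSL ℝ (b i)).hasFDerivAt.comp x this
  have hzero : ∀ x, ∑ i, fderiv ℝ f x (b i) * inner ℝ (b i) (Y x) = 0 := by
    intro x
    have h1 : ∑ i, fderiv ℝ f x (b i) * inner ℝ (b i) (Y x) = fderiv ℝ f x (Y x) := by
      conv_rhs => rw [← b.sum_repr' (Y x)]
      rw [map_sum]
      apply Finset.sum_congr rfl
      intro i _
      rw [map_smul, smul_eq_mul, mul_comm]
    rw [h1]
    have h2 : HasFDerivAt f ((deriv (bmp : ℝ → ℝ) (‖x‖ ^ 2)) • (2 • innerSL ℝ x)) x := by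
      have h3 : HasDerivAt (bmp : ℝ → ℝ) (deriv (bmp : ℝ → ℝ) (‖x‖ ^ 2)) (‖x‖ ^ 2) :=
        (hbc.differentiable (by norm_num) _).hasDerivAt
      exact HasDerivAt.comp_hasFDerivAt (h₂ := (bmp : ℝ → ℝ)) x h3
        (hasStrictFDerivAt_norm_sq x).hasFDerivAt
    rw [h2.fderiv]
    simp [htan x]
  have hfin : ∫ x, f x * tr (fderiv ℝ Y x) = ∑ i, ∫ x, f x * inner ℝ (b i) (fderiv ℝ Y x (b i)) := by
    rw [← integral_finsetSum _ (fun i _ => hint1 i)]
    congr 1
    ext x
    rw [tr_eq_sum b, Finset.mul_sum]
  rw [hfin, Finset.sum_congr rfl (fun i _ => key i), Finset.sum_neg_distrib,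
    ← integral_finsetSum _ (fun i _ => hint2 i)]
  simp [hzero]

/-- Divergence theorem on the unit sphere for tangential vector fields. -/
theorem integral_sphere_tr (Y : E → E) (hY : ∀ x, x ≠ 0 → ContDiffAt ℝ 1 Y x)
    (htan : ∀ x, inner ℝ x (Y x) = 0) (k : ℕ)
    (hhom : ∀ c : ℝ, 0 < c → ∀ x : E, ‖x‖ = 1 →
      tr (fderiv ℝ Y (c • x)) = c ^ k * tr (fderiv ℝ Y x)) :
    ∫ x : sphere (0 : E) 1, tr (fderiv ℝ Y x) ∂((volume : Measure E).toSphere) = 0 := by
  have h1 := integral_cutoff_trace Y hY htan
  have h2 := integral_polar (E := E) (fun r => bmp (r ^ 2)) (fun r => r ^ k)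
    (fun x => tr (fderiv ℝ Y x)) (by simpa using hhom)
  simp only [smul_eq_mul] at h2
  rw [h1] at h2
  have h3 : 0 < ∫ r in Ioi (0 : ℝ), r ^ (Module.finrank ℝ E - 1) * (bmp (r ^ 2) * r ^ k) := by
    have hc : Continuous (fun r : ℝ => r ^ (Module.finrank ℝ E - 1) * (bmp (r ^ 2) * r ^ k)) := by
      have hb : Continuous (bmp : ℝ → ℝ) := bmp.continuous
      fun_prop
    have hcs : HasCompactSupport
        (fun r : ℝ => r ^ (Module.finrank ℝ E - 1) * (bmp (r ^ 2) * r ^ k)) := by
      apply HasCompactSupport.of_support_subset_isCompact (isCompact_closedBall (0 : ℝ) 2)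
      intro r hr
      have h4 : r ^ 2 ∈ Function.support bmp := by
        intro h0
        apply hr
        simp [h0]
      rw [bmp.support_eq, mem_ball, Real.dist_eq, abs_lt] at h4
      have h5 : bmp.rOut = 1 / 2 := rfl
      rw [h5] at h4
      simp only [mem_closedBall, dist_zero_right, Real.norm_eq_abs]
      rw [abs_le]
      constructor <;> nlinarith [h4.1, h4.2]
    rw [setIntegral_pos_iff_support_of_nonneg_ae]
    · have hsub : Ioo (9 / 10 : ℝ) (11 / 10) ⊆
          Function.support (fun r : ℝ => r ^ (Module.finrank ℝ E - 1) * (bmp (r ^ 2) * r ^ k)) ∩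
            Ioi 0 := by
        intro r hr
        have hr0 : (0 : ℝ) < r := by linarith [hr.1]
        refine ⟨?_, hr0⟩
        have h4 : bmp (r ^ 2) ≠ 0 := by
          have : r ^ 2 ∈ Function.support bmp := by
            rw [bmp.support_eq, mem_ball, Real.dist_eq, abs_lt]
            have h5 : bmp.rOut = 1 / 2 := rfl
            rw [h5]
            constructor <;> nlinarith [hr.1, hr.2]
          exact this
        exact mul_ne_zero (pow_ne_zero _ hr0.ne') (mul_ne_zero h4 (pow_ne_zero _ hr0.ne'))
      refine lt_of_lt_of_le ?_ (measure_mono hsub)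
      rw [Real.volume_Ioo]
      norm_num
    · filter_upwards [ae_restrict_mem measurableSet_Ioi] with r hr
      have hr0 : (0 : ℝ) < r := hr
      have := bmp.nonneg (x := r ^ 2)
      simp only [Pi.zero_apply]
      positivity
    · exact (hc.integrable_of_hasCompactSupport hcs).integrableOn
  rcases mul_eq_zero.1 h2.symm with h | h
  · exact absurd h h3.ne'
  · exact h

end Pool.Agent.Lib.MP_c9e52c_gt
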