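import Mathlib
import Pool.Agent.Lib.MP_c9e52c_gt.Sphere

set_option autoImplicit false
set_option linter.unusedSectionVars false
open MeasureTheory Set Metric Filter Topology

namespace Pool.Agent.Lib.MP_c9e52c_gt

variable {n : Type*} [Fintype n] [DecidableEq n]
variable {E : Type*} [NormedAddCommGroup E] [InnerProductSpace ℝ E] [FiniteDimensional ℝ E]

/-- The matrix of an endomorphism in an orthonormal basis. -/
noncomputable def mat (b : OrthonormalBasis n ℝ E) (A : E →L[ℝ] E) : Matrix n n ℝ :=
  LinearMap.toMatrix b.toBasis b.toBasis (A : E →ₗ[ℝ] E)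

/-- The endomorphism of a matrix. -/
noncomputable def clm (b : OrthonormalBasis n ℝ E) (M : Matrix n n ℝ) : E →L[ℝ] E :=
  LinearMap.toContinuousLinearMap (Matrix.toLin b.toBasis b.toBasis M)

variable (b : OrthonormalBasis n ℝ E)

theorem mat_apply (A : E →L[ℝ] E) (i j : n) : mat b A i j = inner ℝ (b i) (A (b j)) := by
  unfold mat
  rw [LinearMap.toMatrix_apply]
  simp [OrthonormalBasis.repr_apply_apply]

theorem clm_mat (A : E →L[ℝ] E) : clm b (mat b A) = A := by
  unfold mat clm
  ext v
  simp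

theorem mat_clm (M : Matrix n n ℝ) : mat b (clm b M) = M := by
  unfold mat clm
  simp

theorem mat_mul (A B : E →L[ℝ] E) : mat b (A * B) = mat b A * mat b B := by
  unfold mat
  rw [← LinearMap.toMatrix_mul]
  rfl

theorem mat_one : mat b (1 : E →L[ℝ] E) = 1 := by
  unfold mat
  exact LinearMap.toMatrix_one _

theorem mat_add (A B : E →L[ℝ] E) : mat b (A + B) = mat b A + mat b B := by
  ext i j
  simp [mat_apply, inner_add_right]

theorem mat_smul (c : ℝ) (A : E →L[ℝ] E) : mat b (c • A) = c • mat b A := by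
  ext i j
  simp [mat_apply, inner_smul_right]

theorem mat_injective : Function.Injective (mat b : (E →L[ℝ] E) → Matrix n n ℝ) := by
  intro A B h
  rw [← clm_mat b A, h, clm_mat]

theorem clm_apply (M : Matrix n n ℝ) (v : E) :
    clm b M v = ∑ i, (∑ j, M i j * inner ℝ (b j) v) • b i := by
  unfold clm
  rw [LinearMap.coe_toContinuousLinearMap', Matrix.toLin_apply]
  simp [Matrix.mulVec, dotProduct, OrthonormalBasis.repr_apply_apply]

/-- The adjugate of an endomorphism. -/
noncomputable def adjL (A : E →L[ℝ] E) : E →L[ℝ] E := clm b (mat b A).adjugate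

/-- The determinant of an endomorphism. -/
noncomputable def detL (A : E →L[ℝ] E) : ℝ := LinearMap.det (A : E →ₗ[ℝ] E)

theorem detL_eq (A : E →L[ℝ] E) : detL A = (mat b A).det := by
  unfold detL mat
  rw [LinearMap.det_toMatrix]

theorem mul_adjL (A : E →L[ℝ] E) : A * adjL b A = detL A • 1 := by
  apply mat_injective b
  rw [mat_mul, mat_smul, mat_one, detL_eq b]
  unfold adjL
  rw [mat_clm, Matrix.mul_adjugate]

theorem adjL_mul (A : E →L[ℝ] E) : adjL b A * A = detL A • 1 := by
  apply mat_injective b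
  rw [mat_mul, mat_smul, mat_one, detL_eq b]
  unfold adjL
  rw [mat_clm, Matrix.adjugate_mul]

theorem contDiff_mat_entry (i j : n) : ContDiff ℝ ⊤
    (fun A : E →L[ℝ] E => mat b A i j) := by
  simp_rw [mat_apply]
  exact contDiff_const.inner ℝ (by fun_prop)

theorem contDiff_det_of {G : Type*} [NormedAddCommGroup G] [NormedSpace ℝ G]
    (A : G → Matrix n n ℝ) (h : ∀ i j, ContDiff ℝ ⊤ (fun x => A x i j)) :
    ContDiff ℝ ⊤ (fun x => (A x).det) := by
  simp_rw [Matrix.det_apply]
  apply ContDiff.sum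
  intro σ _
  apply ContDiff.const_smul
  apply contDiff_prod
  intro i _
  exact h _ _

include b in
theorem contDiff_detL : ContDiff ℝ ⊤ (detL : (E →L[ℝ] E) → ℝ) := by
  have : (detL : (E →L[ℝ] E) → ℝ) = fun A => (mat b A).det := by
    ext A; exact detL_eq b A
  rw [this]
  exact contDiff_det_of _ (contDiff_mat_entry b)

theorem contDiff_adjL : ContDiff ℝ ⊤ (adjL b : (E →L[ℝ] E) → (E →L[ℝ] E)) := by
  rw [contDiff_clm_apply_iff]
  intro v
  unfold adjL
  simp_rw [clm_apply]
  apply ContDiff.sum
  intro i _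
  apply ContDiff.smul _ contDiff_const
  apply ContDiff.sum
  intro j _
  apply ContDiff.mul _ contDiff_const
  simp_rw [Matrix.adjugate_apply]
  apply contDiff_det_of
  intro k l
  by_cases hk : k = j
  · subst hk
    simp only [Matrix.updateRow_self]
    exact contDiff_const
  · simp only [Matrix.updateRow_ne hk]
    exact contDiff_mat_entry b k l

theorem hasDerivAt_det (M : ℝ → Matrix n n ℝ) (M' : Matrix n n ℝ) (s : ℝ)
    (h : ∀ i j, HasDerivAt (fun s => M s i j) (M' i j) s) :
    HasDerivAt (fun s => (M s).det) ((M s).adjugate * M').trace s := by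
  have h1 : HasDerivAt (fun s => ∑ σ : Equiv.Perm n, Equiv.Perm.sign σ • ∏ i, M s (σ i) i)
      (∑ σ : Equiv.Perm n, Equiv.Perm.sign σ •
        ∑ i, (∏ j ∈ Finset.univ.erase i, M s (σ j) j) • M' (σ i) i) s := by
    apply HasDerivAt.fun_sum
    intro σ _
    apply HasDerivAt.const_smul
    apply HasDerivAt.fun_finsetProd
    intro i _
    exact h _ _
  simp_rw [Matrix.det_apply]
  convert! h1 using 1
  have h2 : ((M s).adjugate * M').trace = ∑ i, ((M s).updateCol i (fun k => M' k i)).det := by
    unfold Matrix.trace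
    apply Finset.sum_congr rfl
    intro i _
    rw [Matrix.diag_apply, Matrix.mul_apply, ← Matrix.cramer_apply,
      Matrix.cramer_eq_adjugate_mulVec]
    rfl
  rw [h2]
  simp_rw [Matrix.det_apply, Finset.smul_sum]
  rw [Finset.sum_comm]
  apply Finset.sum_congr rfl
  intro σ _
  apply Finset.sum_congr rfl
  intro i _
  congr 1
  rw [← Finset.mul_prod_erase Finset.univ _ (Finset.mem_univ i), smul_eq_mul, mul_comm]
  congr 1
  · apply Finset.prod_congr rfl
    intro j hj
    rw [Matrix.updateCol_ne (Finset.ne_of_mem_erase hj)]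
  · rw [Matrix.updateCol_self]

theorem tr_eq_trace (A : E →L[ℝ] E) : tr A = (mat b A).trace := by
  rw [tr_eq_sum b]
  unfold Matrix.trace
  apply Finset.sum_congr rfl
  intro i _
  rw [Matrix.diag_apply, mat_apply]

theorem hasDerivAt_detL_comp (A : ℝ → (E →L[ℝ] E)) (H : E →L[ℝ] E) (s : ℝ)
    (hA : HasDerivAt A H s) :
    HasDerivAt (fun s : ℝ => detL (A s)) (tr (adjL b (A s) * H)) s := by
  have h1 := hasDerivAt_det (fun s : ℝ => mat b (A s)) (mat b H) s (by
    intro i j
    simp_rw [mat_apply]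
    have h3 : HasDerivAt (fun s => A s (b j)) (H (b j)) s := by
      simpa using hA.clm_apply (hasDerivAt_const s (b j))
    simpa using (hasDerivAt_const s (b i)).inner ℝ h3)
  have h3 : tr (adjL b (A s) * H) = ((mat b (A s)).adjugate * mat b H).trace := by
    rw [tr_eq_trace b, mat_mul]
    unfold adjL
    rw [mat_clm]
  rw [h3]
  simpa [detL_eq b] using h1

theorem fderiv_detL (A H : E →L[ℝ] E) : fderiv ℝ detL A H = tr (adjL b A * H) := by
  have h1 : HasFDerivAt detL (fderiv ℝ detL A) A :=
    ((contDiff_detL b).differentiable (by simp) A).hasFDerivAt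
  have h2 : HasDerivAt (fun s : ℝ => A + s • H) H 0 := by
    simpa using ((hasDerivAt_id (0 : ℝ)).smul_const H).const_add A
  have h4 := hasDerivAt_detL_comp b _ _ _ h2
  have h3 : HasDerivAt (fun s : ℝ => detL (A + s • H)) (fderiv ℝ detL A H) 0 := by
    have h1' : HasFDerivAt detL (fderiv ℝ detL A) (A + (0 : ℝ) • H) := by simpa using h1
    exact h1'.comp_hasDerivAt (0 : ℝ) h2
  have h5 := h3.unique h4
  simpa using h5

theorem fderiv_adjL (A H : E →L[ℝ] E) :
    H * adjL b A + A * (fderiv ℝ (adjL b) A H) = tr (adjL b A * H) • 1 := by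
  have h1 : HasFDerivAt (adjL b) (fderiv ℝ (adjL b) A) A :=
    ((contDiff_adjL b).differentiable (by simp) A).hasFDerivAt
  have h2 : HasFDerivAt detL (fderiv ℝ detL A) A :=
    ((contDiff_detL b).differentiable (by simp) A).hasFDerivAt
  have h3 := (hasFDerivAt_id A).mul' h1
  have h4 := h2.smul_const (1 : E →L[ℝ] E)
  have h5 : (fun A : E →L[ℝ] E => detL A • (1 : E →L[ℝ] E)) = fun A => id A * adjL b A := by
    ext1 A
    exact (mul_adjL b A).symm
  rw [h5] at h4
  have h6 := h3.unique h4
  have h7 := congrArg (fun T => T H) h6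
  simp only [id_eq] at h7
  rw [← fderiv_detL]
  simpa [add_comm] using h7

/-- Algebraic form of the Piola identity. -/
theorem piola_of_det_ne_zero (A : E →L[ℝ] E) (hA : detL A ≠ 0)
    (H : E →L[ℝ] (E →L[ℝ] E)) (hH : ∀ u v, H u v = H v u) (c : E) :
    tr (((fderiv ℝ (adjL b) A).comp H).flip c) = 0 := by
  have h1 : ∀ K : E →L[ℝ] E, detL A • (fderiv ℝ (adjL b) A K) c =
      tr (adjL b A * K) • (adjL b A c) - adjL b A (K (adjL b A c)) := by
    intro K
    have h2 := congrArg (fun T => (adjL b A) * T) (fderiv_adjL b A K)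
    simp only [mul_add, ← mul_assoc, adjL_mul] at h2
    have h3 := congrArg (fun T : E →L[ℝ] E => T c) h2
    simp only [add_apply, smul_apply,
      smul_mul_assoc, one_mul, mul_smul_comm, mul_one] at h3
    rw [eq_sub_iff_add_eq, add_comm]
    exact h3
  have h2 : detL A * tr (((fderiv ℝ (adjL b) A).comp H).flip c) = 0 := by
    rw [tr_eq_sum b, Finset.mul_sum]
    have h3 : ∀ i, detL A * inner ℝ (b i) (((fderiv ℝ (adjL b) A).comp H).flip c (b i)) =
        inner ℝ (b i) (adjL b A c) * tr (adjL b A * H (b i)) -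
          inner ℝ (b i) (adjL b A (H (adjL b A c) (b i))) := by
      intro i
      rw [← inner_smul_right]
      simp only [ContinuousLinearMap.flip_apply, ContinuousLinearMap.comp_apply]
      rw [h1, inner_sub_right, inner_smul_right, mul_comm, hH]
    simp_rw [h3]
    rw [Finset.sum_sub_distrib, sub_eq_zero]
    simp_rw [tr_eq_sum b, Finset.mul_sum]
    rw [Finset.sum_comm]
    apply Finset.sum_congr rfl
    intro j _
    conv_rhs => rw [← b.sum_repr' (adjL b A c)]
    simp only [map_sum, map_smul, sum_apply, smul_apply,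
      inner_sum, inner_smul_right]
    rfl
  exact (mul_eq_zero.1 h2).resolve_left hA

include b in
theorem eventually_detL_ne_zero (A : E →L[ℝ] E) :
    ∀ᶠ ε : ℝ in 𝓝[≠] 0, detL (A + ε • 1) ≠ 0 := by
  apply nhdsNE_le_cofinite
  have h1 : {ε : ℝ | ¬ detL (A + ε • 1) ≠ 0} ⊆ ((mat b (-A)).charpoly.rootSet ℝ) := by
    intro ε hε
    simp only [ne_eq, not_not, mem_ofPred_eq] at hε
    rw [Polynomial.mem_rootSet]
    refine ⟨(Matrix.charpoly_monic _).ne_zero, ?_⟩
    rw [Polynomial.aeval_def, Polynomial.eval₂_eq_eval_map, Algebra.algebraMap_self,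
      Polynomial.map_id, Matrix.eval_charpoly]
    rw [← hε, detL_eq b]
    congr 1
    rw [mat_add, mat_smul, mat_one]
    have : mat b (-A) = - mat b A := by ext i j; simp [mat_apply]
    rw [this, sub_neg_eq_add, add_comm]
    congr 1
    ext i j
    simp [Matrix.scalar_apply, Matrix.diagonal_apply, Matrix.one_apply]
  exact (Polynomial.rootSet_finite _ _).subset h1

theorem piola (A : E →L[ℝ] E)
    (H : E →L[ℝ] (E →L[ℝ] E)) (hH : ∀ u v, H u v = H v u) (c : E) :
    tr (((fderiv ℝ (adjL b) A).comp H).flip c) = 0 := by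
  have hc : Continuous (fun ε : ℝ => tr (((fderiv ℝ (adjL b) (A + ε • 1)).comp H).flip c)) := by
    simp_rw [tr_eq_sum b]
    apply continuous_finsetSum
    intro i _
    apply Continuous.inner continuous_const
    simp only [ContinuousLinearMap.flip_apply, ContinuousLinearMap.comp_apply]
    have h1 : Continuous (fun ε : ℝ => fderiv ℝ (adjL b) (A + ε • (1 : E →L[ℝ] E))) :=
      ((contDiff_adjL b).continuous_fderiv (by simp)).comp (by fun_prop)
    fun_prop
  have h1 : Tendsto (fun ε : ℝ => tr (((fderiv ℝ (adjL b) (A + ε • 1)).comp H).flip c)) (𝓝[≠] 0)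
      (𝓝 (tr (((fderiv ℝ (adjL b) A).comp H).flip c))) := by
    have := (hc.tendsto 0).mono_left (nhdsWithin_le_nhds (s := {0}ᶜ))
    simpa using this
  have h2 : Tendsto (fun ε : ℝ => tr (((fderiv ℝ (adjL b) (A + ε • 1)).comp H).flip c)) (𝓝[≠] 0)
      (𝓝 0) := by
    apply tendsto_const_nhds.congr'
    filter_upwards [eventually_detL_ne_zero b A] with ε hε
    exact (piola_of_det_ne_zero b _ hε H hH c).symm
  exact tendsto_nhds_unique h1 h2

end Pool.Agent.Lib.MP_c9e52c_gt
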