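import Mathlib
import Pool.Agent.Lib.MP_c9e52c_gt.Adj

set_option autoImplicit false
set_option linter.unusedSectionVars false
open MeasureTheory Set Metric Filter Topology

namespace Pool.Agent.Lib.MP_c9e52c_gt

variable {n : Type*} [Fintype n] [DecidableEq n]
variable {E : Type*} [NormedAddCommGroup E] [InnerProductSpace ℝ E] [FiniteDimensional ℝ E]

/-- Homogeneous extension (degree one) of a unit tangent field of the sphere. -/
structure IsFld (G : E → E) : Prop where
  smooth : ∀ x, x ≠ 0 → ContDiffAt ℝ 2 G x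
  hom : ∀ c : ℝ, 0 < c → ∀ x, G (c • x) = c • G x
  ort : ∀ x, inner ℝ x (G x) = 0
  nrm : ∀ x, ‖G x‖ = ‖x‖

variable {G : E → E}

theorem IsFld.diff (hG : IsFld G) {x : E} (hx : x ≠ 0) : HasFDerivAt G (fderiv ℝ G x) x :=
  ((hG.smooth x hx).differentiableAt (by norm_num)).hasFDerivAt

theorem IsFld.fderiv_smul (hG : IsFld G) {x : E} (hx : x ≠ 0) {c : ℝ} (hc : 0 < c) :
    fderiv ℝ G (c • x) = fderiv ℝ G x := by
  have hcx : c • x ≠ 0 := smul_ne_zero hc.ne' hx
  have h1 : HasFDerivAt (fun y => G (c • y)) ((fderiv ℝ G (c • x)).comp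
      (c • ContinuousLinearMap.id ℝ E)) x :=
    HasFDerivAt.comp x (hG.diff hcx) ((hasFDerivAt_id x).const_smul c)
  have h2 : HasFDerivAt (fun y => G (c • y)) (c • fderiv ℝ G x) x := by
    have h3 : (fun y => G (c • y)) = fun y => c • G y := by
      ext1 y; exact hG.hom c hc y
    rw [h3]
    exact (hG.diff hx).const_smul c
  have h4 := h1.unique h2
  ext v
  have h5 := congrArg (fun T : E →L[ℝ] E => T v) h4
  simp only [ContinuousLinearMap.comp_apply, smul_apply, ContinuousLinearMap.id_apply,
    map_smul] at h5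
  exact smul_right_injective E hc.ne' h5

theorem IsFld.euler (hG : IsFld G) {x : E} (hx : x ≠ 0) : fderiv ℝ G x x = G x := by
  have h1 : HasDerivAt (fun s : ℝ => s • x) x 1 := by
    simpa using (hasDerivAt_id (1 : ℝ)).smul_const x
  have h2 : HasDerivAt (fun s : ℝ => G (s • x)) (fderiv ℝ G x x) 1 := by
    have h0 : HasFDerivAt G (fderiv ℝ G x) ((1 : ℝ) • x) := by simpa using hG.diff hx
    exact h0.comp_hasDerivAt (1 : ℝ) h1
  have h3 : HasDerivAt (fun s : ℝ => G (s • x)) (G x) 1 := by
    have h4 : HasDerivAt (fun s : ℝ => s • G x) (G x) 1 := by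
      simpa using (hasDerivAt_id (1 : ℝ)).smul_const (G x)
    apply h4.congr_of_eventuallyEq
    filter_upwards [lt_mem_nhds (show (0 : ℝ) < 1 by norm_num)] with s hs
    exact hG.hom s hs x
  exact h2.unique h3

theorem IsFld.inner_left (hG : IsFld G) {x : E} (hx : x ≠ 0) (v : E) :
    inner ℝ x (fderiv ℝ G x v) = - inner ℝ v (G x) := by
  have h1 := (hasFDerivAt_id x).inner ℝ (hG.diff hx)
  have h2 : (fun y : E => inner ℝ (id y) (G y)) = fun _ => (0 : ℝ) := by
    ext y; exact hG.ort y
  rw [h2] at h1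
  have h3 := h1.unique (hasFDerivAt_const (0 : ℝ) x)
  have h4 := congrArg (fun T : E →L[ℝ] ℝ => T v) h3
  simp [fderivInnerCLM_apply] at h4
  linarith

theorem IsFld.inner_right (hG : IsFld G) {x : E} (hx : x ≠ 0) (v : E) :
    inner ℝ (G x) (fderiv ℝ G x v) = inner ℝ x v := by
  have h1 := (hG.diff hx).inner ℝ (hG.diff hx)
  have h2 := (hasFDerivAt_id x).inner ℝ (hasFDerivAt_id x)
  have h3 : (fun y : E => inner ℝ (G y) (G y)) = fun y => (inner ℝ (id y) (id y) : ℝ) := by
    ext y; simp [hG.nrm y]
  rw [h3] at h1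
  have h4 := congrArg (fun T : E →L[ℝ] ℝ => T v) (h1.unique h2)
  simp [fderivInnerCLM_apply, real_inner_comm v x] at h4
  rw [real_inner_comm (G x) (fderiv ℝ G x v)] at h4
  rw [real_inner_comm v x]
  linarith

theorem one_clm_apply (v : E) : (1 : E →L[ℝ] E) v = v := rfl

/-- `cos t + sin t DG` -/
noncomputable def MM (G : E → E) (t : ℝ) (x : E) : E →L[ℝ] E :=
  Real.cos t • 1 + Real.sin t • fderiv ℝ G x

/-- `- sin t + cos t DG` -/
noncomputable def MM' (G : E → E) (t : ℝ) (x : E) : E →L[ℝ] E :=
  (-Real.sin t) • 1 + Real.cos t • fderiv ℝ G x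

/-- `cos t x + sin t G` -/
noncomputable def FF (G : E → E) (t : ℝ) (x : E) : E := Real.cos t • x + Real.sin t • G x

/-- `- sin t x + cos t G` -/
noncomputable def ww (G : E → E) (t : ℝ) (x : E) : E := (-Real.sin t) • x + Real.cos t • G x

/-- the vector field `adj(M) w` -/
noncomputable def ZZ (b : OrthonormalBasis n ℝ E) (G : E → E) (t : ℝ) (x : E) : E :=
  adjL b (MM G t x) (ww G t x)

theorem inner_FF_MM (hG : IsFld G) (t : ℝ) {x : E} (hx : x ≠ 0) (v : E) :
    inner ℝ (FF G t x) (MM G t x v) = inner ℝ x v := by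
  unfold FF MM
  simp only [add_apply, smul_apply, one_clm_apply, inner_add_left, inner_add_right,
    inner_smul_left, inner_smul_right, hG.inner_left hx, hG.inner_right hx, conj_trivial]
  rw [real_inner_comm v (G x)]
  have := Real.sin_sq_add_cos_sq t
  linear_combination (inner ℝ x v) * this

theorem inner_FF_ww (hG : IsFld G) (t : ℝ) (x : E) :
    inner ℝ (FF G t x) (ww G t x) = 0 := by
  unfold FF ww
  have h1 := hG.ort x
  have h2 : inner ℝ (G x) x = 0 := by rw [real_inner_comm]; exact h1
  simp only [inner_add_left, inner_add_right, inner_smul_left, inner_smul_right, h1, h2,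
    real_inner_self_eq_norm_sq, hG.nrm x, conj_trivial]
  ring

theorem inner_ZZ (b : OrthonormalBasis n ℝ E) (hG : IsFld G) (t : ℝ) (x : E) :
    inner ℝ x (ZZ b G t x) = 0 := by
  by_cases hx : x = 0
  · simp [hx]
  rw [← inner_FF_MM hG t hx]
  unfold ZZ
  have h1 : (MM G t x) ((adjL b (MM G t x)) (ww G t x)) = detL (MM G t x) • ww G t x := by
    have := congrArg (fun T : E →L[ℝ] E => T (ww G t x)) (mul_adjL b (MM G t x))
    simpa using this
  rw [h1, inner_smul_right, inner_FF_ww hG, mul_zero]

theorem contDiffAt_MM (hG : IsFld G) (t : ℝ) {x : E} (hx : x ≠ 0) :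
    ContDiffAt ℝ 1 (MM G t) x := by
  have h1 : ContDiffAt ℝ 1 (fderiv ℝ G) x := (hG.smooth x hx).fderiv_right (by norm_num)
  unfold MM
  exact contDiffAt_const.add (h1.const_smul _)

theorem contDiffAt_ww (hG : IsFld G) (t : ℝ) {x : E} (hx : x ≠ 0) :
    ContDiffAt ℝ 1 (ww G t) x := by
  have h1 : ContDiffAt ℝ 1 G x := (hG.smooth x hx).of_le (by norm_num)
  unfold ww
  exact (contDiffAt_id.const_smul _).add (h1.const_smul _)

theorem contDiffAt_ZZ (b : OrthonormalBasis n ℝ E) (hG : IsFld G) (t : ℝ) {x : E} (hx : x ≠ 0) :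
    ContDiffAt ℝ 1 (ZZ b G t) x := by
  unfold ZZ
  have h1 : ContDiffAt ℝ 1 (adjL b) (MM G t x) := ((contDiff_adjL b).of_le le_top).contDiffAt
  exact (h1.comp x (contDiffAt_MM hG t hx)).clm_apply (contDiffAt_ww hG t hx)

theorem hasFDerivAt_ww (hG : IsFld G) (t : ℝ) {x : E} (hx : x ≠ 0) :
    HasFDerivAt (ww G t) (MM' G t x) x := by
  unfold ww MM'
  exact ((hasFDerivAt_id x).const_smul _).add ((hG.diff hx).const_smul _)

theorem hasFDerivAt_ZZ (b : OrthonormalBasis n ℝ E) (hG : IsFld G) (t : ℝ) {x : E} (hx : x ≠ 0) :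
    HasFDerivAt (ZZ b G t)
      (((fderiv ℝ (adjL b) (MM G t x)).comp (fderiv ℝ (MM G t) x)).flip (ww G t x) +
        (adjL b (MM G t x)).comp (MM' G t x)) x := by
  have h1 : HasFDerivAt (adjL b) (fderiv ℝ (adjL b) (MM G t x)) (MM G t x) :=
    ((contDiff_adjL b).differentiable (by simp) _).hasFDerivAt
  have h2 : HasFDerivAt (MM G t) (fderiv ℝ (MM G t) x) x :=
    ((contDiffAt_MM hG t hx).differentiableAt (by norm_num)).hasFDerivAt
  have h3 := (h1.comp x h2).clm_apply (hasFDerivAt_ww hG t hx)
  unfold ZZ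
  convert! h3 using 1
  rw [add_comm]
  rfl

theorem tr_add (A B : E →L[ℝ] E) : tr (A + B) = tr A + tr B := by
  rw [tr_eq_sum (stdOrthonormalBasis ℝ E), tr_eq_sum (stdOrthonormalBasis ℝ E),
    tr_eq_sum (stdOrthonormalBasis ℝ E), ← Finset.sum_add_distrib]
  simp [inner_add_right]

theorem symm_fderiv_MM (hG : IsFld G) (t : ℝ) {x : E} (hx : x ≠ 0) (u v : E) :
    fderiv ℝ (MM G t) x u v = fderiv ℝ (MM G t) x v u := by
  have h1 : ContDiffAt ℝ 1 (fderiv ℝ G) x := (hG.smooth x hx).fderiv_right (by norm_num)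
  have h2 : HasFDerivAt (MM G t) (Real.sin t • fderiv ℝ (fderiv ℝ G) x) x := by
    unfold MM
    have := ((h1.differentiableAt (by norm_num)).hasFDerivAt.const_smul (Real.sin t)).const_add
      (Real.cos t • (1 : E →L[ℝ] E))
    exact this
  rw [h2.fderiv]
  have h3 : IsSymmSndFDerivAt ℝ G x := (hG.smooth x hx).isSymmSndFDerivAt (by simp)
  have h4 := h3 u v
  simp only [smul_apply, h4]

theorem tr_fderiv_ZZ (b : OrthonormalBasis n ℝ E) (hG : IsFld G) (t : ℝ) {x : E} (hx : x ≠ 0) :
    tr (fderiv ℝ (ZZ b G t) x) = tr (adjL b (MM G t x) * MM' G t x) := by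
  rw [(hasFDerivAt_ZZ b hG t hx).fderiv, tr_add,
    piola b _ _ (symm_fderiv_MM hG t hx), zero_add]
  rfl

theorem MM_smul (hG : IsFld G) (t : ℝ) {x : E} (hx : x ≠ 0) {c : ℝ} (hc : 0 < c) :
    MM G t (c • x) = MM G t x := by
  unfold MM; rw [hG.fderiv_smul hx hc]

theorem MM'_smul (hG : IsFld G) (t : ℝ) {x : E} (hx : x ≠ 0) {c : ℝ} (hc : 0 < c) :
    MM' G t (c • x) = MM' G t x := by
  unfold MM'; rw [hG.fderiv_smul hx hc]

theorem ww_smul (hG : IsFld G) (t : ℝ) (x : E) {c : ℝ} (hc : 0 < c) :
    ww G t (c • x) = c • ww G t x := by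
  unfold ww
  rw [hG.hom c hc, smul_add, smul_comm, smul_comm c (Real.cos t)]

theorem ZZ_smul (b : OrthonormalBasis n ℝ E) (hG : IsFld G) (t : ℝ) {x : E} (hx : x ≠ 0)
    {c : ℝ} (hc : 0 < c) :
    ZZ b G t (c • x) = c • ZZ b G t x := by
  unfold ZZ
  rw [MM_smul hG t hx hc, ww_smul hG t x hc, map_smul]

section integrals

variable [MeasurableSpace E] [BorelSpace E] [Nontrivial E]

theorem integral_tr (b : OrthonormalBasis n ℝ E) (hG : IsFld G) (t : ℝ) :
    ∫ x : sphere (0 : E) 1, tr (adjL b (MM G t x) * MM' G t x)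
      ∂((volume : Measure E).toSphere) = 0 := by
  have h := integral_sphere_tr (ZZ b G t) (fun x hx => contDiffAt_ZZ b hG t hx)
    (inner_ZZ b hG t) 0 (by
      intro c hc x hx
      have hx0 : x ≠ 0 := by rintro rfl; simp at hx
      have hcx : c • x ≠ 0 := smul_ne_zero hc.ne' hx0
      rw [tr_fderiv_ZZ b hG t hcx, tr_fderiv_ZZ b hG t hx0, MM_smul hG t hx0 hc,
        MM'_smul hG t hx0 hc, pow_zero, one_mul])
  rw [← h]
  apply integral_congr_ae
  refine .of_forall fun x => ?_
  have hx0 : (x : E) ≠ 0 := by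
    intro h0
    have := x.2
    rw [mem_sphere_zero_iff_norm, h0, norm_zero] at this
    exact zero_ne_one this
  exact (tr_fderiv_ZZ b hG t hx0).symm

/-- The vector identity `∫ (M' Z + tr(adj(M) M') w) = 0`. -/
theorem integral_vec (b : OrthonormalBasis n ℝ E) (hG : IsFld G) (t : ℝ) (e : E) :
    ∫ x : sphere (0 : E) 1, (inner ℝ e (MM' G t x (ZZ b G t x)) +
      inner ℝ e (ww G t x) * tr (adjL b (MM G t x) * MM' G t x))
      ∂((volume : Measure E).toSphere) = 0 := by
  have hder : ∀ x, x ≠ 0 → HasFDerivAt (fun x => (inner ℝ e (ww G t x) : ℝ) • ZZ b G t x)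
      ((inner ℝ e (ww G t x) : ℝ) • fderiv ℝ (ZZ b G t) x +
        (((innerSL ℝ e).comp (MM' G t x)).smulRight (ZZ b G t x))) x := by
    intro x hx
    have h1 : HasFDerivAt (fun x => (inner ℝ e (ww G t x) : ℝ))
        ((innerSL ℝ e).comp (MM' G t x)) x :=
      (innerSL ℝ e).hasFDerivAt.comp x (hasFDerivAt_ww hG t hx)
    exact h1.smul ((contDiffAt_ZZ b hG t hx).differentiableAt (by norm_num)).hasFDerivAt
  have htr : ∀ x, x ≠ 0 → tr (fderiv ℝ (fun x => (inner ℝ e (ww G t x) : ℝ) • ZZ b G t x) x) =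
      inner ℝ e (MM' G t x (ZZ b G t x)) +
      inner ℝ e (ww G t x) * tr (adjL b (MM G t x) * MM' G t x) := by
    intro x hx
    rw [(hder x hx).fderiv, tr_add, ← tr_fderiv_ZZ b hG t hx]
    rw [tr_eq_sum b, tr_eq_sum b, tr_eq_sum b, add_comm]
    congr 1
    · conv_rhs => rw [← b.sum_repr' (ZZ b G t x)]
      rw [map_sum, inner_sum]
      apply Finset.sum_congr rfl
      intro i _
      rw [map_smul, inner_smul_right]
      simp only [ContinuousLinearMap.smulRight_apply, ContinuousLinearMap.comp_apply,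
        innerSL_apply_apply, inner_smul_right]
      ring
    · rw [Finset.mul_sum]
      apply Finset.sum_congr rfl
      intro i _
      rw [smul_apply, inner_smul_right]
  have h := integral_sphere_tr (fun x => (inner ℝ e (ww G t x) : ℝ) • ZZ b G t x)
    (fun x hx => by
      have h1 := (contDiffAt_ww hG t hx)
      exact (contDiffAt_const.inner ℝ h1).smul (contDiffAt_ZZ b hG t hx))
    (fun x => by rw [inner_smul_right, inner_ZZ b hG t, mul_zero]) 1 (by
      intro c hc x hx
      have hx0 : x ≠ 0 := by rintro rfl; simp at hx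
      have hcx : c • x ≠ 0 := smul_ne_zero hc.ne' hx0
      rw [htr _ hcx, htr _ hx0, MM_smul hG t hx0 hc, MM'_smul hG t hx0 hc,
        ZZ_smul b hG t hx0 hc, ww_smul hG t x hc, map_smul, inner_smul_right,
        inner_smul_right]
      ring)
  rw [← h]
  apply integral_congr_ae
  refine .of_forall fun x => ?_
  have hx0 : (x : E) ≠ 0 := by
    intro h0
    have := x.2
    rw [mem_sphere_zero_iff_norm, h0, norm_zero] at this
    exact zero_ne_one this
  exact (htr x hx0).symm

end integrals

/-- Differentiation under the integral sign over a compact space. -/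
theorem hasDerivAt_integral_compact {X : Type*} [TopologicalSpace X] [CompactSpace X]
    [MeasurableSpace X] [OpensMeasurableSpace X] (μ : Measure X) [IsFiniteMeasure μ]
    {F : Type*} [NormedAddCommGroup F] [NormedSpace ℝ F] [FiniteDimensional ℝ F]
    (f f' : ℝ → X → F) (hf : Continuous (Function.uncurry f))
    (hf' : Continuous (Function.uncurry f'))
    (hd : ∀ t x, HasDerivAt (fun s => f s x) (f' t x) t) (t : ℝ) :
    HasDerivAt (fun s => ∫ x, f s x ∂μ) (∫ x, f' t x ∂μ) t := by
  have hK : IsCompact (closedBall t 1 ×ˢ (univ : Set X)) :=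
    (isCompact_closedBall t 1).prod isCompact_univ
  obtain ⟨C, hC⟩ := hK.exists_bound_of_continuousOn (f := Function.uncurry f') hf'.continuousOn
  have hfc : ∀ s, Continuous (f s) := fun s => hf.comp (Continuous.prodMk_right s)
  have hfc' : ∀ s, Continuous (f' s) := fun s => hf'.comp (Continuous.prodMk_right s)
  refine (hasDerivAt_integral_of_dominated_loc_of_deriv_le (s := ball t 1) (bound := fun _ => C)
    (ball_mem_nhds t one_pos) ?_ ?_ ?_ ?_ ?_ ?_).2
  · exact .of_forall fun s => (hfc s).aestronglyMeasurable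
  · exact (hfc t).integrable_of_hasCompactSupport (HasCompactSupport.of_compactSpace _)
  · exact (hfc' t).aestronglyMeasurable
  · refine .of_forall fun x s hs => ?_
    exact hC (s, x) ⟨ball_subset_closedBall hs, mem_univ _⟩
  · exact integrable_const _
  · exact .of_forall fun x s _ => hd s x

theorem sphere_ne_zero (x : sphere (0 : E) 1) : (x : E) ≠ 0 := by
  intro h0
  have := x.2
  rw [mem_sphere_zero_iff_norm, h0, norm_zero] at this
  exact zero_ne_one this

theorem sphere_norm (x : sphere (0 : E) 1) : ‖(x : E)‖ = 1 := mem_sphere_zero_iff_norm.1 x.2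

theorem IsFld.continuous_sphere (hG : IsFld G) : Continuous (fun x : sphere (0 : E) 1 => G x) := by
  rw [continuous_iff_continuousAt]
  intro x
  exact ((hG.smooth x (sphere_ne_zero x)).continuousAt).comp continuous_subtype_val.continuousAt

theorem IsFld.continuous_fderiv_sphere (hG : IsFld G) :
    Continuous (fun x : sphere (0 : E) 1 => fderiv ℝ G x) := by
  rw [continuous_iff_continuousAt]
  intro x
  have h1 : ContinuousAt (fderiv ℝ G) (x : E) :=
    (hG.smooth x (sphere_ne_zero x)).continuousAt_fderiv (by norm_num)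
  exact ContinuousAt.comp (f := fun x : sphere (0 : E) 1 => (x : E)) h1
    continuous_subtype_val.continuousAt

theorem continuous_MM (hG : IsFld G) :
    Continuous (fun p : ℝ × sphere (0 : E) 1 => MM G p.1 p.2) := by
  have h1 := hG.continuous_fderiv_sphere.comp (continuous_snd (X := ℝ))
  simp only [Function.comp_def] at h1
  unfold MM
  fun_prop

theorem continuous_MM' (hG : IsFld G) :
    Continuous (fun p : ℝ × sphere (0 : E) 1 => MM' G p.1 p.2) := by
  have h1 := hG.continuous_fderiv_sphere.comp (continuous_snd (X := ℝ))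
  simp only [Function.comp_def] at h1
  unfold MM'
  fun_prop

theorem continuous_ww (hG : IsFld G) :
    Continuous (fun p : ℝ × sphere (0 : E) 1 => ww G p.1 p.2) := by
  have h1 := hG.continuous_sphere.comp (continuous_snd (X := ℝ))
  simp only [Function.comp_def] at h1
  have h2 : Continuous (fun p : ℝ × sphere (0 : E) 1 => (p.2 : E)) :=
    continuous_subtype_val.comp continuous_snd
  unfold ww
  exact ((Real.continuous_sin.comp continuous_fst).neg.smul h2).add
    ((Real.continuous_cos.comp continuous_fst).smul h1)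

theorem continuous_FF (hG : IsFld G) :
    Continuous (fun p : ℝ × sphere (0 : E) 1 => FF G p.1 p.2) := by
  have h1 := hG.continuous_sphere.comp (continuous_snd (X := ℝ))
  simp only [Function.comp_def] at h1
  have h2 : Continuous (fun p : ℝ × sphere (0 : E) 1 => (p.2 : E)) :=
    continuous_subtype_val.comp continuous_snd
  unfold FF
  exact ((Real.continuous_cos.comp continuous_fst).smul h2).add
    ((Real.continuous_sin.comp continuous_fst).smul h1)

theorem continuous_adjL (b : OrthonormalBasis n ℝ E) :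
    Continuous (adjL b : (E →L[ℝ] E) → (E →L[ℝ] E)) := (contDiff_adjL b).continuous

theorem continuous_detL : Continuous (detL : (E →L[ℝ] E) → ℝ) :=
  (contDiff_detL (stdOrthonormalBasis ℝ E)).continuous

theorem continuous_tr : Continuous (tr : (E →L[ℝ] E) → ℝ) := by
  have : (tr : (E →L[ℝ] E) → ℝ) = fun A => ∑ i, inner ℝ (stdOrthonormalBasis ℝ E i)
      (A (stdOrthonormalBasis ℝ E i)) := by
    ext A; exact tr_eq_sum _ A
  rw [this]
  fun_prop

theorem hasDerivAt_MM (t : ℝ) (x : E) : HasDerivAt (fun s => MM G s x) (MM' G t x) t := by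
  unfold MM MM'
  exact ((Real.hasDerivAt_cos t).smul_const (1 : E →L[ℝ] E)).add
    ((Real.hasDerivAt_sin t).smul_const (fderiv ℝ G x))

theorem hasDerivAt_ww (t : ℝ) (x : E) : HasDerivAt (fun s => ww G s x) (- FF G t x) t := by
  unfold ww FF
  have h := ((Real.hasDerivAt_sin t).neg.smul_const x).add
    ((Real.hasDerivAt_cos t).smul_const (G x))
  convert! h using 1
  simp only [neg_add, neg_smul]

section integrals

variable [MeasurableSpace E] [BorelSpace E] [Nontrivial E]

theorem integral_detL_MM (hG : IsFld G) (t : ℝ) :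
    ∫ x : sphere (0 : E) 1, detL (MM G t x) ∂((volume : Measure E).toSphere) =
      ((volume : Measure E).toSphere).real univ := by
  set b := stdOrthonormalBasis ℝ E
  have h1 : ∀ t, HasDerivAt (fun s => ∫ x : sphere (0 : E) 1, detL (MM G s x)
      ∂((volume : Measure E).toSphere)) 0 t := by
    intro t
    rw [← integral_tr b hG t]
    apply hasDerivAt_integral_compact _ (fun s (x : sphere (0 : E) 1) => detL (MM G s x))
      (fun s (x : sphere (0 : E) 1) => tr (adjL b (MM G s x) * MM' G s x))
    · exact continuous_detL.comp (continuous_MM hG)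
    · exact continuous_tr.comp (((continuous_adjL b).comp (continuous_MM hG)).mul
        (continuous_MM' hG))
    · intro s x
      exact hasDerivAt_detL_comp b _ _ s (hasDerivAt_MM (G := G) s (x : E))
  have h2 := is_const_of_deriv_eq_zero (fun s => (h1 s).differentiableAt)
    (fun s => (h1 s).deriv) t 0
  rw [h2]
  have h3 : ∀ x : sphere (0 : E) 1, detL (MM G 0 x) = 1 := by
    intro x
    unfold MM detL
    simp
  simp [h3]

/-- The function whose derivative is computed. -/
noncomputable def HH (G : E → E) (t : ℝ) : E :=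
  ∫ x : sphere (0 : E) 1, detL (MM G t x) • ww G t x ∂((volume : Measure E).toSphere)

theorem hasDerivAt_HH (b : OrthonormalBasis n ℝ E) (hG : IsFld G) (t : ℝ) :
    HasDerivAt (HH G) (- ∫ x : sphere (0 : E) 1,
      (MM' G t x (ZZ b G t x) + detL (MM G t x) • FF G t x)
      ∂((volume : Measure E).toSphere)) t := by
  have hcZ : Continuous (fun p : ℝ × sphere (0 : E) 1 => ZZ b G p.1 p.2) := by
    unfold ZZ
    exact ((continuous_adjL b).comp (continuous_MM hG)).clm_apply (continuous_ww hG)
  have hcT : Continuous (fun p : ℝ × sphere (0 : E) 1 =>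
      tr (adjL b (MM G p.1 p.2) * MM' G p.1 p.2)) :=
    continuous_tr.comp (((continuous_adjL b).comp (continuous_MM hG)).mul (continuous_MM' hG))
  have hcD : Continuous (fun p : ℝ × sphere (0 : E) 1 => detL (MM G p.1 p.2)) :=
    continuous_detL.comp (continuous_MM hG)
  have hint : ∀ f : ℝ × sphere (0 : E) 1 → E, Continuous f →
      Integrable (fun x => f (t, x)) ((volume : Measure E).toSphere) := by
    intro f hf
    exact (hf.comp (Continuous.prodMk_right t)).integrable_of_hasCompactSupport
      (HasCompactSupport.of_compactSpace _)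
  have h1 : HasDerivAt (HH G) (∫ x : sphere (0 : E) 1,
      (tr (adjL b (MM G t x) * MM' G t x) • ww G t x - detL (MM G t x) • FF G t x)
      ∂((volume : Measure E).toSphere)) t := by
    apply hasDerivAt_integral_compact _
      (fun s (x : sphere (0 : E) 1) => detL (MM G s x) • ww G s x)
      (fun s (x : sphere (0 : E) 1) =>
        tr (adjL b (MM G s x) * MM' G s x) • ww G s x - detL (MM G s x) • FF G s x)
    · exact hcD.smul (continuous_ww hG)
    · exact (hcT.smul (continuous_ww hG)).sub (hcD.smul (continuous_FF hG))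
    · intro s x
      have h2 := (hasDerivAt_detL_comp b _ _ s (hasDerivAt_MM (G := G) s (x : E))).smul
        (hasDerivAt_ww (G := G) s (x : E))
      convert! h2 using 1
      rw [smul_neg, sub_eq_add_neg, add_comm]
  have hv : ∫ x : sphere (0 : E) 1, (MM' G t x (ZZ b G t x) +
      tr (adjL b (MM G t x) * MM' G t x) • ww G t x) ∂((volume : Measure E).toSphere) = 0 := by
    have hi := hint (fun p => MM' G p.1 p.2 (ZZ b G p.1 p.2) +
      tr (adjL b (MM G p.1 p.2) * MM' G p.1 p.2) • ww G p.1 p.2)
      (((continuous_MM' hG).clm_apply hcZ).add (hcT.smul (continuous_ww hG)))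
    refine ext_inner_left ℝ fun e => ?_
    rw [inner_zero_right, ← integral_inner hi e, ← integral_vec b hG t e]
    apply integral_congr_ae
    refine .of_forall fun x => ?_
    simp only [inner_add_right, inner_smul_right]
    ring
  convert! h1 using 1
  rw [eq_comm, ← sub_eq_zero, sub_neg_eq_add, ← integral_add
    (hint (fun p => tr (adjL b (MM G p.1 p.2) * MM' G p.1 p.2) • ww G p.1 p.2 -
      detL (MM G p.1 p.2) • FF G p.1 p.2)
      ((hcT.smul (continuous_ww hG)).sub (hcD.smul (continuous_FF hG))))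
    (hint (fun p => MM' G p.1 p.2 (ZZ b G p.1 p.2) + detL (MM G p.1 p.2) • FF G p.1 p.2)
      (((continuous_MM' hG).clm_apply hcZ).add (hcD.smul (continuous_FF hG))))]
  refine Eq.trans ?_ hv
  apply integral_congr_ae
  refine .of_forall fun x => ?_
  simp only
  abel

end integrals

/-- The geodesic curvature vector of the flow lines. -/
noncomputable def kap (G : E → E) (x : E) : E := fderiv ℝ G x (G x) + x

theorem RR_eq (b : OrthonormalBasis n ℝ E) (G : E → E) (t : ℝ) (x : E) :
    MM' G t x (ZZ b G t x) + detL (MM G t x) • FF G t x = adjL b (MM G t x) (kap G x) := by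
  have hcs := Real.sin_sq_add_cos_sq t
  have h1 : ww G t x = MM G t x (G x) - Real.sin t • kap G x := by
    unfold ww MM kap
    simp only [add_apply, smul_apply, one_clm_apply, smul_add]
    module
  have h2 : MM' G t x (G x) = - FF G t x + Real.cos t • kap G x := by
    unfold FF MM' kap
    simp only [add_apply, smul_apply, one_clm_apply, smul_add]
    module
  have hadj : ∀ v, adjL b (MM G t x) (MM G t x v) = detL (MM G t x) • v := by
    intro v
    have := congrArg (fun T : E →L[ℝ] E => T v) (adjL_mul b (MM G t x))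
    simpa using this
  have hadj2 : ∀ v, MM G t x (adjL b (MM G t x) v) = detL (MM G t x) • v := by
    intro v
    have := congrArg (fun T : E →L[ℝ] E => T v) (mul_adjL b (MM G t x))
    simpa using this
  have h3 : ZZ b G t x = detL (MM G t x) • G x - Real.sin t • adjL b (MM G t x) (kap G x) := by
    unfold ZZ
    rw [h1, map_sub, map_smul, hadj]
  have h4 : ∀ v : E, Real.cos t • MM G t x v - Real.sin t • MM' G t x v = v := by
    intro v
    unfold MM MM'
    simp only [add_apply, smul_apply, one_clm_apply, smul_add, smul_smul]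
    have : Real.cos t * Real.cos t + Real.sin t * Real.sin t = 1 := by
      rw [← hcs]; ring
    calc _ = (Real.cos t * Real.cos t + Real.sin t * Real.sin t) • v := by module
      _ = v := by rw [this, one_smul]
  set K := adjL b (MM G t x) (kap G x) with hK
  rw [h3, map_sub, map_smul, map_smul, h2]
  have h5 := h4 K
  rw [hK, hadj2, ← hK] at h5
  calc _ = Real.cos t • detL (MM G t x) • kap G x - Real.sin t • MM' G t x K := by module
    _ = K := h5

theorem detL_smul (c : ℝ) (A : E →L[ℝ] E) :
    detL (c • A) = c ^ (Module.finrank ℝ E) * detL A := by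
  unfold detL
  rw [show ((c • A : E →L[ℝ] E) : E →ₗ[ℝ] E) = c • (A : E →ₗ[ℝ] E) from rfl, LinearMap.det_smul]

section integrals

variable [MeasurableSpace E] [BorelSpace E] [Nontrivial E]

theorem integral_detL (hG : IsFld G) (p : ℕ) (hp : Module.finrank ℝ E = 2 * p) (a c : ℝ) :
    ∫ x : sphere (0 : E) 1, detL (a • 1 + c • fderiv ℝ G x) ∂((volume : Measure E).toSphere) =
      (a ^ 2 + c ^ 2) ^ p * ((volume : Measure E).toSphere).real univ := by
  obtain ⟨t, ht1, ht2⟩ : ∃ t : ℝ, a = Real.sqrt (a ^ 2 + c ^ 2) * Real.cos t ∧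
      c = Real.sqrt (a ^ 2 + c ^ 2) * Real.sin t := by
    have h1 : ‖(⟨a, c⟩ : ℂ)‖ = Real.sqrt (a ^ 2 + c ^ 2) := by
      rw [Complex.norm_def, Complex.normSq_mk, pow_two, pow_two]
    refine ⟨Complex.arg ⟨a, c⟩, ?_, ?_⟩
    · have := Complex.norm_mul_cos_arg (⟨a, c⟩ : ℂ)
      rw [h1] at this
      exact this.symm
    · have := Complex.norm_mul_sin_arg (⟨a, c⟩ : ℂ)
      rw [h1] at this
      exact this.symm
  set ρ := Real.sqrt (a ^ 2 + c ^ 2) with hρ
  have h1 : ∀ x : E, detL (a • 1 + c • fderiv ℝ G x) = (a ^ 2 + c ^ 2) ^ p * detL (MM G t x) := by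
    intro x
    have h2 : (a • 1 + c • fderiv ℝ G x : E →L[ℝ] E) = ρ • MM G t x := by
      unfold MM
      rw [ht1, ht2, smul_add, smul_smul, smul_smul]
    rw [h2, detL_smul, hp, pow_mul, hρ, Real.sq_sqrt (by positivity)]
  simp_rw [h1]
  rw [integral_const_mul, integral_detL_MM hG t]

theorem norm_integral_le (b : OrthonormalBasis n ℝ E) (hG : IsFld G) (p : ℕ)
    (hp : Module.finrank ℝ E = 2 * p) (C : ℝ)
    (hC : ∀ t : ℝ, ∫ x : sphere (0 : E) 1, ‖adjL b (MM G t x) (kap G x)‖
      ∂((volume : Measure E).toSphere) ≤ C) :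
    2 * ‖∫ x : sphere (0 : E) 1, G x ∂((volume : Measure E).toSphere)‖ ≤ C * Real.pi := by
  have hd : ∀ t, HasDerivAt (HH G) (- ∫ x : sphere (0 : E) 1, adjL b (MM G t x) (kap G x)
      ∂((volume : Measure E).toSphere)) t := by
    intro t
    have := hasDerivAt_HH b hG t
    simp_rw [RR_eq] at this
    exact this
  have hb : ∀ t, ‖deriv (HH G) t‖ ≤ C := by
    intro t
    rw [(hd t).deriv, norm_neg]
    exact (norm_integral_le_integral_norm _).trans (hC t)
  have h1 : ‖HH G Real.pi - HH G 0‖ ≤ C * ‖Real.pi - 0‖ :=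
    Convex.norm_image_sub_le_of_norm_deriv_le (fun t _ => (hd t).differentiableAt)
      (fun t _ => hb t) convex_univ (mem_univ _) (mem_univ _)
  have h2 : HH G 0 = ∫ x : sphere (0 : E) 1, G x ∂((volume : Measure E).toSphere) := by
    unfold HH
    apply integral_congr_ae
    refine .of_forall fun x => ?_
    simp [MM, ww, detL]
  have h3 : HH G Real.pi = - ∫ x : sphere (0 : E) 1, G x ∂((volume : Measure E).toSphere) := by
    unfold HH
    rw [← integral_neg]
    apply integral_congr_ae
    refine .of_forall fun x => ?_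
    have h4 : detL (MM G Real.pi x) = 1 := by
      have h5 : MM G Real.pi x = (-1 : ℝ) • 1 := by
        unfold MM
        simp
      rw [h5, detL_smul, hp, pow_mul]
      simp [detL]
    simp only [h4]
    simp [ww]
  rw [h2, h3, sub_zero, Real.norm_eq_abs, abs_of_pos Real.pi_pos] at h1
  have h4 : - (∫ x : sphere (0 : E) 1, G x ∂((volume : Measure E).toSphere)) -
      (∫ x : sphere (0 : E) 1, G x ∂((volume : Measure E).toSphere)) =
      (-2 : ℝ) • (∫ x : sphere (0 : E) 1, G x ∂((volume : Measure E).toSphere)) := by module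
  rw [h4, norm_smul] at h1
  simpa using h1

end integrals

end Pool.Agent.Lib.MP_c9e52c_gt
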