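import Mathlib

set_option autoImplicit false
set_option linter.unusedSectionVars false
open MeasureTheory Set Metric Filter Topology

namespace Pool.Agent.Lib.MP_c9e52c_gt

/-- Hadamard's determinant inequality. -/
theorem hadamard {n : ℕ} (M : Matrix (Fin n) (Fin n) ℝ) :
    |M.det| ≤ ∏ i, Real.sqrt (∑ j, (M i j) ^ 2) := by
  have : Fact (Module.finrank ℝ (EuclideanSpace ℝ (Fin n)) = n) := ⟨by simp⟩
  set b := EuclideanSpace.basisFun (Fin n) ℝ
  set v : Fin n → EuclideanSpace ℝ (Fin n) := fun i => WithLp.toLp 2 (M i)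
  have h1 := (b.toBasis.orientation).abs_volumeForm_apply_le v
  rw [Orientation.volumeForm_robust' _ b v] at h1
  have h2 : b.toBasis.det v = M.det := by
    rw [Module.Basis.det_apply, ← Matrix.det_transpose]
    congr 1
  rw [h2] at h1
  refine h1.trans (le_of_eq ?_)
  apply Finset.prod_congr rfl
  intro i _
  rw [EuclideanSpace.norm_eq]
  simp [v]

theorem amgm6 (y : Fin 6 → ℝ) (hy : ∀ i, 0 ≤ y i) :
    ∏ i, Real.sqrt (y i) ≤ (1 / 6) * ∑ i, (y i) ^ 3 := by
  have h := Real.geom_mean_le_arith_mean_weighted Finset.univ (fun _ : Fin 6 => (1 / 6 : ℝ))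
    (fun i => (y i) ^ 3) (by intros; positivity) (by simp) (by intro i _; have := hy i; positivity)
  rw [← Finset.mul_sum] at h
  refine le_trans (le_of_eq ?_) h
  apply Finset.prod_congr rfl
  intro i _
  rw [Real.sqrt_eq_rpow, ← Real.rpow_natCast, ← Real.rpow_mul (hy i)]
  norm_num

/-- Row-norm form of Hadamard. -/
theorem hadamard_of_le (M : Matrix (Fin 6) (Fin 6) ℝ) (g y : Fin 6 → ℝ)
    (hg : ∀ i, 0 < g i) (hM : ∀ i, ∑ j, (M i j) ^ 2 = g i * y i) :
    |M.det| ≤ Real.sqrt (∏ i, g i) * ∏ i, Real.sqrt (y i) := by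
  have h := hadamard M
  refine h.trans (le_of_eq ?_)
  rw [Real.sqrt_eq_rpow, ← Real.finsetProd_rpow _ _ (fun i _ => (hg i).le), ← Finset.prod_mul_distrib]
  apply Finset.prod_congr rfl
  intro i _
  rw [hM i, Real.sqrt_mul (hg i).le, Real.sqrt_eq_rpow]

theorem calib (A : Matrix (Fin 6) (Fin 6) ℝ) (r : ℝ) (s : Fin 6 → ℝ)
    (hs : ∀ i, ∑ j, (A i j) ^ 2 = s i) :
    (4 / 5) * (1 + r ^ 6 * A.det) + (1 / 10) * ((1 + r • A).det + (1 - r • A).det) ≤
      Real.sqrt (∏ i, (1 + r ^ 2 * s i)) := by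
  have hs0 : ∀ i, 0 ≤ s i := fun i => by rw [← hs i]; positivity
  set g : Fin 6 → ℝ := fun i => 1 + r ^ 2 * s i with hg
  have hg1 : ∀ i, 0 < g i := fun i => by have := hs0 i; simp only [hg]; positivity
  have hdiag : ∀ i, (A i i) ^ 2 ≤ s i := by
    intro i
    rw [← hs i]
    exact Finset.single_le_sum (f := fun j => (A i j) ^ 2) (fun j _ => sq_nonneg _)
      (Finset.mem_univ i)
  set P := Real.sqrt (∏ i, g i) with hP
  have hP0 : 0 ≤ P := Real.sqrt_nonneg _
  set γ : Fin 6 → ℝ := fun i => r * A i i / g i with hγ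
  -- the four determinants
  have e1 : (1 : ℝ) ≤ P * ∏ i, Real.sqrt (1 / g i) := by
    have h := hadamard_of_le (1 : Matrix (Fin 6) (Fin 6) ℝ) g (fun i => 1 / g i) hg1 (by
      intro i
      have h1 : ∑ j, ((1 : Matrix (Fin 6) (Fin 6) ℝ) i j) ^ 2 = 1 := by
        simp [Matrix.one_apply]
      rw [h1, mul_one_div_cancel (hg1 i).ne'])
    simpa using h
  have e2 : r ^ 6 * A.det ≤ P * ∏ i, Real.sqrt (r ^ 2 * s i / g i) := by
    have h := hadamard_of_le (r • A) g (fun i => r ^ 2 * s i / g i) hg1 (by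
      intro i
      simp only [Matrix.smul_apply, smul_eq_mul, mul_pow]
      rw [← Finset.mul_sum, hs i, mul_div_cancel₀ _ (hg1 i).ne'])
    rw [Matrix.det_smul, Fintype.card_fin] at h
    exact (le_abs_self _).trans h
  have hrow : ∀ (ε : ℝ), ε ^ 2 = 1 → ∀ i, ∑ j, ((1 + (ε * r) • A) i j) ^ 2 =
      g i * (1 + 2 * (ε * γ i)) := by
    intro ε hε i
    have h1 : ∀ j, ((1 + (ε * r) • A) i j) ^ 2 =
        ((1 : Matrix (Fin 6) (Fin 6) ℝ) i j) + 2 * (ε * r) *
          (((1 : Matrix (Fin 6) (Fin 6) ℝ) i j) * A i j) + ε ^ 2 * r ^ 2 * (A i j) ^ 2 := by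
      intro j
      simp only [Matrix.add_apply, Matrix.smul_apply, smul_eq_mul, Matrix.one_apply]
      split_ifs <;> ring
    simp_rw [h1]
    rw [Finset.sum_add_distrib, Finset.sum_add_distrib, ← Finset.mul_sum, ← Finset.mul_sum, hs i]
    simp only [Matrix.one_apply, ite_mul, one_mul, zero_mul, Finset.sum_ite_eq,
      Finset.mem_univ, if_true, hε, hγ]
    have := (hg1 i).ne'
    field_simp
    simp only [hg]
    ring
  have hnn : ∀ (ε : ℝ), ε ^ 2 = 1 → ∀ i, 0 ≤ 1 + 2 * (ε * γ i) := by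
    intro ε hε i
    have h1 := hrow ε hε i
    have h2 : 0 ≤ ∑ j, ((1 + (ε * r) • A) i j) ^ 2 := by positivity
    rw [h1] at h2
    exact nonneg_of_mul_nonneg_right h2 (hg1 i)
  have e3 : (1 + r • A).det ≤ P * ∏ i, Real.sqrt (1 + 2 * γ i) := by
    have h := hadamard_of_le (1 + ((1 : ℝ) * r) • A) g (fun i => 1 + 2 * ((1 : ℝ) * γ i)) hg1
      (hrow 1 (by norm_num))
    simp only [one_mul] at h
    exact (le_abs_self _).trans h
  have e4 : (1 - r • A).det ≤ P * ∏ i, Real.sqrt (1 + 2 * (-γ i)) := by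
    have h := hadamard_of_le (1 + ((-1 : ℝ) * r) • A) g (fun i => 1 + 2 * ((-1 : ℝ) * γ i)) hg1
      (hrow (-1) (by norm_num))
    simp only [neg_mul, one_mul, neg_smul, ← sub_eq_add_neg] at h
    refine (le_abs_self _).trans (h.trans (le_of_eq ?_))
    congr 1
  have a1 := amgm6 (fun i => 1 / g i) (fun i => by have := hg1 i; positivity)
  have a2 := amgm6 (fun i => r ^ 2 * s i / g i) (fun i => by
    have := hg1 i; have := hs0 i; positivity)
  have a3 := amgm6 (fun i => 1 + 2 * γ i) (fun i => by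
    have := hnn 1 (by norm_num) i; simpa using this)
  have a4 := amgm6 (fun i => 1 + 2 * (-γ i)) (fun i => by
    have := hnn (-1) (by norm_num) i; simpa using this)
  have key : ∀ i, (1 / g i) ^ 3 + (r ^ 2 * s i / g i) ^ 3 +
      (1 / 8) * ((1 + 2 * γ i) ^ 3 + (1 + 2 * (-γ i)) ^ 3) ≤ 5 / 4 := by
    intro i
    have hgi := hg1 i
    set a := 1 / g i with ha
    set β := r ^ 2 * s i / g i with hβ
    have hab : a + β = 1 := by
      rw [ha, hβ, ← add_div]
      simp only [hg]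
      exact div_self hgi.ne'
    have hγ2 : (γ i) ^ 2 ≤ a * β := by
      simp only [hγ, ha, hβ]
      rw [div_pow, div_mul_div_comm, ← pow_two]
      apply div_le_div_of_nonneg_right _ (by positivity)
      rw [mul_pow, one_mul]
      exact mul_le_mul_of_nonneg_left (hdiag i) (sq_nonneg r)
    have h3 : a ^ 3 + β ^ 3 = 1 - 3 * (a * β) := by
      have : β = 1 - a := by linarith
      rw [this]; ring
    nlinarith [h3, hγ2]
  have hsum : ∑ i, (1 / g i) ^ 3 + ∑ i, (r ^ 2 * s i / g i) ^ 3 +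
      (1 / 8) * (∑ i, (1 + 2 * γ i) ^ 3 + ∑ i, (1 + 2 * (-γ i)) ^ 3) ≤ 6 * (5 / 4) := by
    rw [← Finset.sum_add_distrib, ← Finset.sum_add_distrib, Finset.mul_sum,
      ← Finset.sum_add_distrib]
    calc _ ≤ ∑ _i : Fin 6, (5 / 4 : ℝ) := Finset.sum_le_sum (fun i _ => key i)
      _ = _ := by simp
  have b1 : P * ∏ i, Real.sqrt (1 / g i) ≤ P * ((1 / 6) * ∑ i, (1 / g i) ^ 3) :=
    mul_le_mul_of_nonneg_left a1 hP0
  have b2 := mul_le_mul_of_nonneg_left a2 hP0
  have b3 := mul_le_mul_of_nonneg_left a3 hP0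
  have b4 := mul_le_mul_of_nonneg_left a4 hP0
  have b5 := mul_le_mul_of_nonneg_left hsum hP0
  nlinarith [e1, e2, e3, e4, b1, b2, b3, b4, b5]

theorem cramer_bound (A : Matrix (Fin 6) (Fin 6) ℝ) (k : Fin 6 → ℝ) (r : ℝ) (hr0 : 0 < r)
    (hr1 : r ≤ 1) (s : Fin 6 → ℝ) (hs : ∀ i, ∑ j, (A i j) ^ 2 = s i) (c d : ℝ)
    (hcd : c ^ 2 + d ^ 2 = 1) (i' : Fin 6) :
    (Matrix.cramer (c • 1 + d • A) k i') ^ 2 ≤
      6 * (1 / r) ^ 10 * ((∏ i, (1 + r ^ 2 * s i)) * ∑ i, (k i) ^ 2 / (1 + r ^ 2 * s i)) := by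
  have hs0 : ∀ i, 0 ≤ s i := fun i => by rw [← hs i]; positivity
  set g : Fin 6 → ℝ := fun i => 1 + r ^ 2 * s i with hg
  have hg1 : ∀ i, 0 < g i := fun i => by have := hs0 i; simp only [hg]; positivity
  have hdiag : ∀ i, (A i i) ^ 2 ≤ s i := by
    intro i
    rw [← hs i]
    exact Finset.single_le_sum (f := fun j => (A i j) ^ 2) (fun j _ => sq_nonneg _)
      (Finset.mem_univ i)
  set P := Real.sqrt (∏ i, g i) with hP
  have hP0 : 0 ≤ P := Real.sqrt_nonneg _
  have hP2 : P ^ 2 = ∏ i, g i := Real.sq_sqrt (Finset.prod_nonneg (fun i _ => (hg1 i).le))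
  set M : Matrix (Fin 6) (Fin 6) ℝ := c • 1 + d • A with hM
  have hrow : ∀ i, ∑ j, (M i j) ^ 2 ≤ g i * (1 / r) ^ 2 := by
    intro i
    have h1 : ∀ j, (M i j) ^ 2 = c ^ 2 * ((1 : Matrix (Fin 6) (Fin 6) ℝ) i j) + 2 * (c * d) *
          (((1 : Matrix (Fin 6) (Fin 6) ℝ) i j) * A i j) + d ^ 2 * (A i j) ^ 2 := by
      intro j
      simp only [hM, Matrix.add_apply, Matrix.smul_apply, smul_eq_mul, Matrix.one_apply]
      split_ifs <;> ring
    simp_rw [h1]
    rw [Finset.sum_add_distrib, Finset.sum_add_distrib, ← Finset.mul_sum, ← Finset.mul_sum,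
      ← Finset.mul_sum, hs i]
    simp only [Matrix.one_apply, ite_mul, one_mul, zero_mul, Finset.sum_ite_eq,
      Finset.mem_univ, if_true, mul_one]
    have h2 : g i * (1 / r) ^ 2 = (1 / r) ^ 2 + s i := by
      simp only [hg]; field_simp
    rw [h2]
    have h3 : (1 : ℝ) ≤ (1 / r) ^ 2 := by
      rw [one_div]
      exact one_le_pow₀ ((one_le_inv₀ hr0).2 hr1)
    have h4 := hdiag i
    have h5 : 2 * (c * d) * A i i ≤ d ^ 2 + c ^ 2 * (A i i) ^ 2 := by
      nlinarith [sq_nonneg (d - c * A i i)]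
    have h6 : c ^ 2 * (A i i) ^ 2 ≤ c ^ 2 * s i := mul_le_mul_of_nonneg_left h4 (sq_nonneg c)
    have h7 : c ^ 2 * s i + d ^ 2 * s i = s i := by rw [← add_mul, hcd, one_mul]
    linarith
  have hadj : ∀ i, |M.adjugate i' i| ≤ P * (Real.sqrt (1 / g i) * (1 / r) ^ 5) := by
    intro i
    rw [Matrix.adjugate_apply]
    set y : Fin 6 → ℝ := fun j => (∑ l, ((M.updateRow i (Pi.single i' 1)) j l) ^ 2) / g j with hy
    have h := hadamard_of_le (M.updateRow i (Pi.single i' 1)) g y hg1 (by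
      intro j
      simp only [hy]
      rw [mul_div_cancel₀ _ (hg1 j).ne'])
    refine h.trans (mul_le_mul_of_nonneg_left ?_ hP0)
    rw [← Finset.mul_prod_erase Finset.univ _ (Finset.mem_univ i)]
    have hyi : y i = 1 / g i := by
      simp only [hy, Matrix.updateRow_self]
      congr 1
      simp [Pi.single_apply]
    rw [hyi]
    apply mul_le_mul_of_nonneg_left _ (Real.sqrt_nonneg _)
    calc ∏ j ∈ Finset.univ.erase i, Real.sqrt (y j)
        ≤ ∏ j ∈ Finset.univ.erase i, (1 / r) := by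
          apply Finset.prod_le_prod
          · intro j _; exact Real.sqrt_nonneg _
          · intro j hj
            have hji : j ≠ i := Finset.ne_of_mem_erase hj
            apply Real.sqrt_le_iff.2
            refine ⟨by positivity, ?_⟩
            simp only [hy, Matrix.updateRow_ne hji]
            rw [div_le_iff₀ (hg1 j), mul_comm]
            exact hrow j
      _ = (1 / r) ^ 5 := by simp
  rw [Matrix.cramer_eq_adjugate_mulVec]
  have h1 : |(M.adjugate.mulVec k) i'| ≤ P * (1 / r) ^ 5 * ∑ i, |k i| * Real.sqrt (1 / g i) := by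
    simp only [Matrix.mulVec, dotProduct]
    refine (Finset.abs_sum_le_sum_abs _ _).trans ?_
    rw [Finset.mul_sum]
    apply Finset.sum_le_sum
    intro i _
    rw [abs_mul]
    calc |M.adjugate i' i| * |k i| ≤ P * (Real.sqrt (1 / g i) * (1 / r) ^ 5) * |k i| :=
          mul_le_mul_of_nonneg_right (hadj i) (abs_nonneg _)
      _ = _ := by ring
  have h2 : (∑ i, |k i| * Real.sqrt (1 / g i)) ^ 2 ≤ 6 * ∑ i, (k i) ^ 2 / g i := by
    have h3 := sq_sum_le_card_mul_sum_sq (s := (Finset.univ : Finset (Fin 6)))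
      (f := fun i => |k i| * Real.sqrt (1 / g i))
    refine h3.trans (le_of_eq ?_)
    simp only [Finset.card_univ, Fintype.card_fin]
    norm_num
    apply Finset.sum_congr rfl
    intro i _
    rw [mul_pow, sq_abs, inv_pow, Real.sq_sqrt (hg1 i).le]
    rfl
  calc ((M.adjugate.mulVec k) i') ^ 2 = |(M.adjugate.mulVec k) i'| ^ 2 := (sq_abs _).symm
    _ ≤ (P * (1 / r) ^ 5 * ∑ i, |k i| * Real.sqrt (1 / g i)) ^ 2 :=
        pow_le_pow_left₀ (abs_nonneg _) h1 2
    _ = P ^ 2 * (1 / r) ^ 10 * (∑ i, |k i| * Real.sqrt (1 / g i)) ^ 2 := by ring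
    _ ≤ P ^ 2 * (1 / r) ^ 10 * (6 * ∑ i, (k i) ^ 2 / g i) :=
        mul_le_mul_of_nonneg_left h2 (by positivity)
    _ = _ := by rw [hP2]; ring

/-- Determinant of a diagonal plus rank one matrix. -/
theorem det_diag_add (g u : Fin 6 → ℝ) (hg : ∀ i, 0 < g i) :
    (Matrix.diagonal g + Matrix.vecMulVec u u).det = (∏ i, g i) * (1 + ∑ i, (u i) ^ 2 / g i) := by
  have hprod : (∏ i, g i) ≠ 0 := (Finset.prod_pos (fun i _ => hg i)).ne'
  have hdet : IsUnit (Matrix.diagonal g).det := by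
    rw [Matrix.det_diagonal]
    exact hprod.isUnit
  rw [Matrix.vecMulVec_eq Unit, Matrix.det_add_replicateCol_mul_replicateRow hdet,
    Matrix.det_diagonal]
  congr 1
  have hinv : (Matrix.diagonal g)⁻¹ = Matrix.diagonal (fun i => (g i)⁻¹) := by
    apply Matrix.inv_eq_right_inv
    rw [Matrix.diagonal_mul_diagonal, ← Matrix.diagonal_one]
    congr 1
    ext i
    exact mul_inv_cancel₀ (hg i).ne'
  rw [hinv, Matrix.det_unique]
  simp [Matrix.mul_apply, Matrix.diagonal_apply]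
  apply Finset.sum_congr rfl
  intro i _
  rw [div_eq_mul_inv]
  ring

end Pool.Agent.Lib.MP_c9e52c_gt
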