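import Mathlib
import Pool.Agent.Lib.MP_c9e52c_gt.Adj
import Pool.Agent.Lib.MP_c9e52c_gt.MatIneq

set_option autoImplicit false
set_option linter.unusedSectionVars false
open MeasureTheory Set Metric Filter Topology

namespace Pool.Agent.Lib.MP_c9e52c_gt

variable {E : Type*} [NormedAddCommGroup E] [InnerProductSpace ℝ E] [FiniteDimensional ℝ E]

/-- pointwise data: `T` is the derivative of the degree one extension at the unit vector `x`. -/
structure IsPt (T : E →L[ℝ] E) (x V : E) : Prop where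
  nx : ‖x‖ = 1
  nV : ‖V‖ = 1
  xV : inner ℝ x V = 0
  Tx : T x = V
  h1 : ∀ v, inner ℝ x (T v) = - inner ℝ v V
  h2 : ∀ v, inner ℝ V (T v) = inner ℝ x v

theorem IsPt.exists_basis {T : E →L[ℝ] E} {x V : E} (h : IsPt T x V)
    (hdim : Module.finrank ℝ E = 8) :
    ∃ e : OrthonormalBasis (Fin 2 ⊕ Fin 6) ℝ E, e (Sum.inl 0) = x ∧ e (Sum.inl 1) = V ∧
      ∀ i j, i ≠ j → ∑ k, inner ℝ (e (Sum.inr i)) (T (e (Sum.inr k))) *
        inner ℝ (e (Sum.inr j)) (T (e (Sum.inr k))) = 0 := by
  classical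
  have hVx : inner ℝ V x = 0 := by rw [real_inner_comm]; exact h.xV
  have hxx : inner ℝ x x = 1 := by rw [real_inner_self_eq_norm_sq, h.nx]; norm_num
  have hVV : inner ℝ V V = 1 := by rw [real_inner_self_eq_norm_sq, h.nV]; norm_num
  have horth2 : Orthonormal ℝ ![x, V] := by
    rw [orthonormal_iff_ite]
    intro i j
    fin_cases i <;> fin_cases j <;> simp [h.nx, h.nV, h.xV, hVx]
  set W : Submodule ℝ E := (Submodule.span ℝ (Set.range ![x, V]))ᗮ with hW
  have hmem : ∀ w, w ∈ W ↔ inner ℝ x w = 0 ∧ inner ℝ V w = 0 := by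
    intro w
    rw [hW, Submodule.mem_orthogonal]
    constructor
    · intro hw
      exact ⟨hw x (Submodule.subset_span ⟨0, rfl⟩), hw V (Submodule.subset_span ⟨1, rfl⟩)⟩
    · rintro ⟨h1, h2⟩ u hu
      refine Submodule.span_induction (p := fun u _ => inner ℝ u w = 0) ?_ ?_ ?_ ?_ hu
      · rintro _ ⟨i, rfl⟩
        fin_cases i
        · exact h1
        · exact h2
      · simp
      · intro a b _ _ ha hb
        rw [inner_add_left, ha, hb, add_zero]
      · intro c a _ ha
        rw [inner_smul_left, ha, mul_zero]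
  have hfin : Module.finrank ℝ W = 6 := by
    have h3 := Submodule.finrank_add_finrank_orthogonal (Submodule.span ℝ (Set.range ![x, V]))
    rw [finrank_span_eq_card horth2.linearIndependent, hdim] at h3
    simp at h3
    rw [hW]
    omega
  have hmap : ∀ w ∈ W, (T : E →ₗ[ℝ] E) w ∈ W := by
    intro w hw
    rw [hmem] at hw ⊢
    refine ⟨?_, ?_⟩
    · have := h.h1 w
      rw [real_inner_comm V w, hw.2, neg_zero] at this
      exact this
    · have := h.h2 w
      rw [hw.1] at this
      exact this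
  set A : W →ₗ[ℝ] W := (T : E →ₗ[ℝ] E).restrict hmap with hA
  have hS : (A ∘ₗ LinearMap.adjoint A).IsSymmetric := LinearMap.isSymmetric_self_comp_adjoint A
  set u := hS.eigenvectorBasis hfin with hu
  have hv : Orthonormal ℝ (Sum.elim ![x, V] (fun j => (u j : E))) := by
    rw [orthonormal_iff_ite]
    rintro (i | i) (j | j)
    · have := (orthonormal_iff_ite.1 horth2) i j
      simpa using this
    · have h3 := (hmem _).1 (u j).2
      fin_cases i
      · simpa using h3.1
      · simpa using h3.2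
    · have h3 := (hmem _).1 (u i).2
      fin_cases j
      · simp only [Sum.elim_inr, Sum.elim_inl]
        rw [real_inner_comm]
        simpa using h3.1
      · simp only [Sum.elim_inr, Sum.elim_inl]
        rw [real_inner_comm]
        simpa using h3.2
    · have := (orthonormal_iff_ite.1 u.orthonormal) i j
      simpa using this
  have hspan : ⊤ ≤ Submodule.span ℝ (Set.range (Sum.elim ![x, V] (fun j => (u j : E)))) := by
    rw [hv.linearIndependent.span_eq_top_of_card_eq_finrank' (by simp [hdim])]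
  refine ⟨OrthonormalBasis.mk hv hspan, by simp, by simp, ?_⟩
  intro i j hij
  simp only [OrthonormalBasis.coe_mk, Sum.elim_inr]
  have h4 : ∀ i k, inner ℝ (u i : E) (T (u k : E)) = inner ℝ (LinearMap.adjoint A (u i)) (u k) := by
    intro i k
    rw [LinearMap.adjoint_inner_left]
    rfl
  simp_rw [h4]
  have h5 : ∀ k, inner ℝ (LinearMap.adjoint A (u i)) (u k) * inner ℝ (LinearMap.adjoint A (u j)) (u k)
      = inner ℝ (LinearMap.adjoint A (u i)) (u k) * inner ℝ (u k) (LinearMap.adjoint A (u j)) := by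
    intro k
    rw [real_inner_comm (u k) (LinearMap.adjoint A (u j))]
  simp_rw [h5]
  rw [u.sum_inner_mul_inner, LinearMap.adjoint_inner_left]
  have h6 : A (LinearMap.adjoint A (u j)) = (hS.eigenvalues hfin j : ℝ) • u j := by
    exact hS.apply_eigenvectorBasis hfin j
  rw [h6, inner_smul_right, u.orthonormal.2 hij, mul_zero]

/-- The adjugate does not depend on the orthonormal basis. -/
theorem adjL_eq_adjL {n n' : Type*} [Fintype n] [DecidableEq n] [Fintype n'] [DecidableEq n']
    (b : OrthonormalBasis n ℝ E) (b' : OrthonormalBasis n' ℝ E) (A : E →L[ℝ] E) :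
    adjL b A = adjL b' A := by
  have h0 : ∀ A : E →L[ℝ] E, detL A ≠ 0 → adjL b A = adjL b' A := by
    intro A hA
    have h1 : detL A • adjL b A = detL A • adjL b' A := by
      calc detL A • adjL b A = adjL b A * (detL A • 1) := by simp
        _ = adjL b A * (A * adjL b' A) := by rw [mul_adjL]
        _ = (adjL b A * A) * adjL b' A := by rw [mul_assoc]
        _ = detL A • adjL b' A := by rw [adjL_mul]; simp
    exact smul_right_injective _ hA h1
  have hc1 : Continuous (fun ε : ℝ => adjL b (A + ε • 1)) :=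
    (contDiff_adjL b).continuous.comp (by fun_prop)
  have hc2 : Continuous (fun ε : ℝ => adjL b' (A + ε • 1)) :=
    (contDiff_adjL b').continuous.comp (by fun_prop)
  have h1 : Tendsto (fun ε : ℝ => adjL b (A + ε • 1)) (𝓝[≠] 0) (𝓝 (adjL b A)) := by
    have := (hc1.tendsto 0).mono_left (nhdsWithin_le_nhds (s := {0}ᶜ))
    simpa using this
  have h2 : Tendsto (fun ε : ℝ => adjL b' (A + ε • 1)) (𝓝[≠] 0) (𝓝 (adjL b' A)) := by
    have := (hc2.tendsto 0).mono_left (nhdsWithin_le_nhds (s := {0}ᶜ))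
    simpa using this
  have h3 : Tendsto (fun ε : ℝ => adjL b (A + ε • 1)) (𝓝[≠] 0) (𝓝 (adjL b' A)) := by
    apply h2.congr'
    filter_upwards [eventually_detL_ne_zero b A] with ε hε
    exact (h0 _ hε).symm
  exact tendsto_nhds_unique h1 h3

theorem mat_adjoint {n : Type*} [Fintype n] [DecidableEq n] (b : OrthonormalBasis n ℝ E)
    (A : E →L[ℝ] E) : mat b (ContinuousLinearMap.adjoint A) = (mat b A).transpose := by
  ext i j
  rw [Matrix.transpose_apply, mat_apply, mat_apply, ContinuousLinearMap.adjoint_inner_right,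
    real_inner_comm]

theorem one_add_sum_le_prod (f : Fin 6 → ℝ) (hf : ∀ i, 0 ≤ f i) :
    1 + ∑ i, f i ≤ ∏ i, (1 + f i) := by
  have h : ∀ s : Finset (Fin 6), 1 + ∑ i ∈ s, f i ≤ ∏ i ∈ s, (1 + f i) := by
    intro s
    induction s using Finset.induction_on with
    | empty => simp
    | insert a s ha ih =>
      rw [Finset.sum_insert ha, Finset.prod_insert ha]
      have h1 : 0 ≤ ∑ i ∈ s, f i := Finset.sum_nonneg (fun i _ => hf i)
      have h2 := hf a
      nlinarith [mul_nonneg h2 h1]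
  exact h Finset.univ

theorem mul_sum_div_ge (g u : Fin 6 → ℝ) (hg : ∀ i, 1 ≤ g i) (hu : ∀ i, 0 ≤ u i) :
    ∑ i, u i ≤ (∏ i, g i) * ∑ i, u i / g i := by
  rw [Finset.mul_sum]
  apply Finset.sum_le_sum
  intro i _
  have hgi : 0 < g i := lt_of_lt_of_le one_pos (hg i)
  rw [← Finset.mul_prod_erase Finset.univ _ (Finset.mem_univ i)]
  have h1 : 1 ≤ ∏ j ∈ Finset.univ.erase i, g j := by
    calc (1 : ℝ) = ∏ j ∈ Finset.univ.erase i, (1 : ℝ) := by simp
      _ ≤ _ := Finset.prod_le_prod (fun j _ => zero_le_one) (fun j _ => hg j)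
  have h2 : g i * (∏ j ∈ Finset.univ.erase i, g j) * (u i / g i) =
      (∏ j ∈ Finset.univ.erase i, g j) * u i := by
    field_simp
  rw [h2]
  nlinarith [hu i]

/-- Hilbert-Schmidt norm squared. -/
noncomputable def hs2 (A : E →L[ℝ] E) : ℝ := tr (ContinuousLinearMap.adjoint A * A)

theorem hs2_eq_sum {n : Type*} [Fintype n] (b : OrthonormalBasis n ℝ E) (A : E →L[ℝ] E) :
    hs2 A = ∑ i, ‖A (b i)‖ ^ 2 := by
  unfold hs2
  rw [tr_eq_sum b]
  apply Finset.sum_congr rfl
  intro i _
  have : (ContinuousLinearMap.adjoint A * A) (b i) = ContinuousLinearMap.adjoint A (A (b i)) := rfl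
  rw [this, ContinuousLinearMap.adjoint_inner_right, real_inner_self_eq_norm_sq]

/-- The orthogonal projection along the unit vector `x`. -/
noncomputable def prj (x : E) : E →L[ℝ] E := 1 - (innerSL ℝ x).smulRight x

theorem prj_apply (x v : E) : prj x v = v - (inner ℝ x v : ℝ) • x := by
  unfold prj
  rfl

theorem det_updateCol_inl (P : Matrix (Fin 2) (Fin 2) ℝ) (Q : Matrix (Fin 6) (Fin 2) ℝ)
    (M : Matrix (Fin 6) (Fin 6) ℝ) (k : Fin 6 → ℝ) (i : Fin 2) :
    ((Matrix.fromBlocks P 0 Q M).updateCol (Sum.inl i) (Sum.elim (0 : Fin 2 → ℝ) k)).det = 0 := by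
  have h1 : (Matrix.fromBlocks P 0 Q M).updateCol (Sum.inl i) (Sum.elim (0 : Fin 2 → ℝ) k) =
      Matrix.fromBlocks (P.updateCol i 0) 0 (Q.updateCol i k) M := by
    ext a b
    rcases a with a | a <;> rcases b with b | b
    · by_cases hb : b = i
      · subst hb; simp
      · rw [Matrix.updateCol_ne (by simpa using hb)]
        simp [Matrix.updateCol_ne hb]
    · rw [Matrix.updateCol_ne (by simp)]
      simp
    · by_cases hb : b = i
      · subst hb; simp
      · rw [Matrix.updateCol_ne (by simpa using hb)]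
        simp [Matrix.updateCol_ne hb]
    · rw [Matrix.updateCol_ne (by simp)]
      simp
  rw [h1, Matrix.det_fromBlocks_zero₁₂, Matrix.det_eq_zero_of_column_eq_zero i (by simp), zero_mul]

theorem det_updateCol_inr (P : Matrix (Fin 2) (Fin 2) ℝ) (Q : Matrix (Fin 6) (Fin 2) ℝ)
    (M : Matrix (Fin 6) (Fin 6) ℝ) (k : Fin 6 → ℝ) (i : Fin 6) :
    ((Matrix.fromBlocks P 0 Q M).updateCol (Sum.inr i) (Sum.elim (0 : Fin 2 → ℝ) k)).det =
      P.det * (M.updateCol i k).det := by
  have h1 : (Matrix.fromBlocks P 0 Q M).updateCol (Sum.inr i) (Sum.elim (0 : Fin 2 → ℝ) k) =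
      Matrix.fromBlocks P 0 Q (M.updateCol i k) := by
    ext a b
    rcases a with a | a <;> rcases b with b | b
    · rw [Matrix.updateCol_ne (by simp)]
      simp
    · by_cases hb : b = i
      · subst hb; simp
      · rw [Matrix.updateCol_ne (by simpa using hb)]
        simp
    · rw [Matrix.updateCol_ne (by simp)]
      simp
    · by_cases hb : b = i
      · subst hb; simp
      · rw [Matrix.updateCol_ne (by simpa using hb)]
        simp [Matrix.updateCol_ne hb]
  rw [h1, Matrix.det_fromBlocks_zero₁₂]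

section point

variable {T : E →L[ℝ] E} {x V : E} (h : IsPt T x V)
  (e : OrthonormalBasis (Fin 2 ⊕ Fin 6) ℝ E) (he0 : e (Sum.inl 0) = x) (he1 : e (Sum.inl 1) = V)

include h he0 he1

theorem mat_T : mat e T = Matrix.fromBlocks !![0, -1; 1, 0] 0
    (Matrix.of fun i j => if j = 1 then inner ℝ (e (Sum.inr i)) (T V) else 0)
    (Matrix.of fun i j => inner ℝ (e (Sum.inr i)) (T (e (Sum.inr j)))) := by
  have horth := orthonormal_iff_ite.1 e.orthonormal
  ext i j
  rw [mat_apply]
  rcases i with i | i <;> rcases j with j | j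
  · fin_cases i <;> fin_cases j
    · simp [he0, h.Tx, h.xV]
    · simp [he0, he1, h.h1, h.nV]
    · simp [he0, he1, h.Tx, h.nV]
    · simp [he1, h.h2, h.xV]
  · have hx : inner ℝ x (e (Sum.inr j)) = 0 := by rw [← he0, horth]; simp
    have hV : inner ℝ (e (Sum.inr j)) V = 0 := by rw [← he1, horth]; simp
    fin_cases i
    · simp [he0, h.h1, hV]
    · simp [he1, h.h2, hx]
  · have hV : inner ℝ (e (Sum.inr i)) V = 0 := by rw [← he1, horth]; simp
    fin_cases j
    · simp [he0, h.Tx, hV]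
    · simp [he1]
  · simp

theorem mat_comb (a c : ℝ) : mat e (a • 1 + c • T) = Matrix.fromBlocks
    (a • 1 + c • !![0, -1; 1, 0]) 0
    (c • (Matrix.of fun i j => if j = 1 then inner ℝ (e (Sum.inr i)) (T V) else 0))
    (a • 1 + c • (Matrix.of fun i j => inner ℝ (e (Sum.inr i)) (T (e (Sum.inr j))))) := by
  rw [mat_add, mat_smul, mat_smul, mat_one, mat_T h e he0 he1, ← Matrix.fromBlocks_one,
    Matrix.fromBlocks_smul, Matrix.fromBlocks_smul, Matrix.fromBlocks_add]
  simp

theorem detL_comb (a c : ℝ) : detL (a • 1 + c • T) = (a ^ 2 + c ^ 2) *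
    (a • 1 + c • (Matrix.of fun i j => inner ℝ (e (Sum.inr i)) (T (e (Sum.inr j)))) :
      Matrix (Fin 6) (Fin 6) ℝ).det := by
  rw [detL_eq e, mat_comb h e he0 he1, Matrix.det_fromBlocks_zero₁₂]
  congr 1
  rw [Matrix.det_fin_two]
  simp
  ring

theorem mat_B (r : ℝ) : mat e (r • (prj x * T * prj x)) = Matrix.fromBlocks 0 0
    (Matrix.of fun i j => if j = 1 then r * inner ℝ (e (Sum.inr i)) (T V) else 0)
    (r • Matrix.of fun i j => inner ℝ (e (Sum.inr i)) (T (e (Sum.inr j)))) := by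
  have horth := orthonormal_iff_ite.1 e.orthonormal
  have hp0 : prj x x = 0 := by
    rw [prj_apply, real_inner_self_eq_norm_sq, h.nx]; simp
  have hpV : prj x V = V := by
    rw [prj_apply, h.xV]; simp
  have hpu : ∀ j, prj x (e (Sum.inr j)) = e (Sum.inr j) := by
    intro j
    have hx : inner ℝ x (e (Sum.inr j)) = 0 := by rw [← he0, horth]; simp
    rw [prj_apply, hx]; simp
  have hself : ∀ u v, inner ℝ u (prj x v) = inner ℝ (prj x u) v := by
    intro u v
    rw [prj_apply, prj_apply, inner_sub_left, inner_sub_right, inner_smul_left, inner_smul_right,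
      conj_trivial, real_inner_comm u x]
    ring
  have hent : ∀ u v, inner ℝ u ((r • (prj x * T * prj x)) v) =
      r * inner ℝ (prj x u) (T (prj x v)) := by
    intro u v
    rw [← hself, smul_apply, inner_smul_right]
    rfl
  ext i j
  rw [mat_apply, hent]
  rcases i with i | i <;> rcases j with j | j
  · fin_cases i <;> fin_cases j
    · simp [he0, hp0]
    · simp [he0, hp0]
    · simp [he0, he1, hp0]
    · simp [he1, hpV, h.h2, h.xV]
  · have hx : inner ℝ x (e (Sum.inr j)) = 0 := by rw [← he0, horth]; simp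
    fin_cases i
    · simp [he0, hp0]
    · simp [he1, hpV, hpu, h.h2, hx]
  · fin_cases j
    · simp [he0, hp0]
    · simp [he1, hpu, hpV]
  · simp [hpu]

/-- The value of the Sasaki volume density squared in the adapted basis. -/
theorem detL_vol (r : ℝ)
    (horth : ∀ i j, i ≠ j → ∑ k, inner ℝ (e (Sum.inr i)) (T (e (Sum.inr k))) *
        inner ℝ (e (Sum.inr j)) (T (e (Sum.inr k))) = 0) :
    detL (1 + ContinuousLinearMap.adjoint (r • (prj x * T * prj x)) *
      (r • (prj x * T * prj x))) =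
    (∏ i, (1 + r ^ 2 * ∑ j, (inner ℝ (e (Sum.inr i)) (T (e (Sum.inr j)))) ^ 2)) *
      (1 + ∑ i, (r * inner ℝ (e (Sum.inr i)) (T V)) ^ 2 /
        (1 + r ^ 2 * ∑ j, (inner ℝ (e (Sum.inr i)) (T (e (Sum.inr j)))) ^ 2)) := by
  rw [detL_eq e, mat_add, mat_one, mat_mul, mat_adjoint, Matrix.det_one_add_mul_comm,
    mat_B h e he0 he1, Matrix.fromBlocks_transpose, Matrix.fromBlocks_multiply,
    ← Matrix.fromBlocks_one, Matrix.fromBlocks_add, ← det_diag_add]
  · simp only [Matrix.zero_mul, Matrix.mul_zero, Matrix.transpose_zero, add_zero]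
    rw [Matrix.det_fromBlocks_zero₁₂, Matrix.det_one, one_mul]
    congr 1
    ext i j
    simp only [Matrix.add_apply, Matrix.mul_apply, Matrix.transpose_apply, Matrix.of_apply,
      Matrix.smul_apply, smul_eq_mul, Fin.sum_univ_two, Matrix.vecMulVec_apply,
      Matrix.diagonal_apply, Matrix.one_apply]
    by_cases hij : i = j
    · subst hij
      simp only [if_true]
      have : ∀ k, r * inner ℝ (e (Sum.inr i)) (T (e (Sum.inr k))) *
          (r * inner ℝ (e (Sum.inr i)) (T (e (Sum.inr k)))) =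
          r ^ 2 * (inner ℝ (e (Sum.inr i)) (T (e (Sum.inr k)))) ^ 2 := by intro k; ring
      simp_rw [this]
      rw [← Finset.mul_sum]
      norm_num
      ring
    · simp only [hij, if_false]
      have : ∀ k, r * inner ℝ (e (Sum.inr i)) (T (e (Sum.inr k))) *
          (r * inner ℝ (e (Sum.inr j)) (T (e (Sum.inr k)))) =
          r ^ 2 * (inner ℝ (e (Sum.inr i)) (T (e (Sum.inr k))) *
            inner ℝ (e (Sum.inr j)) (T (e (Sum.inr k)))) := by intro k; ring
      simp_rw [this]
      rw [← Finset.mul_sum, horth i j hij]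
      norm_num
  · intro i
    positivity

/-- Coordinates of `adj(c + d T) κ`. -/
theorem adj_coord (c d : ℝ) (hcd : c ^ 2 + d ^ 2 = 1) :
    ‖adjL e (c • 1 + d • T) (T V + x)‖ ^ 2 = ∑ i, (Matrix.cramer (c • 1 + d • (Matrix.of
      fun i j => inner ℝ (e (Sum.inr i)) (T (e (Sum.inr j)))) : Matrix (Fin 6) (Fin 6) ℝ)
      (fun i => inner ℝ (e (Sum.inr i)) (T V)) i) ^ 2 := by
  have horth := orthonormal_iff_ite.1 e.orthonormal
  set A : Matrix (Fin 6) (Fin 6) ℝ :=
    Matrix.of fun i j => inner ℝ (e (Sum.inr i)) (T (e (Sum.inr j))) with hA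
  set k : Fin 6 → ℝ := fun i => inner ℝ (e (Sum.inr i)) (T V) with hk
  have hxx : inner ℝ x x = 1 := by rw [real_inner_self_eq_norm_sq, h.nx]; norm_num
  have hVV : inner ℝ V V = 1 := by rw [real_inner_self_eq_norm_sq, h.nV]; norm_num
  have hVx : inner ℝ V x = 0 := by rw [real_inner_comm]; exact h.xV
  have hcoord : ∀ j, inner ℝ (e j) (T V + x) = Sum.elim (0 : Fin 2 → ℝ) k j := by
    intro j
    rcases j with j | j
    · fin_cases j
      · simp [he0, inner_add_right, h.h1, h.nV, h.nx]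
      · simp [he1, inner_add_right, h.h2, h.xV, hVx]
    · have hx : inner ℝ (e (Sum.inr j)) x = 0 := by rw [← he0, horth]; simp
      simp [inner_add_right, hx, hk]
  have hent : ∀ i, inner ℝ (e i) (adjL e (c • 1 + d • T) (T V + x)) =
      ((mat e (c • 1 + d • T)).updateCol i (Sum.elim (0 : Fin 2 → ℝ) k)).det := by
    intro i
    rw [← Matrix.cramer_apply, Matrix.cramer_eq_adjugate_mulVec]
    unfold adjL
    rw [clm_apply, inner_sum]
    simp only [inner_smul_right, horth, mul_ite, mul_one, mul_zero, Finset.sum_ite_eq,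
      Finset.mem_univ, if_true, Matrix.mulVec, dotProduct, hcoord]
  have hinl : ∀ i, inner ℝ (e (Sum.inl i)) (adjL e (c • 1 + d • T) (T V + x)) = 0 := by
    intro i
    rw [hent, mat_comb h e he0 he1]
    exact det_updateCol_inl _ _ _ _ _
  have hinr : ∀ i, inner ℝ (e (Sum.inr i)) (adjL e (c • 1 + d • T) (T V + x)) =
      Matrix.cramer (c • 1 + d • A) k i := by
    intro i
    rw [hent, mat_comb h e he0 he1, det_updateCol_inr, Matrix.cramer_apply, ← hA]
    have h1 : (c • 1 + d • !![0, -1; 1, 0] : Matrix (Fin 2) (Fin 2) ℝ).det = 1 := by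
      rw [Matrix.det_fin_two]
      simp
      linear_combination hcd
    rw [h1, one_mul]
  rw [← e.sum_sq_norm_inner_right]
  rw [Fintype.sum_sum_type]
  simp only [hinl, hinr]
  simp

end point

/-- The pointwise inequalities. -/
theorem pointwise {T : E →L[ℝ] E} {x V : E} (h : IsPt T x V) (hdim : Module.finrank ℝ E = 8)
    (r : ℝ) (hr0 : 0 < r) (hr1 : r ≤ 1) (W p : ℝ)
    (hW : W = Real.sqrt (detL (1 + ContinuousLinearMap.adjoint (r • (prj x * T * prj x)) *
      (r • (prj x * T * prj x)))))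
    (hp : p = (4 / 5) * (1 + r ^ 6 * detL T) +
      (1 / 10) * ((detL (1 + r • T) + detL (1 + (-r) • T)) / (1 + r ^ 2))) :
    p ≤ W ∧ 1 ≤ W ∧ 1 - r ^ 2 + r ^ 2 * hs2 (T - (innerSL ℝ x).smulRight V) ≤ W ^ 2 ∧
    ∀ {n : Type} [Fintype n] [DecidableEq n] (b : OrthonormalBasis n ℝ E) (c d : ℝ),
      c ^ 2 + d ^ 2 = 1 →
      ‖adjL b (c • 1 + d • T) (T V + x)‖ ^ 2 ≤ 72 * (1 / r) ^ 12 * (W * (W - p)) := by
  obtain ⟨e, he0, he1, horth⟩ := h.exists_basis hdim
  have hon := orthonormal_iff_ite.1 e.orthonormal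
  set A : Matrix (Fin 6) (Fin 6) ℝ :=
    Matrix.of fun i j => inner ℝ (e (Sum.inr i)) (T (e (Sum.inr j))) with hA
  set k : Fin 6 → ℝ := fun i => inner ℝ (e (Sum.inr i)) (T V) with hk
  set s : Fin 6 → ℝ := fun i => ∑ j, (A i j) ^ 2 with hs
  have hs0 : ∀ i, 0 ≤ s i := fun i => by simp only [hs]; positivity
  set g : Fin 6 → ℝ := fun i => 1 + r ^ 2 * s i with hg
  have hg1 : ∀ i, 1 ≤ g i := fun i => by
    have := hs0 i; simp only [hg]; nlinarith [mul_nonneg (sq_nonneg r) this]
  have hg0 : ∀ i, 0 < g i := fun i => lt_of_lt_of_le one_pos (hg1 i)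
  set Γ := ∏ i, g i with hΓ
  set q := ∑ i, (r * k i) ^ 2 / g i with hq
  have hq0 : 0 ≤ q := Finset.sum_nonneg (fun i _ => by have := hg0 i; positivity)
  have hvol := detL_vol h e he0 he1 r horth
  have hW2 : W ^ 2 = Γ * (1 + q) := by
    rw [hW, hvol, Real.sq_sqrt]
    · rfl
    · apply mul_nonneg
      · exact Finset.prod_nonneg (fun i _ => (hg0 i).le)
      · exact add_nonneg zero_le_one hq0
  have hW0 : 0 ≤ W := by rw [hW]; exact Real.sqrt_nonneg _
  have hΓ1 : 1 + ∑ i, r ^ 2 * s i ≤ Γ := by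
    apply one_add_sum_le_prod (fun i => r ^ 2 * s i)
    intro i
    have := hs0 i
    positivity
  have hΓ1' : 1 ≤ Γ := by
    have : 0 ≤ ∑ i, r ^ 2 * s i := Finset.sum_nonneg (fun i _ => by have := hs0 i; positivity)
    linarith
  have hΓq : ∑ i, (r * k i) ^ 2 ≤ Γ * q := mul_sum_div_ge g (fun i => (r * k i) ^ 2) hg1
    (fun i => sq_nonneg _)
  have hsΓ : Real.sqrt Γ ≤ W := by
    rw [← Real.sqrt_sq hW0]
    apply Real.sqrt_le_sqrt
    rw [hW2]
    nlinarith [mul_nonneg (zero_le_one.trans hΓ1') hq0]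
  have hsΓ1 : 1 ≤ Real.sqrt Γ := by
    rw [← Real.sqrt_one]; exact Real.sqrt_le_sqrt hΓ1'
  have hpA : p = (4 / 5) * (1 + r ^ 6 * A.det) + (1 / 10) * ((1 + r • A).det + (1 - r • A).det) := by
    have h1 := detL_comb h e he0 he1 0 1
    have h2 := detL_comb h e he0 he1 1 r
    have h3 := detL_comb h e he0 he1 1 (-r)
    rw [← hA] at h1 h2 h3
    simp only [zero_smul, one_smul, zero_add] at h1 h2 h3
    rw [hp, h1, h2, h3]
    have hr2 : (1 : ℝ) + r ^ 2 ≠ 0 := by positivity
    have h4 : (1 + -r • A) = (1 - r • A) := by rw [neg_smul, sub_eq_add_neg]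
    rw [h4]
    field_simp
    ring
  have hpΓ : p ≤ Real.sqrt Γ := by
    rw [hpA]
    exact calib A r s (fun i => rfl)
  refine ⟨hpΓ.trans hsΓ, hsΓ1.trans hsΓ, ?_, ?_⟩
  · -- Hilbert-Schmidt norm
    have hVx : inner ℝ V x = 0 := by rw [real_inner_comm]; exact h.xV
    have hc0 : (T - (innerSL ℝ x).smulRight V) x = 0 := by
      rw [sub_apply, ContinuousLinearMap.smulRight_apply, innerSL_apply_apply,
        real_inner_self_eq_norm_sq, h.nx, h.Tx]
      simp
    have hc1 : (T - (innerSL ℝ x).smulRight V) V = T V := by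
      rw [sub_apply, ContinuousLinearMap.smulRight_apply, innerSL_apply_apply, h.xV]
      simp
    have hcj : ∀ j, (T - (innerSL ℝ x).smulRight V) (e (Sum.inr j)) = T (e (Sum.inr j)) := by
      intro j
      have hx : inner ℝ x (e (Sum.inr j)) = 0 := by rw [← he0, hon]; simp
      rw [sub_apply, ContinuousLinearMap.smulRight_apply, innerSL_apply_apply, hx]
      simp
    have hnV : ‖T V‖ ^ 2 = 1 + ∑ i, (k i) ^ 2 := by
      rw [← e.sum_sq_norm_inner_right, Fintype.sum_sum_type]
      simp only [Fin.sum_univ_two, he0, he1, h.h1, h.h2, h.xV, Real.norm_eq_abs, sq_abs]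
      rw [real_inner_self_eq_norm_sq, h.nV]
      norm_num
      rfl
    have hnu : ∀ j, ‖T (e (Sum.inr j))‖ ^ 2 = ∑ i, (A i j) ^ 2 := by
      intro j
      have hx : inner ℝ x (e (Sum.inr j)) = 0 := by rw [← he0, hon]; simp
      have hV : inner ℝ (e (Sum.inr j)) V = 0 := by rw [← he1, hon]; simp
      rw [← e.sum_sq_norm_inner_right, Fintype.sum_sum_type]
      simp only [Fin.sum_univ_two, he0, he1, h.h1, h.h2, hx, hV, Real.norm_eq_abs, sq_abs]
      norm_num
      rfl
    have hhs : hs2 (T - (innerSL ℝ x).smulRight V) = 1 + ∑ i, (k i) ^ 2 + ∑ i, s i := by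
      rw [hs2_eq_sum e, Fintype.sum_sum_type]
      simp only [Fin.sum_univ_two, he0, he1, hc0, hc1, hcj, hnV, hnu]
      rw [Finset.sum_comm]
      norm_num
      rfl
    rw [hhs, hW2]
    have h1 : ∑ i, (r * k i) ^ 2 = r ^ 2 * ∑ i, (k i) ^ 2 := by
      rw [Finset.mul_sum]
      apply Finset.sum_congr rfl
      intro i _
      ring
    rw [h1] at hΓq
    rw [← Finset.mul_sum] at hΓ1
    nlinarith [hΓq, hΓ1]
  · intro n _ _ b c d hcd
    rw [adjL_eq_adjL b e, adj_coord h e he0 he1 c d hcd]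
    have h1 : ∀ i', (Matrix.cramer (c • 1 + d • A) k i') ^ 2 ≤
        6 * (1 / r) ^ 10 * (Γ * ∑ i, (k i) ^ 2 / g i) := by
      intro i'
      exact cramer_bound A k r hr0 hr1 s (fun i => rfl) c d hcd i'
    have h2 : ∑ i, (k i) ^ 2 / g i = (1 / r) ^ 2 * q := by
      rw [hq, Finset.mul_sum]
      apply Finset.sum_congr rfl
      intro i _
      have := hg0 i
      field_simp
    have h3 : ∑ i', (Matrix.cramer (c • 1 + d • A) k i') ^ 2 ≤
        36 * (1 / r) ^ 12 * (Γ * q) := by
      calc _ ≤ ∑ _i' : Fin 6, 6 * (1 / r) ^ 10 * (Γ * ∑ i, (k i) ^ 2 / g i) :=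
            Finset.sum_le_sum (fun i _ => h1 i)
        _ = 36 * (1 / r) ^ 12 * (Γ * q) := by
            rw [h2]
            simp only [Finset.sum_const, Finset.card_univ, Fintype.card_fin]
            ring
    refine h3.trans ?_
    have h4 : Γ * q = (W - Real.sqrt Γ) * (W + Real.sqrt Γ) := by
      have : Real.sqrt Γ ^ 2 = Γ := Real.sq_sqrt (zero_le_one.trans hΓ1')
      nlinarith [hW2, this]
    have h5 : (W - Real.sqrt Γ) * (W + Real.sqrt Γ) ≤ 2 * (W * (W - p)) := by
      nlinarith [hpΓ, hsΓ, hW0]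
    have h6 : 0 ≤ (1 / r) ^ 12 := by positivity
    calc 36 * (1 / r) ^ 12 * (Γ * q) ≤ 36 * (1 / r) ^ 12 * (2 * (W * (W - p))) :=
          mul_le_mul_of_nonneg_left (h4 ▸ h5) (by positivity)
      _ = _ := by ring

end Pool.Agent.Lib.MP_c9e52c_gt
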