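import Mathlib
import Pool.Agent.Lib.MP_c9e52c_gt.LinAlg
import Pool.Agent.Lib.MP_c9e52c_gt.Homot

set_option autoImplicit false
set_option linter.unusedSectionVars false
open MeasureTheory Set Metric Filter Topology ProbabilityTheory

namespace Pool.Agent.Lib.MP_c9e52c_gt

variable {E : Type*} [NormedAddCommGroup E] [InnerProductSpace ℝ E] [FiniteDimensional ℝ E]
  [MeasurableSpace E] [BorelSpace E]

/-- The Gaussian weight. -/
noncomputable def gw (E : Type*) [NormedAddCommGroup E] [InnerProductSpace ℝ E] (ρ : ℝ) : ℝ :=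
  ((2 * Real.pi) ^ ((Module.finrank ℝ E : ℝ) / 2))⁻¹ * Real.exp (- ρ ^ 2 / 2)

theorem gw_nonneg (ρ : ℝ) : 0 ≤ gw E ρ := by
  unfold gw; positivity

theorem gw_pos (ρ : ℝ) : 0 < gw E ρ := by
  unfold gw
  have := Real.pi_pos
  positivity

theorem continuous_gw : Continuous (gw E) := by
  unfold gw; fun_prop

theorem integrable_gw : Integrable (fun x : E => gw E ‖x‖) := by
  unfold gw
  apply Integrable.const_mul
  have h := GaussianFourier.integrable_cexp_neg_mul_sq_norm_add (V := E) (b := 1 / 2)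
    (by norm_num) 0 0
  have h2 := h.norm
  refine h2.congr (.of_forall fun x => ?_)
  simp only [Complex.norm_exp]
  congr 1
  simp [← Complex.ofReal_pow]
  ring

theorem stdGaussian_eq : stdGaussian E =
    (volume : Measure E).withDensity (fun x => ENNReal.ofReal (gw E ‖x‖)) := by
  have hfin : IsFiniteMeasure ((volume : Measure E).withDensity
      (fun x => ENNReal.ofReal (gw E ‖x‖))) :=
    isFiniteMeasure_withDensity_ofReal integrable_gw.2
  apply Measure.ext_of_charFun
  ext t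
  rw [charFun_stdGaussian, charFun_apply, integral_withDensity_eq_integral_toReal_smul
    (by have := continuous_gw (E := E); fun_prop) (by simp)]
  have h := GaussianFourier.integral_cexp_neg_mul_sq_norm_add (V := E) (b := 1 / 2)
    (by norm_num) Complex.I t
  have h2 : ∀ x : E, (ENNReal.ofReal (gw E ‖x‖)).toReal • Complex.exp ((inner ℝ x t : ℝ) * Complex.I)
      = (((2 * Real.pi) ^ ((Module.finrank ℝ E : ℝ) / 2))⁻¹ : ℝ) *
        Complex.exp (-(1 / 2) * (‖x‖ : ℂ) ^ 2 + Complex.I * (inner ℝ t x : ℝ)) := by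
    intro x
    rw [ENNReal.toReal_ofReal (gw_nonneg _), gw, Complex.real_smul, Complex.ofReal_mul, mul_assoc]
    congr 1
    rw [Complex.ofReal_exp, ← Complex.exp_add]
    congr 1
    rw [real_inner_comm]
    push_cast
    ring
  simp_rw [h2]
  rw [integral_const_mul, h]
  have h3 : ((Real.pi : ℂ) / (1 / 2)) = ((2 * Real.pi : ℝ) : ℂ) := by push_cast; ring
  rw [h3, ← mul_assoc]
  have h4 : (((2 * Real.pi) ^ ((Module.finrank ℝ E : ℝ) / 2))⁻¹ : ℝ) *
      (((2 * Real.pi : ℝ) : ℂ) ^ ((Module.finrank ℝ E : ℂ) / 2)) = 1 := by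
    have h5 : ((Module.finrank ℝ E : ℂ) / 2) = (((Module.finrank ℝ E : ℝ) / 2 : ℝ) : ℂ) := by
      push_cast; ring
    rw [h5, ← Complex.ofReal_cpow (by positivity), ← Complex.ofReal_mul,
      inv_mul_cancel₀ (by positivity)]
    simp
  rw [h4, one_mul]
  congr 1
  rw [Complex.I_sq]
  ring

theorem integral_gaussian_polar [Nontrivial E] {F : Type*} [NormedAddCommGroup F]
    [NormedSpace ℝ F] (h : ℝ → ℝ) (f : E → F)
    (hf : ∀ c : ℝ, 0 < c → ∀ x : E, ‖x‖ = 1 → f (c • x) = h c • f x) :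
    ∫ x, f x ∂(stdGaussian E) =
      (∫ r in Ioi (0 : ℝ), r ^ (Module.finrank ℝ E - 1) * (gw E r * h r)) •
        ∫ x : sphere (0 : E) 1, f x ∂((volume : Measure E).toSphere) := by
  rw [stdGaussian_eq, integral_withDensity_eq_integral_toReal_smul
    (by have := continuous_gw (E := E); fun_prop) (by simp), ← integral_polar (gw E) h f hf]
  apply integral_congr_ae
  refine .of_forall fun x => ?_
  simp only
  rw [ENNReal.toReal_ofReal (gw_nonneg _)]

/-- Gaussian constant for degree `0`. -/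
noncomputable def c0 (E : Type*) [NormedAddCommGroup E] [InnerProductSpace ℝ E] : ℝ :=
  ∫ r in Ioi (0 : ℝ), r ^ (Module.finrank ℝ E - 1) * (gw E r * 1)

/-- Gaussian constant for degree `-1`. -/
noncomputable def c1 (E : Type*) [NormedAddCommGroup E] [InnerProductSpace ℝ E] : ℝ :=
  ∫ r in Ioi (0 : ℝ), r ^ (Module.finrank ℝ E - 1) * (gw E r * r⁻¹)

theorem c0_mul [Nontrivial E] : c0 E * ((volume : Measure E).toSphere).real univ = 1 := by
  have h := integral_gaussian_polar (E := E) (fun _ => 1) (fun _ => (1 : ℝ)) (by simp)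
  simp only [integral_const, smul_eq_mul, mul_one, probReal_univ] at h
  unfold c0
  simp only [mul_one]
  exact h.symm

theorem radial_integral (q : ℕ) : ∫ r in Ioi (0 : ℝ), r ^ q * Real.exp (- r ^ 2 / 2) =
    (1 / 2 : ℝ) ^ (-((q : ℝ) + 1) / 2) * (1 / 2) * Real.Gamma (((q : ℝ) + 1) / 2) := by
  rw [← integral_rpow_mul_exp_neg_mul_rpow (p := 2) (q := q) (b := 1 / 2) (by norm_num)
    (by have : (0 : ℝ) ≤ q := Nat.cast_nonneg q
        linarith) (by norm_num)]
  apply setIntegral_congr_fun measurableSet_Ioi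
  intro r _
  simp only [Real.rpow_natCast]
  congr 2
  rw [show (2 : ℝ) = ((2 : ℕ) : ℝ) by norm_num, Real.rpow_natCast]
  push_cast
  ring

theorem c1_le (hdim : Module.finrank ℝ E = 8) : c1 E ≤ 5 / (4 * Real.pi) * c0 E := by
  have hpi := Real.pi_pos
  have hpi2 : Real.pi < 3.15 := Real.pi_lt_d2
  set K : ℝ := ((2 * Real.pi) ^ ((Module.finrank ℝ E : ℝ) / 2))⁻¹ with hK
  have hK0 : 0 ≤ K := by positivity
  have h0 : c0 E = K * 48 := by
    have h1 : c0 E = ∫ r in Ioi (0 : ℝ), K * (r ^ 7 * Real.exp (- r ^ 2 / 2)) := by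
      unfold c0 gw
      apply setIntegral_congr_fun measurableSet_Ioi
      intro r _
      simp only [hdim]
      rw [hK, hdim]
      ring
    rw [h1, integral_const_mul, radial_integral 7]
    have h2 : (((7 : ℕ) : ℝ) + 1) / 2 = 3 + 1 := by norm_num
    have h3 : (-(((7 : ℕ) : ℝ) + 1) / 2) = ((-4 : ℤ) : ℝ) := by norm_num
    rw [h3, Real.rpow_intCast, show (((7 : ℕ) : ℝ) + 1) / 2 = ((3 : ℕ) : ℝ) + 1 by norm_num,
      Real.Gamma_nat_eq_factorial]
    norm_num [Nat.factorial]
  have h6 : c1 E = K * ((15 / 2) * Real.sqrt (2 * Real.pi)) := by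
    have h1 : c1 E = ∫ r in Ioi (0 : ℝ), K * (r ^ 6 * Real.exp (- r ^ 2 / 2)) := by
      unfold c1 gw
      apply setIntegral_congr_fun measurableSet_Ioi
      intro r hr
      have hr0 : (r : ℝ) ≠ 0 := (ne_of_gt hr)
      simp only [hdim]
      rw [hK, hdim]
      field_simp
    rw [h1, integral_const_mul, radial_integral 6]
    have h2 : (((6 : ℕ) : ℝ) + 1) / 2 = 1 / 2 + 1 + 1 + 1 := by norm_num
    have h3 : (-(((6 : ℕ) : ℝ) + 1) / 2) = -(3 + 1 / 2) := by norm_num
    rw [h2, h3, Real.Gamma_add_one (by norm_num), Real.Gamma_add_one (by norm_num),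
      Real.Gamma_add_one (by norm_num), Real.Gamma_one_half_eq, Real.rpow_neg (by norm_num),
      Real.rpow_add (by norm_num), Real.sqrt_mul (by norm_num), ← Real.sqrt_eq_rpow]
    have h4 : Real.sqrt (1 / 2) = Real.sqrt 2 / 2 := by
      rw [Real.sqrt_div (by norm_num), Real.sqrt_one]
      have : Real.sqrt 2 ≠ 0 := by positivity
      field_simp
      rw [Real.sq_sqrt (by norm_num)]
    rw [h4, show (3 : ℝ) = ((3 : ℕ) : ℝ) by norm_num, Real.rpow_natCast]
    have h5 : Real.sqrt 2 ^ 2 = 2 := Real.sq_sqrt (by norm_num)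
    have : Real.sqrt 2 ≠ 0 := by positivity
    field_simp
    rw [h5]
    norm_num
    try ring
  rw [h0, h6]
  have h7 : (15 / 2) * Real.sqrt (2 * Real.pi) ≤ 5 / (4 * Real.pi) * 48 := by
    have h8 : Real.sqrt (2 * Real.pi) ≤ 8 / Real.pi := by
      rw [Real.sqrt_le_left (by positivity), div_pow, le_div_iff₀ (by positivity)]
      nlinarith [mul_pos hpi hpi, mul_pos (mul_pos hpi hpi) hpi]
    calc (15 / 2) * Real.sqrt (2 * Real.pi) ≤ (15 / 2) * (8 / Real.pi) := by gcongr
      _ = 5 / (4 * Real.pi) * 48 := by field_simp; norm_num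
  calc K * ((15 / 2) * Real.sqrt (2 * Real.pi)) ≤ K * (5 / (4 * Real.pi) * 48) :=
        mul_le_mul_of_nonneg_left h7 hK0
    _ = _ := by ring

/-- The degree zero extension. -/
noncomputable def UU (G : E → E) (x : E) : E := ‖x‖⁻¹ • G x

variable {G : E → E}

theorem hasFDerivAt_UU (hG : IsFld G) {x : E} (hx : x ≠ 0) :
    HasFDerivAt (UU G) (fderiv ℝ (UU G) x) x := by
  have h1 : DifferentiableAt ℝ (fun x : E => ‖x‖⁻¹) x :=
    (differentiableAt_id.norm ℝ hx).inv (norm_ne_zero_iff.2 hx)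
  exact (h1.smul (hG.diff hx).differentiableAt).hasFDerivAt

theorem contDiffAt_UU (hG : IsFld G) {x : E} (hx : x ≠ 0) : ContDiffAt ℝ 1 (UU G) x := by
  have h1 : ContDiffAt ℝ 1 (fun x : E => ‖x‖⁻¹) x :=
    (contDiffAt_id.norm ℝ hx).inv (norm_ne_zero_iff.2 hx)
  exact h1.smul ((hG.smooth x hx).of_le (by norm_num))

theorem UU_smul (hG : IsFld G) (x : E) {c : ℝ} (hc : 0 < c) : UU G (c • x) = UU G x := by
  unfold UU
  rw [hG.hom c hc, norm_smul, Real.norm_eq_abs, abs_of_pos hc, mul_inv, smul_smul]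
  congr 1
  field_simp

theorem fderiv_UU_smul (hG : IsFld G) {x : E} (hx : x ≠ 0) {c : ℝ} (hc : 0 < c) :
    fderiv ℝ (UU G) (c • x) = c⁻¹ • fderiv ℝ (UU G) x := by
  have hcx : c • x ≠ 0 := smul_ne_zero hc.ne' hx
  have h1 : HasFDerivAt (fun y => UU G (c • y)) ((fderiv ℝ (UU G) (c • x)).comp
      (c • ContinuousLinearMap.id ℝ E)) x :=
    HasFDerivAt.comp x (hasFDerivAt_UU hG hcx) ((hasFDerivAt_id x).const_smul c)
  have h2 : HasFDerivAt (fun y => UU G (c • y)) (fderiv ℝ (UU G) x) x := by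
    have h3 : (fun y => UU G (c • y)) = UU G := by
      ext1 y; exact UU_smul hG y hc
    rw [h3]
    exact hasFDerivAt_UU hG hx
  have h4 := h1.unique h2
  rw [← h4]
  ext v
  simp only [smul_apply, ContinuousLinearMap.comp_apply, ContinuousLinearMap.id_apply, map_smul,
    smul_smul, inv_mul_cancel₀ hc.ne', one_smul]

theorem fderiv_UU_sphere (hG : IsFld G) {x : E} (hx : ‖x‖ = 1) :
    fderiv ℝ (UU G) x = fderiv ℝ G x - (innerSL ℝ x).smulRight (G x) := by
  have hx0 : x ≠ 0 := by rintro rfl; simp at hx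
  -- G = ‖x‖ U
  have h1 : HasFDerivAt (fun y : E => ‖y‖) (innerSL ℝ x) x := by
    have h := (hasStrictFDerivAt_norm_sq x).hasFDerivAt
    have h2 := (h.sqrt (by rw [hx]; norm_num))
    have h3 : (fun y : E => Real.sqrt (‖y‖ ^ 2)) = fun y => ‖y‖ := by
      ext y; exact Real.sqrt_sq (norm_nonneg y)
    rw [h3] at h2
    convert! h2 using 1
    rw [hx]
    ext v
    simp
  have h2 : HasFDerivAt G (fderiv ℝ (UU G) x + (innerSL ℝ x).smulRight (G x)) x := by
    have h3 := h1.smul (hasFDerivAt_UU hG hx0)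
    have h4 : (fun y : E => ‖y‖ • UU G y) =ᶠ[𝓝 x] G := by
      filter_upwards [isOpen_ne.mem_nhds hx0] with y hy
      unfold UU
      rw [smul_smul, mul_inv_cancel₀ (norm_ne_zero_iff.2 hy), one_smul]
    have h5 := h3.congr_of_eventuallyEq h4.symm
    have h6 : UU G x = G x := by unfold UU; rw [hx]; simp
    rw [hx, one_smul, h6] at h5
    exact h5
  rw [eq_sub_iff_add_eq]
  exact h2.unique (hG.diff hx0)

theorem norm_UU (hG : IsFld G) {x : E} (hx : x ≠ 0) : ‖UU G x‖ = 1 := by
  unfold UU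
  rw [norm_smul, norm_inv, norm_norm, hG.nrm, inv_mul_cancel₀ (norm_ne_zero_iff.2 hx)]

theorem path_bound (hG : IsFld G) (X Y : E)
    (h : ∀ s : ℝ, Real.cos s • X + Real.sin s • Y ≠ 0) :
    ‖UU G Y - UU G X‖ₑ ≤ ∫⁻ s in Ioc (0 : ℝ) (Real.pi / 2),
      ‖fderiv ℝ (UU G) (Real.cos s • X + Real.sin s • Y)
        (-Real.sin s • X + Real.cos s • Y)‖ₑ := by
  have hder : ∀ s : ℝ, HasDerivAt (fun s : ℝ => UU G (Real.cos s • X + Real.sin s • Y))
      (fderiv ℝ (UU G) (Real.cos s • X + Real.sin s • Y) (-Real.sin s • X + Real.cos s • Y)) s := by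
    intro s
    have h1 : HasDerivAt (fun s : ℝ => Real.cos s • X + Real.sin s • Y)
        (-Real.sin s • X + Real.cos s • Y) s :=
      ((Real.hasDerivAt_cos s).smul_const X).add ((Real.hasDerivAt_sin s).smul_const Y)
    exact (hasFDerivAt_UU hG (h s)).comp_hasDerivAt s h1
  have hcont : Continuous (fun s : ℝ => fderiv ℝ (UU G) (Real.cos s • X + Real.sin s • Y)
      (-Real.sin s • X + Real.cos s • Y)) := by
    rw [continuous_iff_continuousAt]
    intro s
    have h1 : ContinuousAt (fderiv ℝ (UU G)) (Real.cos s • X + Real.sin s • Y) :=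
      (contDiffAt_UU hG (h s)).continuousAt_fderiv (by norm_num)
    have h2 : ContinuousAt (fun s : ℝ => Real.cos s • X + Real.sin s • Y) s := by fun_prop
    exact (ContinuousAt.comp (f := fun s : ℝ => Real.cos s • X + Real.sin s • Y) h1 h2).clm_apply
      (by fun_prop)
  have h3 := intervalIntegral.integral_eq_sub_of_hasDerivAt (a := 0) (b := Real.pi / 2)
    (fun s _ => hder s) (hcont.intervalIntegrable _ _)
  simp only [Real.cos_pi_div_two, Real.sin_pi_div_two, Real.cos_zero, Real.sin_zero, zero_smul,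
    one_smul, zero_add, add_zero] at h3
  rw [← h3, intervalIntegral.integral_of_le (by positivity)]
  exact enorm_integral_le_lintegral_enorm _

theorem stdGaussian_ac : stdGaussian E ≪ (volume : Measure E) := by
  rw [stdGaussian_eq]
  exact withDensity_absolutelyContinuous _ _

theorem ae_path (hdim : 2 ≤ Module.finrank ℝ E) :
    ∀ᵐ p : E × E ∂((stdGaussian E).prod (stdGaussian E)),
      ∀ s : ℝ, Real.cos s • p.1 + Real.sin s • p.2 ≠ 0 := by
  set N : Set (E × E) := {p | ‖(inner ℝ p.1 p.2 : ℝ)‖ = ‖p.1‖ * ‖p.2‖} with hN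
  have hNc : IsClosed N := by
    apply isClosed_eq
    · exact (continuous_fst.inner continuous_snd).norm
    · exact continuous_fst.norm.mul continuous_snd.norm
  have hnull : ((stdGaussian E).prod (stdGaussian E)) N = 0 := by
    rw [Measure.measure_prod_null hNc.measurableSet]
    have h0 : ∀ᵐ X : E ∂(stdGaussian E), X ≠ 0 := by
      have : (stdGaussian E) {(0 : E)} = 0 := by
        apply stdGaussian_ac
        have : Nontrivial E := Module.nontrivial_of_finrank_pos (R := ℝ) (by omega)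
        exact measure_singleton 0
      rw [ae_iff]
      convert! this using 2
      ext X
      simp
    filter_upwards [h0] with X hX
    apply stdGaussian_ac
    have hsub : Prod.mk X ⁻¹' N ⊆ (Submodule.span ℝ {X} : Set E) := by
      intro Y hY
      by_cases hY0 : Y = 0
      · rw [hY0]; exact Submodule.zero_mem _
      have hY' : ‖(inner ℝ X Y : ℝ)‖ = ‖X‖ * ‖Y‖ := hY
      rw [norm_inner_eq_norm_iff hX hY0] at hY'
      obtain ⟨c, _, hc⟩ := hY'
      rw [hc]
      exact Submodule.smul_mem _ _ (Submodule.mem_span_singleton_self X)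
    refine measure_mono_null hsub ?_
    apply Measure.addHaar_submodule
    intro htop
    have h1 := finrank_span_singleton (K := ℝ) hX
    rw [htop, finrank_top] at h1
    omega
  have h2 : ∀ᵐ p : E × E ∂((stdGaussian E).prod (stdGaussian E)), p ∉ N := by
    rw [ae_iff]
    simpa using hnull
  filter_upwards [h2] with p hp s hs
  apply hp
  have hcs := Real.sin_sq_add_cos_sq s
  -- dependent vectors
  simp only [hN, mem_ofPred_eq]
  have hdep : ∃ (v : E) (a c : ℝ), p.1 = a • v ∧ p.2 = c • v := by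
    by_cases hc : Real.cos s = 0
    · have hs1 : Real.sin s ≠ 0 := by
        intro h0; rw [h0, hc] at hcs; norm_num at hcs
      refine ⟨p.1, 1, 0, by simp, ?_⟩
      rw [hc, zero_smul, zero_add] at hs
      rw [zero_smul]
      exact (smul_eq_zero.1 hs).resolve_left hs1
    · refine ⟨p.2, -(Real.sin s / Real.cos s), 1, ?_, by simp⟩
      have h3 : Real.cos s • p.1 = - (Real.sin s • p.2) := eq_neg_of_add_eq_zero_left hs
      have h4 : p.1 = (Real.cos s)⁻¹ • (Real.cos s • p.1) := by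
        rw [smul_smul, inv_mul_cancel₀ hc, one_smul]
      rw [h4, h3, smul_neg, smul_smul, neg_smul]
      congr 2
      field_simp
  obtain ⟨v, a, c, h5, h6⟩ := hdep
  rw [h5, h6, inner_smul_left, inner_smul_right, norm_smul, norm_smul, real_inner_self_eq_norm_sq]
  simp only [conj_trivial, norm_mul, norm_pow, norm_norm]
  ring

theorem measurable_DU : Measurable (fun p : E × E => ‖fderiv ℝ (UU G) p.1 p.2‖ₑ) := by
  have h1 : Measurable (fun p : E × E => fderiv ℝ (UU G) p.1 p.2) := by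
    have h2 : Continuous (fun q : (E →L[ℝ] E) × E => q.1 q.2) :=
      isBoundedBilinearMap_apply.continuous
    have h3 : Measurable (fun p : E × E => (fderiv ℝ (UU G) p.1, p.2)) :=
      ((measurable_fderiv ℝ (UU G)).comp measurable_fst).prodMk measurable_snd
    exact h2.measurable.comp h3
  exact h1.enorm

theorem lintegral_bound (hG : IsFld G) (hdim : 2 ≤ Module.finrank ℝ E) :
    ∫⁻ p, ‖UU G p.2 - UU G p.1‖ₑ ∂((stdGaussian E).prod (stdGaussian E)) ≤
      ENNReal.ofReal (Real.pi / 2) *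
        ∫⁻ p, ‖fderiv ℝ (UU G) p.1 p.2‖ₑ ∂((stdGaussian E).prod (stdGaussian E)) := by
  set ν := (stdGaussian E).prod (stdGaussian E) with hν
  set f : E × E → ENNReal := fun p => ‖fderiv ℝ (UU G) p.1 p.2‖ₑ with hf
  have hfm : Measurable f := measurable_DU
  have hrot : ∀ s : ℝ, ∫⁻ p, f (ContinuousLinearMap.rotation s p) ∂ν = ∫⁻ p, f p ∂ν := by
    intro s
    have h1 := IsGaussian.map_rotation_eq_self_of_forall_strongDual_eq_zero
      (μ := stdGaussian E) (fun L => integral_strongDual_stdGaussian L) s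
    rw [← hν] at h1
    conv_rhs => rw [← h1]
    rw [lintegral_map hfm (ContinuousLinearMap.rotation s).continuous.measurable]
  calc ∫⁻ p, ‖UU G p.2 - UU G p.1‖ₑ ∂ν
      ≤ ∫⁻ p, (∫⁻ s in Ioc (0 : ℝ) (Real.pi / 2), f (ContinuousLinearMap.rotation s p)) ∂ν := by
        apply lintegral_mono_ae
        filter_upwards [ae_path hdim] with p hp
        exact path_bound hG p.1 p.2 hp
    _ = ∫⁻ s in Ioc (0 : ℝ) (Real.pi / 2), (∫⁻ p, f (ContinuousLinearMap.rotation s p) ∂ν) := by
        apply lintegral_lintegral_swap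
        apply Measurable.aemeasurable
        apply hfm.comp
        have : Continuous (fun q : (E × E) × ℝ => ContinuousLinearMap.rotation q.2 q.1) := by
          simp only [ContinuousLinearMap.rotation_apply]
          fun_prop
        exact this.measurable
    _ = ∫⁻ s in Ioc (0 : ℝ) (Real.pi / 2), (∫⁻ p, f p ∂ν) := by simp_rw [hrot]
    _ = ENNReal.ofReal (Real.pi / 2) * ∫⁻ p, f p ∂ν := by
        rw [setLIntegral_const, Real.volume_Ioc, sub_zero, mul_comm]

theorem integral_norm_sq (A : E →L[ℝ] E) :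
    ∫ y, ‖A y‖ ^ 2 ∂(stdGaussian E) = hs2 A := by
  set b := stdOrthonormalBasis ℝ E
  have h1 : ∀ y, ‖A y‖ ^ 2 = ∑ i, ((innerSL ℝ (b i)).comp A y) ^ 2 := by
    intro y
    rw [← b.sum_sq_norm_inner_right]
    simp
  have hmem : ∀ i, MemLp ((innerSL ℝ (b i)).comp A) 2 (stdGaussian E) := by
    intro i
    exact ((innerSL ℝ (b i)).comp A).comp_memLp' (IsGaussian.memLp_two_id (μ := stdGaussian E))
  have h2 : ∀ i, ∫ y, ((innerSL ℝ (b i)).comp A y) ^ 2 ∂(stdGaussian E) =
      ‖(innerSL ℝ (b i)).comp A‖ ^ 2 := by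
    intro i
    rw [← variance_dual_stdGaussian, variance_eq_sub (hmem i), integral_strongDual_stdGaussian]
    simp
  simp_rw [h1]
  rw [integral_finsetSum _ (fun i _ => (hmem i).integrable_sq)]
  simp_rw [h2]
  have h3 : ∀ i, ‖(innerSL ℝ (b i)).comp A‖ ^ 2 = ∑ j, (inner ℝ (b i) (A (b j))) ^ 2 := by
    intro i
    rw [b.norm_dual]
    simp
  simp_rw [h3]
  rw [Finset.sum_comm, hs2_eq_sum b]
  apply Finset.sum_congr rfl
  intro j _
  rw [← b.sum_sq_norm_inner_right]
  simp

theorem hs2_nonneg (A : E →L[ℝ] E) : 0 ≤ hs2 A := by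
  rw [hs2_eq_sum (stdOrthonormalBasis ℝ E)]; positivity

theorem lintegral_norm_le (A : E →L[ℝ] E) :
    ∫⁻ y, ‖A y‖ₑ ∂(stdGaussian E) ≤ ENNReal.ofReal (Real.sqrt (hs2 A)) := by
  have hmem : MemLp (fun y => ‖A y‖) 2 (stdGaussian E) :=
    (A.comp_memLp' (IsGaussian.memLp_two_id (μ := stdGaussian E))).norm
  have h1 : ∫⁻ y, ‖A y‖ₑ ∂(stdGaussian E) = ENNReal.ofReal (∫ y, ‖A y‖ ∂(stdGaussian E)) := by
    rw [ofReal_integral_eq_lintegral_ofReal (hmem.integrable (by norm_num))
      (.of_forall fun y => norm_nonneg _)]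
    simp
  rw [h1]
  apply ENNReal.ofReal_le_ofReal
  apply Real.le_sqrt_of_sq_le
  have h2 := variance_nonneg (fun y => ‖A y‖) (stdGaussian E)
  rw [variance_eq_sub hmem] at h2
  have h3 : ∫ y, ((fun y => ‖A y‖) ^ 2) y ∂(stdGaussian E) = hs2 A := by
    rw [← integral_norm_sq A]
    rfl
  rw [h3] at h2
  linarith

theorem integrable_inv_norm (hdim : 2 ≤ Module.finrank ℝ E) :
    Integrable (fun x : E => ‖x‖⁻¹) (stdGaussian E) := by
  have : Nontrivial E := Module.nontrivial_of_finrank_pos (R := ℝ) (by omega)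
  rw [stdGaussian_eq, integrable_withDensity_iff_integrable_smul'
    (by have := continuous_gw (E := E); fun_prop) (by simp)]
  have h1 : (fun x : E => (ENNReal.ofReal (gw E ‖x‖)).toReal • ‖x‖⁻¹) =
      fun x => (fun r : ℝ => gw E r * r⁻¹) ‖x‖ := by
    ext x
    rw [ENNReal.toReal_ofReal (gw_nonneg _), smul_eq_mul]
  rw [h1, integrable_fun_norm_addHaar (volume : Measure E) (f := fun r : ℝ => gw E r * r⁻¹)]
  have h2 : IntegrableOn (fun y : ℝ => ((2 * Real.pi) ^ ((Module.finrank ℝ E : ℝ) / 2))⁻¹ *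
      (y ^ ((Module.finrank ℝ E - 2 : ℕ) : ℝ) * Real.exp (-(1 / 2) * y ^ 2))) (Ioi 0) := by
    apply Integrable.const_mul
    exact integrableOn_rpow_mul_exp_neg_mul_sq (by norm_num)
      (by have : (0 : ℝ) ≤ ((Module.finrank ℝ E - 2 : ℕ) : ℝ) := Nat.cast_nonneg _
          linarith)
  refine h2.congr_fun ?_ measurableSet_Ioi
  intro y hy
  have hy0 : (y : ℝ) ≠ 0 := ne_of_gt hy
  simp only [Real.rpow_natCast, smul_eq_mul]
  unfold gw
  have h3 : Module.finrank ℝ E - 1 = (Module.finrank ℝ E - 2) + 1 := by omega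
  have h4 : -(1 / 2) * y ^ 2 = -y ^ 2 / 2 := by ring
  rw [h4, h3, pow_succ y (Module.finrank ℝ E - 2)]
  field_simp

theorem continuous_hs2 : Continuous (hs2 : (E →L[ℝ] E) → ℝ) := by
  have : (hs2 : (E →L[ℝ] E) → ℝ) = fun A => ∑ i, ‖A (stdOrthonormalBasis ℝ E i)‖ ^ 2 := by
    ext A; exact hs2_eq_sum _ A
  rw [this]
  fun_prop

theorem hs2_smul (c : ℝ) (A : E →L[ℝ] E) : hs2 (c • A) = c ^ 2 * hs2 A := by
  rw [hs2_eq_sum (stdOrthonormalBasis ℝ E), hs2_eq_sum (stdOrthonormalBasis ℝ E), Finset.mul_sum]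
  apply Finset.sum_congr rfl
  intro i _
  rw [smul_apply, norm_smul, mul_pow, Real.norm_eq_abs, sq_abs]

/-- Upper bound for the double integral. -/
theorem upper_bound (hG : IsFld G) (hdim : 2 ≤ Module.finrank ℝ E) [Nontrivial E] :
    ∫⁻ p, ‖UU G p.2 - UU G p.1‖ₑ ∂((stdGaussian E).prod (stdGaussian E)) ≤
      ENNReal.ofReal (Real.pi / 2 * (c1 E * ∫ x : sphere (0 : E) 1,
        Real.sqrt (hs2 (fderiv ℝ (UU G) x)) ∂((volume : Measure E).toSphere))) := by
  set g : E → ℝ := fun x => Real.sqrt (hs2 (fderiv ℝ (UU G) x)) with hg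
  have hhom : ∀ c : ℝ, 0 < c → ∀ x : E, ‖x‖ = 1 → g (c • x) = c⁻¹ • g x := by
    intro c hc x hx
    have hx0 : x ≠ 0 := by rintro rfl; simp at hx
    simp only [hg]
    rw [fderiv_UU_smul hG hx0 hc, hs2_smul, Real.sqrt_mul (sq_nonneg _),
      Real.sqrt_sq (inv_pos.2 hc).le, smul_eq_mul]
  have hgm : Measurable g :=
    (Real.continuous_sqrt.comp continuous_hs2).measurable.comp (measurable_fderiv ℝ (UU G))
  have hgs : Continuous (fun x : sphere (0 : E) 1 => g x) := by
    rw [continuous_iff_continuousAt]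
    intro x
    have h1 : ContinuousAt (fderiv ℝ (UU G)) (x : E) :=
      (contDiffAt_UU hG (sphere_ne_zero x)).continuousAt_fderiv (by norm_num)
    have h2 : ContinuousAt g (x : E) :=
      ContinuousAt.comp (f := fderiv ℝ (UU G)) (g := fun A => Real.sqrt (hs2 A))
        (Real.continuous_sqrt.comp continuous_hs2).continuousAt h1
    exact ContinuousAt.comp (f := fun x : sphere (0 : E) 1 => (x : E)) h2
      continuous_subtype_val.continuousAt
  obtain ⟨C, hC⟩ := (isCompact_univ (X := sphere (0 : E) 1)).exists_bound_of_continuousOn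
    hgs.continuousOn
  have hgle : ∀ x : E, x ≠ 0 → ‖g x‖ ≤ C * ‖x‖⁻¹ := by
    intro x hx
    have hn : 0 < ‖x‖ := norm_pos_iff.2 hx
    have h1 : ‖(‖x‖⁻¹ • x)‖ = 1 := by
      rw [norm_smul, norm_inv, norm_norm, inv_mul_cancel₀ hn.ne']
    have h2 := hhom ‖x‖ hn _ h1
    rw [smul_smul, mul_inv_cancel₀ hn.ne', one_smul] at h2
    rw [h2, norm_smul, norm_inv, norm_norm, mul_comm]
    have h3 := hC ⟨‖x‖⁻¹ • x, mem_sphere_zero_iff_norm.2 h1⟩ (mem_univ _)
    exact mul_le_mul_of_nonneg_right h3 (inv_nonneg.2 hn.le)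
  have hgi : Integrable g (stdGaussian E) := by
    refine Integrable.mono' ((integrable_inv_norm hdim).const_mul C) hgm.aestronglyMeasurable ?_
    have h0 : ∀ᵐ X : E ∂(stdGaussian E), X ≠ 0 := by
      have : (stdGaussian E) {(0 : E)} = 0 := by
        apply stdGaussian_ac
        exact measure_singleton 0
      rw [ae_iff]
      convert! this using 2
      ext X
      simp
    filter_upwards [h0] with x hx
    exact hgle x hx
  have hint : ∫ x, g x ∂(stdGaussian E) = c1 E * ∫ x : sphere (0 : E) 1, g x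
      ∂((volume : Measure E).toSphere) :=
    integral_gaussian_polar (fun r => r⁻¹) g hhom
  calc ∫⁻ p, ‖UU G p.2 - UU G p.1‖ₑ ∂((stdGaussian E).prod (stdGaussian E))
      ≤ ENNReal.ofReal (Real.pi / 2) *
        ∫⁻ p, ‖fderiv ℝ (UU G) p.1 p.2‖ₑ ∂((stdGaussian E).prod (stdGaussian E)) :=
        lintegral_bound hG hdim
    _ = ENNReal.ofReal (Real.pi / 2) *
        ∫⁻ x, ∫⁻ y, ‖fderiv ℝ (UU G) x y‖ₑ ∂(stdGaussian E) ∂(stdGaussian E) := by
        rw [lintegral_prod _ measurable_DU.aemeasurable]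
    _ ≤ ENNReal.ofReal (Real.pi / 2) * ∫⁻ x, ENNReal.ofReal (g x) ∂(stdGaussian E) := by
        gcongr with x
        exact lintegral_norm_le _
    _ = ENNReal.ofReal (Real.pi / 2) * ENNReal.ofReal (∫ x, g x ∂(stdGaussian E)) := by
        rw [ofReal_integral_eq_lintegral_ofReal hgi (.of_forall fun x => Real.sqrt_nonneg _)]
    _ = _ := by
        rw [← ENNReal.ofReal_mul (by positivity), hint]

theorem integral_UU (hG : IsFld G) [Nontrivial E] :
    ∫ x, UU G x ∂(stdGaussian E) =
      c0 E • ∫ x : sphere (0 : E) 1, G x ∂((volume : Measure E).toSphere) := by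
  have h := integral_gaussian_polar (E := E) (fun _ => 1) (UU G) (by
    intro c hc x _
    rw [UU_smul hG x hc, one_smul])
  rw [h]
  unfold c0
  congr 1
  apply integral_congr_ae
  refine .of_forall fun x => ?_
  simp only [UU]
  rw [sphere_norm x]
  simp

theorem IsFld.continuous (hG : IsFld G) : Continuous G := by
  rw [continuous_iff_continuousAt]
  intro x
  by_cases hx : x = 0
  · subst hx
    have h0 : G 0 = 0 := by
      rw [← norm_eq_zero, hG.nrm, norm_zero]
    rw [ContinuousAt, h0, tendsto_zero_iff_norm_tendsto_zero]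
    simp_rw [hG.nrm]
    have := (continuous_norm (E := E)).tendsto 0
    simpa using this
  · exact (hG.smooth x hx).continuousAt

theorem measurable_UU (hG : IsFld G) : Measurable (UU G) := by
  unfold UU
  exact (measurable_norm.inv).smul hG.continuous.measurable

theorem norm_UU_le (hG : IsFld G) (x : E) : ‖UU G x‖ ≤ 1 := by
  by_cases hx : x = 0
  · unfold UU; rw [hx]; simp
  · exact (norm_UU hG hx).le

theorem ae_ne_zero [Nontrivial E] : ∀ᵐ X : E ∂(stdGaussian E), X ≠ 0 := by
  have : (stdGaussian E) {(0 : E)} = 0 := by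
    apply stdGaussian_ac
    exact measure_singleton 0
  rw [ae_iff]
  convert! this using 2
  ext X
  simp

/-- Lower bound for the double integral. -/
theorem lower_bound (hG : IsFld G) [Nontrivial E] :
    ENNReal.ofReal (1 - ‖c0 E • ∫ x : sphere (0 : E) 1, G x ∂((volume : Measure E).toSphere)‖ ^ 2) ≤
    ∫⁻ p, ‖UU G p.2 - UU G p.1‖ₑ ∂((stdGaussian E).prod (stdGaussian E)) := by
  rw [← integral_UU hG]
  set m := ∫ x, UU G x ∂(stdGaussian E) with hm
  have hUi : Integrable (UU G) (stdGaussian E) := by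
    refine Integrable.mono' (integrable_const (1 : ℝ)) (measurable_UU hG).aestronglyMeasurable ?_
    exact .of_forall fun x => norm_UU_le hG x
  have hmeas : Measurable (fun p : E × E => (inner ℝ (UU G p.1) (UU G p.2) : ℝ)) :=
    ((measurable_UU hG).comp measurable_fst).inner ((measurable_UU hG).comp measurable_snd)
  have hle : ∀ p : E × E, |(inner ℝ (UU G p.1) (UU G p.2) : ℝ)| ≤ 1 := by
    intro p
    refine (abs_real_inner_le_norm _ _).trans ?_
    exact mul_le_one₀ (norm_UU_le hG _) (norm_nonneg _) (norm_UU_le hG _)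
  have hii : Integrable (fun p : E × E => (inner ℝ (UU G p.1) (UU G p.2) : ℝ))
      ((stdGaussian E).prod (stdGaussian E)) := by
    refine Integrable.mono' (integrable_const (1 : ℝ)) hmeas.aestronglyMeasurable ?_
    exact .of_forall fun p => hle p
  have hi2 : Integrable (fun p : E × E => 1 - (inner ℝ (UU G p.1) (UU G p.2) : ℝ))
      ((stdGaussian E).prod (stdGaussian E)) := (integrable_const (1 : ℝ)).sub hii
  have h1 : ∫ p : E × E, (1 - (inner ℝ (UU G p.1) (UU G p.2) : ℝ))
      ∂((stdGaussian E).prod (stdGaussian E)) = 1 - ‖m‖ ^ 2 := by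
    rw [integral_sub (integrable_const _) hii, integral_prod _ hii]
    have h2 : ∀ x, ∫ y, (inner ℝ (UU G x) (UU G y) : ℝ) ∂(stdGaussian E) = inner ℝ (UU G x) m := by
      intro x
      exact integral_inner hUi _
    simp_rw [h2]
    have h3 : ∫ x, (inner ℝ (UU G x) m : ℝ) ∂(stdGaussian E) = inner ℝ m m := by
      have h4 : ∀ x, (inner ℝ (UU G x) m : ℝ) = inner ℝ m (UU G x) := fun x => real_inner_comm _ _
      simp_rw [h4]
      exact integral_inner hUi _
    rw [h3, real_inner_self_eq_norm_sq]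
    simp
  rw [← h1, ofReal_integral_eq_lintegral_ofReal hi2
    (.of_forall fun p => sub_nonneg.2 ((le_abs_self _).trans (hle p)))]
  apply lintegral_mono_ae
  have ha1 : ∀ᵐ p : E × E ∂((stdGaussian E).prod (stdGaussian E)), p.1 ≠ 0 :=
    Measure.quasiMeasurePreserving_fst.ae ae_ne_zero
  have ha2 : ∀ᵐ p : E × E ∂((stdGaussian E).prod (stdGaussian E)), p.2 ≠ 0 :=
    Measure.quasiMeasurePreserving_snd.ae ae_ne_zero
  filter_upwards [ha1, ha2] with p hp1 hp2
  rw [← ofReal_norm]
  apply ENNReal.ofReal_le_ofReal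
  have h5 := norm_UU hG hp1
  have h6 := norm_UU hG hp2
  have h7 : ‖UU G p.2 - UU G p.1‖ ^ 2 = 2 - 2 * inner ℝ (UU G p.1) (UU G p.2) := by
    rw [norm_sub_sq_real, h5, h6, real_inner_comm]
    ring
  have h8 : ‖UU G p.2 - UU G p.1‖ ≤ 2 := by
    refine (norm_sub_le _ _).trans ?_
    rw [h5, h6]; norm_num
  nlinarith [norm_nonneg (UU G p.2 - UU G p.1)]

/-- The Gaussian rotation (Maurey-Pisier) inequality on the sphere. -/
theorem gaussian_ineq (hG : IsFld G) (hdim : Module.finrank ℝ E = 8) [Nontrivial E] :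
    8 / 5 * (((volume : Measure E).toSphere).real univ - ‖∫ x : sphere (0 : E) 1, G x
      ∂((volume : Measure E).toSphere)‖ ^ 2 / ((volume : Measure E).toSphere).real univ) ≤
    ∫ x : sphere (0 : E) 1, Real.sqrt (hs2 (fderiv ℝ G x - (innerSL ℝ (x : E)).smulRight (G x)))
      ∂((volume : Measure E).toSphere) := by
  set S := ((volume : Measure E).toSphere).real univ with hS
  set D := ∫ x : sphere (0 : E) 1, Real.sqrt (hs2 (fderiv ℝ (UU G) x))
    ∂((volume : Measure E).toSphere) with hD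
  have hD2 : ∫ x : sphere (0 : E) 1, Real.sqrt (hs2 (fderiv ℝ G x -
      (innerSL ℝ (x : E)).smulRight (G x))) ∂((volume : Measure E).toSphere) = D := by
    rw [hD]
    apply integral_congr_ae
    refine .of_forall fun x => ?_
    simp only
    rw [fderiv_UU_sphere hG (sphere_norm x)]
  have hD0 : 0 ≤ D := integral_nonneg fun x => Real.sqrt_nonneg _
  have h1 := (lower_bound hG).trans (upper_bound hG (by omega))
  have hc : c0 E * S = 1 := c0_mul
  have hS0 : 0 < S := by
    have h2 : 0 ≤ S := measureReal_nonneg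
    rcases h2.lt_or_eq with h | h
    · exact h
    · rw [← h] at hc; simp at hc
  have hc0 : 0 < c0 E := by
    by_contra hneg
    push Not at hneg
    nlinarith
  have hpi := Real.pi_pos
  have hc1 := c1_le hdim
  have hc1' : 0 ≤ c1 E := by
    unfold c1
    apply setIntegral_nonneg measurableSet_Ioi
    intro r hr
    have : (0 : ℝ) < r := hr
    have := gw_nonneg (E := E) r
    positivity
  have h3 : 1 - ‖c0 E • ∫ x : sphere (0 : E) 1, G x ∂((volume : Measure E).toSphere)‖ ^ 2 ≤
      Real.pi / 2 * (c1 E * D) := by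
    by_contra hneg
    push Not at hneg
    have h4 : 0 ≤ Real.pi / 2 * (c1 E * D) := by positivity
    have h5 : 0 < 1 - ‖c0 E • ∫ x : sphere (0 : E) 1, G x
      ∂((volume : Measure E).toSphere)‖ ^ 2 := lt_of_le_of_lt h4 hneg
    rw [ENNReal.ofReal_le_ofReal_iff h4] at h1
    exact absurd h1 (not_le.2 hneg)
  rw [norm_smul, Real.norm_eq_abs, abs_of_pos hc0, mul_pow] at h3
  have h6 : Real.pi / 2 * (c1 E * D) ≤ 5 / 8 * c0 E * D := by
    calc Real.pi / 2 * (c1 E * D) ≤ Real.pi / 2 * ((5 / (4 * Real.pi) * c0 E) * D) := by gcongr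
      _ = 5 / 8 * c0 E * D := by field_simp; ring
  have h7 : c0 E = 1 / S := by field_simp; linarith
  rw [hD2]
  set m := ‖∫ x : sphere (0 : E) 1, G x ∂((volume : Measure E).toSphere)‖ with hm
  have h8 : 1 - (1 / S) ^ 2 * m ^ 2 ≤ 5 / 8 * (1 / S) * D := by
    rw [h7] at h3 h6
    linarith
  have h9 : S - m ^ 2 / S = S * (1 - (1 / S) ^ 2 * m ^ 2) := by field_simp
  rw [h9]
  have h10 : S * (1 - (1 / S) ^ 2 * m ^ 2) ≤ S * (5 / 8 * (1 / S) * D) :=
    mul_le_mul_of_nonneg_left h8 hS0.le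
  have h11 : S * (5 / 8 * (1 / S) * D) = 5 / 8 * D := by field_simp
  rw [h11] at h10
  linarith

end Pool.Agent.Lib.MP_c9e52c_gt
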