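import Mathlib

set_option autoImplicit false
open MeasureTheory Set Metric

namespace Pool.Agent.Lib.MP_c9e52c_gt

/-- Multiplication by the imaginary unit on `R^8 = C^4`. -/
noncomputable def hopfJ (x : EuclideanSpace ℝ (Fin 8)) : EuclideanSpace ℝ (Fin 8) :=
  WithLp.toLp 2 ![-x 1, x 0, -x 3, x 2, -x 5, x 4, -x 7, x 6]

theorem contDiff_hopfJ {k : WithTop ℕ∞} : ContDiff ℝ k hopfJ := by
  rw [contDiff_euclidean]
  intro i
  have h : ∀ j : Fin 8, ContDiff ℝ k (fun x : EuclideanSpace ℝ (Fin 8) => x j) := fun j =>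
    (contDiff_euclidean.1 contDiff_id) j
  fin_cases i
  · exact (h 1).neg
  · exact h 0
  · exact (h 3).neg
  · exact h 2
  · exact (h 5).neg
  · exact h 4
  · exact (h 7).neg
  · exact h 6

theorem inner_hopfJ (x : EuclideanSpace ℝ (Fin 8)) : inner ℝ x (hopfJ x) = 0 := by
  rw [PiLp.inner_apply]
  simp only [hopfJ, Fin.sum_univ_eight]
  simp
  ring

theorem norm_hopfJ (x : EuclideanSpace ℝ (Fin 8)) : ‖hopfJ x‖ = ‖x‖ := by
  rw [EuclideanSpace.norm_eq, EuclideanSpace.norm_eq]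
  congr 1
  simp only [hopfJ, Fin.sum_univ_eight]
  simp
  ring

end Pool.Agent.Lib.MP_c9e52c_gt
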