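import Mathlib
import Pool.Agent.Lib.MP_c9e52c_gt.Gauss

set_option autoImplicit false
set_option linter.unusedSectionVars false
open MeasureTheory Set Metric Filter Topology ProbabilityTheory

namespace Pool.Agent.Lib.MP_c9e52c_gt

variable {E : Type} [NormedAddCommGroup E] [InnerProductSpace ℝ E] [FiniteDimensional ℝ E]

/-- The degree one extension of `X / r`. -/
noncomputable def ext (X : E → E) (r : ℝ) (x : E) : E := (‖x‖ * r⁻¹) • X (‖x‖⁻¹ • x)

theorem norm_unit {x : E} (hx : x ≠ 0) : ‖(‖x‖⁻¹ • x)‖ = 1 := by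
  rw [norm_smul, norm_inv, norm_norm, inv_mul_cancel₀ (norm_ne_zero_iff.2 hx)]

theorem isFld_ext (X : E → E) (r : ℝ) (hr : 0 < r) (hX : ContDiff ℝ 2 X)
    (hort : ∀ x : E, ‖x‖ = 1 → inner ℝ x (X x) = 0) (hnrm : ∀ x : E, ‖x‖ = 1 → ‖X x‖ = r) :
    IsFld (ext X r) := by
  refine ⟨?_, ?_, ?_, ?_⟩
  · intro x hx
    unfold ext
    have h1 : ContDiffAt ℝ 2 (fun x : E => ‖x‖) x := contDiffAt_norm ℝ hx
    have h2 : ContDiffAt ℝ 2 (fun x : E => ‖x‖⁻¹ • x) x :=
      (h1.inv (norm_ne_zero_iff.2 hx)).smul contDiffAt_id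
    exact (h1.mul contDiffAt_const).smul (hX.contDiffAt.comp x h2)
  · intro c hc x
    unfold ext
    by_cases hx : x = 0
    · subst hx; simp
    have h1 : ‖c • x‖ = c * ‖x‖ := by rw [norm_smul, Real.norm_eq_abs, abs_of_pos hc]
    have h2 : ‖c • x‖⁻¹ • (c • x) = ‖x‖⁻¹ • x := by
      rw [h1, smul_smul]
      congr 1
      have := norm_ne_zero_iff.2 hx
      field_simp
    rw [h2, h1, smul_smul]
    congr 1
    ring
  · intro x
    by_cases hx : x = 0
    · subst hx; simp
    unfold ext
    have h1 : x = ‖x‖ • (‖x‖⁻¹ • x) := by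
      rw [smul_smul, mul_inv_cancel₀ (norm_ne_zero_iff.2 hx), one_smul]
    have h2 : inner ℝ x ((‖x‖ * r⁻¹) • X (‖x‖⁻¹ • x)) =
        (‖x‖ * (‖x‖ * r⁻¹)) * inner ℝ (‖x‖⁻¹ • x) (X (‖x‖⁻¹ • x)) := by
      conv_lhs => rw [inner_smul_right]
      conv_rhs => rw [inner_smul_left]
      have := norm_ne_zero_iff.2 hx
      simp only [conj_trivial]
      field_simp
    rw [h2, hort _ (norm_unit hx), mul_zero]
  · intro x
    by_cases hx : x = 0
    · subst hx; unfold ext; simp
    unfold ext
    rw [norm_smul, hnrm _ (norm_unit hx), norm_mul, norm_norm, norm_inv, Real.norm_eq_abs,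
      abs_of_pos hr, mul_assoc, inv_mul_cancel₀ hr.ne', mul_one]

theorem fderiv_ext (X : E → E) (r : ℝ) (hr : 0 < r) (hX : ContDiff ℝ 2 X)
    {x : E} (hx : ‖x‖ = 1) :
    r • (prj x * fderiv ℝ (ext X r) x * prj x) = prj x * fderiv ℝ X x * prj x := by
  have hx0 : x ≠ 0 := by rintro rfl; simp at hx
  have h1 : HasFDerivAt (fun y : E => ‖y‖) (innerSL ℝ x) x := by
    have h := (hasStrictFDerivAt_norm_sq x).hasFDerivAt
    have h2 := (h.sqrt (by rw [hx]; norm_num))
    have h3 : (fun y : E => Real.sqrt (‖y‖ ^ 2)) = fun y => ‖y‖ := by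
      ext y; exact Real.sqrt_sq (norm_nonneg y)
    rw [h3] at h2
    convert! h2 using 1
    rw [hx]
    ext v
    simp
  have h2 : HasFDerivAt (fun y : E => ‖y‖⁻¹) (- innerSL ℝ x) x := by
    have h3 := (hasDerivAt_inv (x := ‖x‖) (by rw [hx]; norm_num)).comp_hasFDerivAt x h1
    convert! h3 using 1
    rw [hx]
    ext v
    simp
  have h3 : HasFDerivAt (fun y : E => ‖y‖⁻¹ • y) (prj x) x := by
    have h4 := h2.smul (hasFDerivAt_id x)
    convert! h4 using 1
    rw [hx]
    ext v
    rw [prj_apply]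
    simp [sub_eq_add_neg]
  have h4 : HasFDerivAt (fun y : E => X (‖y‖⁻¹ • y)) ((fderiv ℝ X x).comp (prj x)) x := by
    have h5 : HasFDerivAt X (fderiv ℝ X x) (‖x‖⁻¹ • x) := by
      rw [hx, inv_one, one_smul]
      exact (hX.differentiable (by norm_num) x).hasFDerivAt
    exact HasFDerivAt.comp (g := X) (f := fun y : E => ‖y‖⁻¹ • y) x h5 h3
  have h5 : HasFDerivAt (ext X r)
      ((‖x‖ * r⁻¹) • ((fderiv ℝ X x).comp (prj x)) +
        (r⁻¹ • innerSL ℝ x).smulRight (X (‖x‖⁻¹ • x))) x := by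
    have h6 : HasFDerivAt (fun y : E => ‖y‖ * r⁻¹) (r⁻¹ • innerSL ℝ x) x := h1.mul_const r⁻¹
    exact h6.smul h4
  rw [h5.fderiv]
  have hpp : ∀ v, prj x (prj x v) = prj x v := by
    intro v
    simp only [prj_apply, inner_sub_right, inner_smul_right, real_inner_self_eq_norm_sq, hx]
    simp
  have hxp : ∀ v, inner ℝ x (prj x v) = 0 := by
    intro v
    simp only [prj_apply, inner_sub_right, inner_smul_right, real_inner_self_eq_norm_sq, hx]
    simp
  refine ContinuousLinearMap.ext fun v => ?_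
  have e1 : (r • (prj x * ((‖x‖ * r⁻¹) • ((fderiv ℝ X x).comp (prj x)) +
        (r⁻¹ • innerSL ℝ x).smulRight (X (‖x‖⁻¹ • x))) * prj x)) v =
      r • prj x ((‖x‖ * r⁻¹) • (fderiv ℝ X x) (prj x (prj x v)) +
        (r⁻¹ * inner ℝ x (prj x v)) • (X (‖x‖⁻¹ • x))) := rfl
  have e2 : (prj x * fderiv ℝ X x * prj x) v = prj x (fderiv ℝ X x (prj x v)) := rfl
  rw [e1, e2, hpp, hxp, mul_zero, zero_smul, add_zero, map_smul, smul_smul, hx, one_mul,
    mul_inv_cancel₀ hr.ne', one_smul]

theorem IsFld.isPt {G : E → E} (hG : IsFld G) {x : E} (hx : ‖x‖ = 1) :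
    IsPt (fderiv ℝ G x) x (G x) := by
  have hx0 : x ≠ 0 := by rintro rfl; simp at hx
  exact ⟨hx, by rw [hG.nrm, hx], hG.ort x, hG.euler hx0, hG.inner_left hx0, hG.inner_right hx0⟩

/-- The volume density of the field `r • G` on the sphere. -/
noncomputable def Wd (G : E → E) (r : ℝ) (x : E) : ℝ :=
  Real.sqrt (detL (1 + ContinuousLinearMap.adjoint (r • (prj x * fderiv ℝ G x * prj x)) *
      (r • (prj x * fderiv ℝ G x * prj x))))

/-- The calibrating density. -/
noncomputable def pd (G : E → E) (r : ℝ) (x : E) : ℝ :=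
  (4 / 5) * (1 + r ^ 6 * detL (fderiv ℝ G x)) +
      (1 / 10) * ((detL (1 + r • fderiv ℝ G x) + detL (1 + (-r) • fderiv ℝ G x)) / (1 + r ^ 2))

theorem continuous_Wd {G : E → E} (hG : IsFld G) (r : ℝ) :
    Continuous (fun x : sphere (0 : E) 1 => Wd G r x) := by
  have h1 := hG.continuous_fderiv_sphere
  have h2 : Continuous (fun x : sphere (0 : E) 1 => prj (x : E)) := by
    unfold prj
    have h3 : Continuous (fun x : sphere (0 : E) 1 => (x : E)) := continuous_subtype_val
    have h4 : Continuous (fun x : sphere (0 : E) 1 => innerSL ℝ (x : E)) :=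
      (innerSL ℝ (E := E)).continuous.comp h3
    have h5 : Continuous (fun q : (E →L[ℝ] ℝ) × E => q.1.smulRight q.2) :=
      (ContinuousLinearMap.smulRightL ℝ E E).continuous₂
    exact continuous_const.sub (h5.comp (h4.prodMk h3))
  have h3 : Continuous (fun x : sphere (0 : E) 1 => r • (prj (x : E) * fderiv ℝ G (x : E) * prj (x : E))) :=
    ((h2.mul h1).mul h2).const_smul r
  unfold Wd
  apply Real.continuous_sqrt.comp
  apply continuous_detL.comp
  apply continuous_const.add
  have ha : Continuous (fun A : E →L[ℝ] E => ContinuousLinearMap.adjoint A) :=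
    (ContinuousLinearMap.adjoint : (E →L[ℝ] E) ≃ₗᵢ⋆[ℝ] (E →L[ℝ] E)).continuous
  have h4 : Continuous (fun x : sphere (0 : E) 1 =>
      ContinuousLinearMap.adjoint (r • (prj (x : E) * fderiv ℝ G (x : E) * prj (x : E)))) := ha.comp h3
  exact h4.mul h3

theorem continuous_pd {G : E → E} (hG : IsFld G) (r : ℝ) :
    Continuous (fun x : sphere (0 : E) 1 => pd G r x) := by
  have h1 := hG.continuous_fderiv_sphere
  have h2 := continuous_detL (E := E)
  have h3 : ∀ c : ℝ, Continuous (fun x : sphere (0 : E) 1 => detL (1 + c • fderiv ℝ G x)) :=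
    fun c => h2.comp (continuous_const.add (h1.const_smul c))
  unfold pd
  exact (continuous_const.mul (continuous_const.add (continuous_const.mul (h2.comp h1)))).add
    (continuous_const.mul (((h3 r).add (h3 (-r))).div_const _))

variable [MeasurableSpace E] [BorelSpace E] [Nontrivial E]

theorem integral_pd {G : E → E} (hG : IsFld G) (hdim : Module.finrank ℝ E = 8) (r : ℝ) :
    ∫ x : sphere (0 : E) 1, pd G r x ∂((volume : Measure E).toSphere) =
      ((4 / 5) * (1 + r ^ 6) + (1 / 5) * (1 + r ^ 2) ^ 3) *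
        ((volume : Measure E).toSphere).real univ := by
  have h1 := hG.continuous_fderiv_sphere
  have h2 := continuous_detL (E := E)
  have h3 : ∀ c : ℝ, Continuous (fun x : sphere (0 : E) 1 => detL (1 + c • fderiv ℝ G x)) :=
    fun c => h2.comp (continuous_const.add (h1.const_smul c))
  have hint : ∀ f : sphere (0 : E) 1 → ℝ, Continuous f →
      Integrable f ((volume : Measure E).toSphere) := fun f hf =>
    hf.integrable_of_hasCompactSupport (HasCompactSupport.of_compactSpace _)
  have e1 : ∫ x : sphere (0 : E) 1, detL (fderiv ℝ G x) ∂((volume : Measure E).toSphere) =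
      ((volume : Measure E).toSphere).real univ := by
    have h := integral_detL hG 4 hdim 0 1
    simpa using h
  have e2 : ∀ c : ℝ, ∫ x : sphere (0 : E) 1, detL (1 + c • fderiv ℝ G x)
      ∂((volume : Measure E).toSphere) =
      (1 + c ^ 2) ^ 4 * ((volume : Measure E).toSphere).real univ := by
    intro c
    have h := integral_detL hG 4 hdim 1 c
    simpa using h
  set S := ((volume : Measure E).toSphere).real univ with hS
  have h4 : Continuous (fun x : sphere (0 : E) 1 => (4 / 5) * (1 + r ^ 6 * detL (fderiv ℝ G x))) :=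
    continuous_const.mul (continuous_const.add (continuous_const.mul (h2.comp h1)))
  have h5 : Continuous (fun x : sphere (0 : E) 1 => (1 / 10 : ℝ) *
      ((detL (1 + r • fderiv ℝ G x) + detL (1 + (-r) • fderiv ℝ G x)) / (1 + r ^ 2))) :=
    continuous_const.mul (((h3 r).add (h3 (-r))).div_const _)
  have h6 : Continuous (fun x : sphere (0 : E) 1 => r ^ 6 * detL (fderiv ℝ G x)) :=
    continuous_const.mul (h2.comp h1)
  unfold pd
  rw [integral_add (hint _ h4) (hint _ h5), integral_const_mul, integral_const_mul,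
    integral_add (integrable_const _) (hint _ h6),
    integral_const_mul, integral_div, integral_add (hint _ (h3 r)) (hint _ (h3 (-r))), e1, e2, e2]
  simp only [integral_const, smul_eq_mul, mul_one, ← hS]
  have : (1 : ℝ) + r ^ 2 ≠ 0 := by positivity
  field_simp
  ring

end Pool.Agent.Lib.MP_c9e52c_gt
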