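import Mathlib
import Pool.Agent.Lib.MP_c9e52c_gt.Main

set_option autoImplicit false
set_option linter.unusedSectionVars false
open MeasureTheory Set Metric Filter Topology ProbabilityTheory

namespace Pool.Agent.Lib.MP_c9e52c_gt

variable {E : Type} [NormedAddCommGroup E] [InnerProductSpace ℝ E] [FiniteDimensional ℝ E]
  [MeasurableSpace E] [BorelSpace E] [Nontrivial E]

/-- The tangent line of the lower bound for the density. -/
theorem sqrt_lower_r {r W h : ℝ} (hr : 0 < r) (hr1 : r ≤ 2 / 5) (hW : 1 ≤ W) (hh : 0 ≤ h)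
    (h1 : 1 - r ^ 2 + r ^ 2 * h ≤ W ^ 2) :
    (1 - r ^ 2) + 8 / 5 * r ^ 2 * Real.sqrt h ≤ Real.sqrt (1 + 39 / 25 * r ^ 2) * W := by
  have hs := Real.sq_sqrt hh
  have hs0 := Real.sqrt_nonneg h
  set s := Real.sqrt h
  have hr2 : r ^ 2 ≤ 1 := by nlinarith
  have hq : 0 ≤ 1 + 39 / 25 * r ^ 2 := by positivity
  have h2 : ((1 - r ^ 2) + 8 / 5 * r ^ 2 * s) ^ 2 ≤
      (Real.sqrt (1 + 39 / 25 * r ^ 2) * W) ^ 2 := by
    rw [mul_pow, Real.sq_sqrt hq]
    have h3 : (1 + 39 / 25 * r ^ 2) * (1 - r ^ 2 + r ^ 2 * s ^ 2) ≤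
        (1 + 39 / 25 * r ^ 2) * W ^ 2 := by
      rw [hs]
      exact mul_le_mul_of_nonneg_left h1 hq
    refine le_trans ?_ h3
    have h4 : 0 ≤ (1 - r ^ 2) * r ^ 2 * (s - 8 / 5) ^ 2 := by
      have : 0 ≤ 1 - r ^ 2 := by linarith
      positivity
    nlinarith [h4]
  refine (pow_le_pow_iff_left₀ ?_ ?_ (by norm_num)).1 h2
  · have : 0 ≤ 1 - r ^ 2 := by linarith
    positivity
  · have := Real.sqrt_nonneg (1 + 39 / 25 * r ^ 2)
    positivity

/-- The volume bound on the seven-sphere, for all small lengths. -/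
theorem key_r {G : E → E} (hG : IsFld G) (hdim : Module.finrank ℝ E = 8) (r : ℝ) (hr : 0 < r)
    (hr1 : r ≤ 2 / 5) :
    (((4 / 5) * (1 + r ^ 6) + (1 / 5) * (1 + r ^ 2) ^ 3) + r ^ 12 / 10 ^ 6) *
        ((volume : Measure E).toSphere).real univ ≤
      ∫ x : sphere (0 : E) 1, Wd G r x ∂((volume : Measure E).toSphere) := by
  have hint : ∀ f : sphere (0 : E) 1 → ℝ, Continuous f →
      Integrable f ((volume : Measure E).toSphere) := fun f hf =>
    hf.integrable_of_hasCompactSupport (HasCompactSupport.of_compactSpace _)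
  have hpt : ∀ x : sphere (0 : E) 1, _ := fun x =>
    pointwise (hG.isPt (sphere_norm x)) hdim r hr (by linarith)
      (Wd G r x) (pd G r x) rfl rfl
  have hP := integral_pd hG hdim r
  have hcW := continuous_Wd hG r
  have hcp := continuous_pd hG r
  have hga := gaussian_ineq hG hdim
  set S := ((volume : Measure E).toSphere).real univ with hS
  have hS0 : 0 < S := by
    rcases (measureReal_nonneg (μ := (volume : Measure E).toSphere) (s := univ)).lt_or_eq with h | h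
    · exact h
    · exfalso
      have := c0_mul (E := E)
      rw [← h, mul_zero] at this
      exact zero_ne_one this
  set c := (4 / 5) * (1 + r ^ 6) + (1 / 5) * (1 + r ^ 2) ^ 3 with hc
  -- numerical facts
  have hu0 : 0 < r ^ 2 := by positivity
  have hu1 : r ^ 2 ≤ 4 / 25 := by nlinarith
  have hcu : c = 1 + 3 / 5 * r ^ 2 + 3 / 5 * (r ^ 2) ^ 2 + (r ^ 2) ^ 3 := by rw [hc]; ring
  have hr12 : r ^ 12 = (r ^ 2) ^ 6 := by ring
  have hr12' : r ^ 12 ≤ r ^ 2 := by
    rw [hr12]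
    have : (r ^ 2) ^ 5 ≤ 1 := pow_le_one₀ hu0.le (by linarith)
    calc (r ^ 2) ^ 6 = (r ^ 2) ^ 5 * r ^ 2 := by ring
      _ ≤ 1 * r ^ 2 := mul_le_mul_of_nonneg_right this hu0.le
      _ = r ^ 2 := one_mul _
  have hcle : c + r ^ 12 / 10 ^ 6 ≤ 1 + 722 / 1000 * r ^ 2 := by
    rw [hcu]
    have e1 : (r ^ 2) ^ 2 ≤ 4 / 25 * r ^ 2 := by nlinarith
    have e2 : (r ^ 2) ^ 3 ≤ 16 / 625 * r ^ 2 := by
      have : (r ^ 2) ^ 2 ≤ 16 / 625 := by nlinarith
      nlinarith
    linarith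
  have hc1 : 1 ≤ c := by rw [hcu]; nlinarith [pow_pos hu0 2, pow_pos hu0 3]
  set v := ∫ x : sphere (0 : E) 1, Wd G r x ∂((volume : Measure E).toSphere) with hv
  by_contra hcon
  push Not at hcon
  have hsub : ∫ x : sphere (0 : E) 1, (Wd G r x - pd G r x)
      ∂((volume : Measure E).toSphere) = v - c * S := by
    rw [integral_sub (hint _ hcW) (hint _ hcp), hP]
  have hk : 0 < (1 / r) ^ 12 := by positivity
  have hkr : (1 / r) ^ 12 * r ^ 12 = 1 := by
    rw [← mul_pow, one_div, inv_mul_cancel₀ hr.ne', one_pow]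
  have hm : 2 * ‖∫ x : sphere (0 : E) 1, G x ∂((volume : Measure E).toSphere)‖ ≤
      S / 100 * Real.pi := by
    refine norm_integral_le (stdOrthonormalBasis ℝ E) hG 4 hdim (S / 100) fun t => ?_
    have hle : ∀ x : sphere (0 : E) 1,
        ‖adjL (stdOrthonormalBasis ℝ E) (MM G t x) (kap G x)‖ ≤
        1 / 200 * Wd G r x + 72 * (1 / r) ^ 12 * 50 * (Wd G r x - pd G r x) := by
      intro x
      obtain ⟨h1, h2, -, h4⟩ := hpt x
      have h5 := h4 (stdOrthonormalBasis ℝ E) (Real.cos t) (Real.sin t)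
        (by rw [← Real.sin_sq_add_cos_sq t]; ring)
      have h7 : 0 ≤ Wd G r x - pd G r x := by linarith
      have h6 : ‖adjL (stdOrthonormalBasis ℝ E) (MM G t x) (kap G x)‖ ^ 2 ≤
          (1 / 200 * Wd G r x + 72 * (1 / r) ^ 12 * 50 *
            (Wd G r x - pd G r x)) ^ 2 := by
        refine le_trans h5 ?_
        nlinarith [sq_nonneg (1 / 200 * Wd G r x - 72 * (1 / r) ^ 12 * 50 *
            (Wd G r x - pd G r x))]
      refine (pow_le_pow_iff_left₀ (norm_nonneg _) ?_ (by norm_num)).1 h6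
      positivity
    have hc2 : Continuous (fun x : sphere (0 : E) 1 =>
        1 / 200 * Wd G r x + 72 * (1 / r) ^ 12 * 50 * (Wd G r x - pd G r x)) :=
      (hcW.const_mul _).add ((hcW.sub hcp).const_mul _)
    have hbd : ∫ x : sphere (0 : E) 1, ‖adjL (stdOrthonormalBasis ℝ E) (MM G t x) (kap G x)‖
        ∂((volume : Measure E).toSphere) ≤
        ∫ x : sphere (0 : E) 1, (1 / 200 * Wd G r x +
          72 * (1 / r) ^ 12 * 50 * (Wd G r x - pd G r x))
        ∂((volume : Measure E).toSphere) := by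
      refine integral_mono_of_nonneg (Eventually.of_forall fun x => norm_nonneg _)
        (hint _ hc2) (Eventually.of_forall hle)
    refine hbd.trans ?_
    have hcW' : Continuous (fun x : sphere (0 : E) 1 => 1 / 200 * Wd G r x) :=
      hcW.const_mul _
    have hcd' : Continuous (fun x : sphere (0 : E) 1 =>
        72 * (1 / r) ^ 12 * 50 * (Wd G r x - pd G r x)) := (hcW.sub hcp).const_mul _
    rw [integral_add (hint _ hcW') (hint _ hcd'), integral_const_mul, integral_const_mul,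
      hsub, ← hv]
    have g1 : v - c * S ≤ r ^ 12 / 10 ^ 6 * S := by linarith
    have g2 : 72 * (1 / r) ^ 12 * 50 * (v - c * S) ≤
        72 * (1 / r) ^ 12 * 50 * (r ^ 12 / 10 ^ 6 * S) :=
      mul_le_mul_of_nonneg_left g1 (by positivity)
    have g3 : 72 * (1 / r) ^ 12 * 50 * (r ^ 12 / 10 ^ 6 * S) = 36 / 10 ^ 4 * S := by
      calc 72 * (1 / r) ^ 12 * 50 * (r ^ 12 / 10 ^ 6 * S) =
          36 / 10 ^ 4 * (((1 / r) ^ 12 * r ^ 12) * S) := by ring
        _ = 36 / 10 ^ 4 * S := by rw [hkr, one_mul]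
    have g4 : v ≤ 12 / 10 * S := by
      have : (c + r ^ 12 / 10 ^ 6) * S ≤ 12 / 10 * S :=
        mul_le_mul_of_nonneg_right (by linarith) hS0.le
      linarith
    linarith
  have hpi : Real.pi ≤ 4 := Real.pi_le_four
  set m := ‖∫ x : sphere (0 : E) 1, G x ∂((volume : Measure E).toSphere)‖ with hmdef
  have hm0 : 0 ≤ m := norm_nonneg _
  have hm1 : m ≤ S / 50 := by nlinarith [Real.pi_pos]
  have hm2 : m ^ 2 / S ≤ S / 2500 := by
    rw [div_le_iff₀ hS0]
    nlinarith
  have hcs : Continuous (fun x : sphere (0 : E) 1 => Real.sqrt (hs2 (fderiv ℝ G x -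
      (innerSL ℝ (x : E)).smulRight (G x)))) := by
    have h1 := hG.continuous_fderiv_sphere
    have h3 : Continuous (fun x : sphere (0 : E) 1 => (x : E)) := continuous_subtype_val
    have h4 : Continuous (fun x : sphere (0 : E) 1 => innerSL ℝ (x : E)) :=
      (innerSL ℝ (E := E)).continuous.comp h3
    have h5 : Continuous (fun q : (E →L[ℝ] ℝ) × E => q.1.smulRight q.2) :=
      (ContinuousLinearMap.smulRightL ℝ E E).continuous₂
    exact Real.continuous_sqrt.comp (continuous_hs2.comp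
      (h1.sub (h5.comp (h4.prodMk hG.continuous_sphere))))
  set φ := Real.sqrt (1 + 39 / 25 * r ^ 2) with hφ
  have hφ2 : φ ^ 2 = 1 + 39 / 25 * r ^ 2 := Real.sq_sqrt (by positivity)
  have hφ0 : 0 < φ := Real.sqrt_pos.2 (by positivity)
  have hlow : ∫ x : sphere (0 : E) 1, ((1 - r ^ 2) + 8 / 5 * r ^ 2 *
      Real.sqrt (hs2 (fderiv ℝ G x - (innerSL ℝ (x : E)).smulRight (G x))))
      ∂((volume : Measure E).toSphere) ≤ φ * v := by
    rw [hv, ← integral_const_mul]
    refine integral_mono (hint _ ?_) ((hint _ hcW).const_mul _) fun x => ?_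
    · exact continuous_const.add (hcs.const_mul _)
    · obtain ⟨-, h2, h3, -⟩ := hpt x
      exact sqrt_lower_r hr hr1 h2 (hs2_nonneg _) h3
  have hcs' : Continuous (fun x : sphere (0 : E) 1 => 8 / 5 * r ^ 2 *
      Real.sqrt (hs2 (fderiv ℝ G x - (innerSL ℝ (x : E)).smulRight (G x)))) := hcs.const_mul _
  rw [integral_add (integrable_const _) (hint _ hcs'), integral_const_mul] at hlow
  simp only [integral_const, smul_eq_mul, ← hS] at hlow
  -- lower bound for `φ * v`
  have k1 : 8 / 5 * r ^ 2 * (8 / 5 * (S - S / 2500)) ≤ 8 / 5 * r ^ 2 * ∫ x : sphere (0 : E) 1,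
      Real.sqrt (hs2 (fderiv ℝ G x - (innerSL ℝ (x : E)).smulRight (G x)))
      ∂((volume : Measure E).toSphere) := by
    apply mul_le_mul_of_nonneg_left _ (by positivity)
    linarith
  have k2 : (1 + 1558 / 1000 * r ^ 2) * S ≤ φ * v := by nlinarith
  have k3 : φ * v < φ * ((c + r ^ 12 / 10 ^ 6) * S) := mul_lt_mul_of_pos_left hcon hφ0
  have k4 : φ * ((c + r ^ 12 / 10 ^ 6) * S) ≤ φ * ((1 + 722 / 1000 * r ^ 2) * S) :=
    mul_le_mul_of_nonneg_left (mul_le_mul_of_nonneg_right hcle hS0.le) hφ0.le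
  have k5 : (1 + 1558 / 1000 * r ^ 2) * S < φ * (1 + 722 / 1000 * r ^ 2) * S := by
    calc _ ≤ φ * v := k2
      _ < _ := k3
      _ ≤ _ := k4
      _ = _ := by ring
  have k6 : 1 + 1558 / 1000 * r ^ 2 < φ * (1 + 722 / 1000 * r ^ 2) :=
    lt_of_mul_lt_mul_right k5 hS0.le
  have k7 : (1 + 1558 / 1000 * r ^ 2) ^ 2 < (φ * (1 + 722 / 1000 * r ^ 2)) ^ 2 :=
    pow_lt_pow_left₀ k6 (by positivity) (by norm_num)
  rw [mul_pow, hφ2] at k7
  nlinarith [mul_pos hu0 hu0, mul_pos (mul_pos hu0 hu0) hu0]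

end Pool.Agent.Lib.MP_c9e52c_gt
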