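import Mathlib
import Pool.Agent.Lib.MP_c9e52c_gt.KeyR

set_option autoImplicit false
set_option linter.unusedSectionVars false
open MeasureTheory Set Metric Filter Topology
open scoped Manifold ContDiff

namespace Pool.Agent.Lib.MP_c9e52c_gt

/-- The radial extension of a smooth map on the sphere is smooth away from the origin. -/
theorem contDiffAt_radial {E : Type} [NormedAddCommGroup E] [InnerProductSpace ℝ E]
    [FiniteDimensional ℝ E] {n : ℕ}
    [Fact (Module.finrank ℝ E = n + 1)] {k : WithTop ℕ∞} (V : sphere (0 : E) 1 → E)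
    (hV : ContMDiff (𝓡 n) 𝓘(ℝ, E) k V) (F : E → E)
    (hF : ∀ (x : E) (h : ‖x‖⁻¹ • x ∈ sphere (0 : E) 1), x ≠ 0 → F x = V ⟨‖x‖⁻¹ • x, h⟩)
    {x : E} (hx : x ≠ 0) : ContDiffAt ℝ k F x := by
  let U : TopologicalSpace.Opens E := ⟨{0}ᶜ, isOpen_compl_singleton⟩
  have hU : ∀ y : U, (y : E) ≠ 0 := fun y => y.2
  let f : U → E := fun y => ‖(y : E)‖⁻¹ • (y : E)
  have hf' : ∀ y : U, f y ∈ sphere (0 : E) 1 := fun y =>
    mem_sphere_zero_iff_norm.2 (norm_unit (hU y))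
  have hf : ContMDiff 𝓘(ℝ, E) 𝓘(ℝ, E) k f := by
    intro y
    have h1 : ContDiffAt ℝ k (fun z : E => ‖z‖⁻¹ • z) (y : E) :=
      ((contDiffAt_norm ℝ (hU y)).inv (norm_ne_zero_iff.2 (hU y))).smul contDiffAt_id
    exact (contMDiffAt_subtype_iff (f := fun z : E => ‖z‖⁻¹ • z) (x := y)).2 h1.contMDiffAt
  have h2 : ContMDiff 𝓘(ℝ, E) 𝓘(ℝ, E) k (V ∘ (Set.codRestrict f (sphere (0 : E) 1) hf')) :=
    hV.comp (hf.codRestrict_sphere hf')
  have h3 : (V ∘ (Set.codRestrict f (sphere (0 : E) 1) hf')) = fun y : U => F (y : E) := by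
    ext1 y
    exact (hF (y : E) (hf' y) (hU y)).symm
  rw [h3] at h2
  exact contMDiffAt_iff_contDiffAt.1 ((contMDiffAt_subtype_iff (x := (⟨x, hx⟩ : U))).1 (h2 ⟨x, hx⟩))

variable {E : Type} [NormedAddCommGroup E] [InnerProductSpace ℝ E] [FiniteDimensional ℝ E]

theorem isFld_of_radial (F : E → E) (r : ℝ) (hr : 0 < r)
    (hF : ∀ x : E, x ≠ 0 → ContDiffAt ℝ 2 F x)
    (hhom : ∀ c : ℝ, 0 < c → ∀ x : E, x ≠ 0 → F (c • x) = F x)
    (hort : ∀ x : E, x ≠ 0 → inner ℝ x (F x) = 0) (hnrm : ∀ x : E, x ≠ 0 → ‖F x‖ = r) :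
    IsFld (fun x => (‖x‖ * r⁻¹) • F x) := by
  refine ⟨?_, ?_, ?_, ?_⟩
  · intro x hx
    exact ((contDiffAt_norm ℝ hx).mul contDiffAt_const).smul (hF x hx)
  · intro c hc x
    by_cases hx : x = 0
    · subst hx; simp
    rw [hhom c hc x hx, norm_smul, Real.norm_eq_abs, abs_of_pos hc, smul_smul]
    congr 1
    ring
  · intro x
    by_cases hx : x = 0
    · subst hx; simp
    rw [inner_smul_right, hort x hx, mul_zero]
  · intro x
    by_cases hx : x = 0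
    · subst hx; simp
    rw [norm_smul, hnrm x hx, norm_mul, norm_norm, norm_inv, Real.norm_eq_abs,
      abs_of_pos hr, mul_assoc, inv_mul_cancel₀ hr.ne', mul_one]

theorem fderiv_of_radial (F : E → E) (r : ℝ) (hr : 0 < r) {x : E} (hx : ‖x‖ = 1)
    (hF : DifferentiableAt ℝ F x) :
    r • (prj x * fderiv ℝ (fun x => (‖x‖ * r⁻¹) • F x) x * prj x) =
      prj x * fderiv ℝ F x * prj x := by
  have hx0 : x ≠ 0 := by rintro rfl; simp at hx
  have h1 : HasFDerivAt (fun y : E => ‖y‖) (innerSL ℝ x) x := by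
    have h := (hasStrictFDerivAt_norm_sq x).hasFDerivAt
    have h2 := (h.sqrt (by rw [hx]; norm_num))
    have h3 : (fun y : E => Real.sqrt (‖y‖ ^ 2)) = fun y => ‖y‖ := by
      ext y; exact Real.sqrt_sq (norm_nonneg y)
    rw [h3] at h2
    convert! h2 using 1
    rw [hx]
    ext v
    simp
  have h5 : HasFDerivAt (fun x => (‖x‖ * r⁻¹) • F x)
      ((‖x‖ * r⁻¹) • (fderiv ℝ F x) + (r⁻¹ • innerSL ℝ x).smulRight (F x)) x := by
    have h6 : HasFDerivAt (fun y : E => ‖y‖ * r⁻¹) (r⁻¹ • innerSL ℝ x) x := h1.mul_const r⁻¹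
    exact h6.smul hF.hasFDerivAt
  rw [h5.fderiv]
  have hxp : ∀ v, inner ℝ x (prj x v) = 0 := by
    intro v
    simp only [prj_apply, inner_sub_right, inner_smul_right, real_inner_self_eq_norm_sq, hx]
    simp
  refine ContinuousLinearMap.ext fun v => ?_
  have e1 : (r • (prj x * ((‖x‖ * r⁻¹) • (fderiv ℝ F x) +
        (r⁻¹ • innerSL ℝ x).smulRight (F x)) * prj x)) v =
      r • prj x ((‖x‖ * r⁻¹) • (fderiv ℝ F x) (prj x v) +
        (r⁻¹ * inner ℝ x (prj x v)) • (F x)) := rfl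
  have e2 : (prj x * fderiv ℝ F x * prj x) v = prj x (fderiv ℝ F x (prj x v)) := rfl
  rw [e1, e2, hxp, mul_zero, zero_smul, add_zero, map_smul, smul_smul, hx, one_mul,
    mul_inv_cancel₀ hr.ne', one_smul]

theorem det_one_add_comp_comm {K : Type} [AddCommGroup K] [Module ℝ K] [FiniteDimensional ℝ K]
    (f : K →ₗ[ℝ] E) (g : E →ₗ[ℝ] K) :
    LinearMap.det (1 + f ∘ₗ g : E →ₗ[ℝ] E) = LinearMap.det (1 + g ∘ₗ f : K →ₗ[ℝ] K) := by
  let bE := Module.finBasis ℝ E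
  let bK := Module.finBasis ℝ K
  rw [← LinearMap.det_toMatrix bE, ← LinearMap.det_toMatrix bK, map_add, map_add,
    LinearMap.toMatrix_comp bE bK bE, LinearMap.toMatrix_comp bK bE bK]
  have h1 : LinearMap.toMatrix bE bE (1 : E →ₗ[ℝ] E) = 1 := LinearMap.toMatrix_one bE
  have h2 : LinearMap.toMatrix bK bK (1 : K →ₗ[ℝ] K) = 1 := LinearMap.toMatrix_one bK
  rw [h1, h2]
  exact Matrix.det_one_add_mul_comm _ _

/-- The determinant on the tangent space of the sphere agrees with the ambient one. -/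
theorem det_tangent (D : E →L[ℝ] E) {x : E} (hx : ‖x‖ = 1) :
    detL (1 + ContinuousLinearMap.adjoint (prj x * D * prj x) * (prj x * D * prj x)) =
      LinearMap.det ((1 + ContinuousLinearMap.adjoint
          ((ℝ ∙ x)ᗮ.orthogonalProjectionOnto ∘L D ∘L (ℝ ∙ x)ᗮ.subtypeL) ∘L
          ((ℝ ∙ x)ᗮ.orthogonalProjectionOnto ∘L D ∘L (ℝ ∙ x)ᗮ.subtypeL) :
            (ℝ ∙ x)ᗮ →L[ℝ] (ℝ ∙ x)ᗮ) : (ℝ ∙ x)ᗮ →ₗ[ℝ] (ℝ ∙ x)ᗮ) := by
  set K : Submodule ℝ E := (ℝ ∙ x)ᗮ with hK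
  set ι : K →L[ℝ] E := K.subtypeL with hι
  set π : E →L[ℝ] K := K.orthogonalProjectionOnto with hπ
  have hπι : ∀ v : K, π (ι v) = v := fun v => by
    simp [hπ, hι]
  have hprj : ∀ v : E, prj x v = ι (π v) := by
    intro v
    have h1 : ι (π v) = K.starProjection v := rfl
    have h2 : K.starProjection v = v - (ℝ ∙ x).starProjection v :=
      Submodule.starProjection_orthogonal_val v
    rw [h1, h2, prj_apply, Submodule.starProjection_unit_singleton ℝ hx]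
  have hadjπ : ContinuousLinearMap.adjoint π = ι := Submodule.adjoint_orthogonalProjectionOnto K
  have hadjι : ContinuousLinearMap.adjoint ι = π := Submodule.adjoint_subtypeL K
  set N : K →L[ℝ] K := π ∘L D ∘L ι with hN
  have hB : prj x * D * prj x = ι ∘L (N ∘L π) := by
    refine ContinuousLinearMap.ext fun v => ?_
    have e2 : (prj x * D * prj x) v = prj x (D (prj x v)) := rfl
    rw [e2, hprj, hprj]
    rfl
  have hBB : ContinuousLinearMap.adjoint (prj x * D * prj x) * (prj x * D * prj x) =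
      ι ∘L ((ContinuousLinearMap.adjoint N ∘L N) ∘L π) := by
    rw [hB, ContinuousLinearMap.adjoint_comp, ContinuousLinearMap.adjoint_comp, hadjπ, hadjι]
    refine ContinuousLinearMap.ext fun v => ?_
    have e1 : (((ι ∘L ContinuousLinearMap.adjoint N) ∘L π) * (ι ∘L (N ∘L π))) v =
      ι (ContinuousLinearMap.adjoint N (π (ι (N (π v))))) := rfl
    rw [e1, hπι]
    rfl
  rw [hBB]
  have h1 := det_one_add_comp_comm (E := E) (K := K) (ι : K →ₗ[ℝ] E)
    (((ContinuousLinearMap.adjoint N ∘L N) ∘L π : E →L[ℝ] K) : E →ₗ[ℝ] K)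
  have h2 : ((((ContinuousLinearMap.adjoint N ∘L N) ∘L π : E →L[ℝ] K) : E →ₗ[ℝ] K) ∘ₗ
      (ι : K →ₗ[ℝ] E)) = ((ContinuousLinearMap.adjoint N ∘L N : K →L[ℝ] K) : K →ₗ[ℝ] K) := by
    refine LinearMap.ext fun v => ?_
    have e1 : ((((ContinuousLinearMap.adjoint N ∘L N) ∘L π : E →L[ℝ] K) : E →ₗ[ℝ] K) ∘ₗ
      (ι : K →ₗ[ℝ] E)) v = ContinuousLinearMap.adjoint N (N (π (ι v))) := rfl
    rw [e1, hπι]
    rfl
  rw [h2] at h1
  exact h1

end Pool.Agent.Lib.MP_c9e52c_gt
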