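import Mathlib
import Pool.Agent.Lib.MP_c9e52c_gt.Main

set_option autoImplicit false
set_option linter.unusedSectionVars false
open MeasureTheory Set Metric Filter Topology ProbabilityTheory

namespace Pool.Agent.Lib.MP_c9e52c_gt

variable {E : Type} [NormedAddCommGroup E] [InnerProductSpace ℝ E] [FiniteDimensional ℝ E]
  [MeasurableSpace E] [BorelSpace E] [Nontrivial E]

theorem sqrt_lower {W h : ℝ} (hW : 1 ≤ W) (hh : 0 ≤ h)
    (h1 : 1 - (1 / 3 : ℝ) ^ 2 + (1 / 3 : ℝ) ^ 2 * h ≤ W ^ 2) :
    80 / 99 + 17 / 99 * Real.sqrt h ≤ W := by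
  have hs := Real.sq_sqrt hh
  have hs0 := Real.sqrt_nonneg h
  set s := Real.sqrt h
  have h2 : (80 / 99 + 17 / 99 * s) ^ 2 ≤ W ^ 2 := by
    rw [← hs] at h1
    nlinarith [sq_nonneg (s - 17 / 10)]
  exact (pow_le_pow_iff_left₀ (by positivity) (by linarith) (by norm_num)).1 h2

theorem key {G : E → E} (hG : IsFld G) (hdim : Module.finrank ℝ E = 8) :
    (784 / 729 + 1 / 10 ^ 12) * ((volume : Measure E).toSphere).real univ ≤
      ∫ x : sphere (0 : E) 1, Wd G (1 / 3) x ∂((volume : Measure E).toSphere) := by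
  have hint : ∀ f : sphere (0 : E) 1 → ℝ, Continuous f →
      Integrable f ((volume : Measure E).toSphere) := fun f hf =>
    hf.integrable_of_hasCompactSupport (HasCompactSupport.of_compactSpace _)
  have hpt : ∀ x : sphere (0 : E) 1, _ := fun x =>
    pointwise (hG.isPt (sphere_norm x)) hdim (1 / 3) (by norm_num) (by norm_num)
      (Wd G (1 / 3) x) (pd G (1 / 3) x) rfl rfl
  have hP := integral_pd hG hdim (1 / 3)
  have hcW := continuous_Wd hG (1 / 3)
  have hcp := continuous_pd hG (1 / 3)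
  have hga := gaussian_ineq hG hdim
  set S := ((volume : Measure E).toSphere).real univ with hS
  have hS0 : 0 < S := by
    rcases (measureReal_nonneg (μ := (volume : Measure E).toSphere) (s := univ)).lt_or_eq with h | h
    · exact h
    · exfalso
      have := c0_mul (E := E)
      rw [← h, mul_zero] at this
      exact zero_ne_one this
  have hPe : ∫ x : sphere (0 : E) 1, pd G (1 / 3) x ∂((volume : Measure E).toSphere) =
      784 / 729 * S := by
    rw [hP]; norm_num
  set v := ∫ x : sphere (0 : E) 1, Wd G (1 / 3) x ∂((volume : Measure E).toSphere) with hv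
  by_contra hcon
  push Not at hcon
  have hsub : ∫ x : sphere (0 : E) 1, (Wd G (1 / 3) x - pd G (1 / 3) x)
      ∂((volume : Measure E).toSphere) = v - 784 / 729 * S := by
    rw [integral_sub (hint _ hcW) (hint _ hcp), hPe]
  have hm : 2 * ‖∫ x : sphere (0 : E) 1, G x ∂((volume : Measure E).toSphere)‖ ≤
      S / 100 * Real.pi := by
    refine norm_integral_le (stdOrthonormalBasis ℝ E) hG 4 hdim (S / 100) fun t => ?_
    have hle : ∀ x : sphere (0 : E) 1,
        ‖adjL (stdOrthonormalBasis ℝ E) (MM G t x) (kap G x)‖ ≤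
        1 / 200 * Wd G (1 / 3) x + 72 * 3 ^ 12 * 50 * (Wd G (1 / 3) x - pd G (1 / 3) x) := by
      intro x
      obtain ⟨h1, h2, -, h4⟩ := hpt x
      have h5 := h4 (stdOrthonormalBasis ℝ E) (Real.cos t) (Real.sin t)
        (by rw [← Real.sin_sq_add_cos_sq t]; ring)
      have h6 : ‖adjL (stdOrthonormalBasis ℝ E) (MM G t x) (kap G x)‖ ^ 2 ≤
          (1 / 200 * Wd G (1 / 3) x + 72 * 3 ^ 12 * 50 *
            (Wd G (1 / 3) x - pd G (1 / 3) x)) ^ 2 := by
        refine le_trans h5 ?_
        nlinarith [sq_nonneg (1 / 200 * Wd G (1 / 3) x - 72 * 3 ^ 12 * 50 *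
            (Wd G (1 / 3) x - pd G (1 / 3) x))]
      refine (pow_le_pow_iff_left₀ (norm_nonneg _) ?_ (by norm_num)).1 h6
      have : 0 ≤ Wd G (1 / 3) x - pd G (1 / 3) x := by linarith
      positivity
    have hc2 : Continuous (fun x : sphere (0 : E) 1 =>
        1 / 200 * Wd G (1 / 3) x + 72 * 3 ^ 12 * 50 * (Wd G (1 / 3) x - pd G (1 / 3) x)) :=
      (hcW.const_mul _).add ((hcW.sub hcp).const_mul _)
    have hbd : ∫ x : sphere (0 : E) 1, ‖adjL (stdOrthonormalBasis ℝ E) (MM G t x) (kap G x)‖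
        ∂((volume : Measure E).toSphere) ≤
        ∫ x : sphere (0 : E) 1, (1 / 200 * Wd G (1 / 3) x +
          72 * 3 ^ 12 * 50 * (Wd G (1 / 3) x - pd G (1 / 3) x))
        ∂((volume : Measure E).toSphere) := by
      refine integral_mono_of_nonneg (Eventually.of_forall fun x => norm_nonneg _)
        (hint _ hc2) (Eventually.of_forall hle)
    refine hbd.trans ?_
    have hcW' : Continuous (fun x : sphere (0 : E) 1 => 1 / 200 * Wd G (1 / 3) x) :=
      hcW.const_mul _
    have hcd' : Continuous (fun x : sphere (0 : E) 1 =>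
        72 * 3 ^ 12 * 50 * (Wd G (1 / 3) x - pd G (1 / 3) x)) := (hcW.sub hcp).const_mul _
    rw [integral_add (hint _ hcW') (hint _ hcd'), integral_const_mul, integral_const_mul,
      hsub, ← hv]
    have : v < (784 / 729 + 1 / 10 ^ 12) * S := hcon
    nlinarith
  have hpi : Real.pi ≤ 4 := Real.pi_le_four
  set m := ‖∫ x : sphere (0 : E) 1, G x ∂((volume : Measure E).toSphere)‖ with hmdef
  have hm0 : 0 ≤ m := norm_nonneg _
  have hm1 : m ≤ S / 50 := by nlinarith [Real.pi_pos]
  have hm2 : m ^ 2 / S ≤ S / 2500 := by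
    rw [div_le_iff₀ hS0]
    nlinarith
  have hcs : Continuous (fun x : sphere (0 : E) 1 => Real.sqrt (hs2 (fderiv ℝ G x -
      (innerSL ℝ (x : E)).smulRight (G x)))) := by
    have h1 := hG.continuous_fderiv_sphere
    have h3 : Continuous (fun x : sphere (0 : E) 1 => (x : E)) := continuous_subtype_val
    have h4 : Continuous (fun x : sphere (0 : E) 1 => innerSL ℝ (x : E)) :=
      (innerSL ℝ (E := E)).continuous.comp h3
    have h5 : Continuous (fun q : (E →L[ℝ] ℝ) × E => q.1.smulRight q.2) :=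
      (ContinuousLinearMap.smulRightL ℝ E E).continuous₂
    exact Real.continuous_sqrt.comp (continuous_hs2.comp
      (h1.sub (h5.comp (h4.prodMk hG.continuous_sphere))))
  have hlow : ∫ x : sphere (0 : E) 1, (80 / 99 + 17 / 99 * Real.sqrt (hs2 (fderiv ℝ G x -
      (innerSL ℝ (x : E)).smulRight (G x)))) ∂((volume : Measure E).toSphere) ≤ v := by
    refine integral_mono (hint _ ?_) (hint _ hcW) fun x => ?_
    · exact continuous_const.add (hcs.const_mul _)
    · obtain ⟨-, h2, h3, -⟩ := hpt x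
      exact sqrt_lower h2 (hs2_nonneg _) h3
  have hcs' : Continuous (fun x : sphere (0 : E) 1 => 17 / 99 * Real.sqrt (hs2 (fderiv ℝ G x -
      (innerSL ℝ (x : E)).smulRight (G x)))) := hcs.const_mul _
  rw [integral_add (integrable_const _) (hint _ hcs'), integral_const_mul] at hlow
  simp only [integral_const, smul_eq_mul, ← hS] at hlow
  nlinarith

end Pool.Agent.Lib.MP_c9e52c_gt
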